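import Pool.Agent.H301.SZ.Pack

/-! From the limit `t^(1+2a)` to the level of the weight: the square root law. -/

set_option autoImplicit false

namespace Pool.Agent.H301.SZ

open Finset Filter Topology Pool.Agent.H301.SX
open Pool.Agent.Y829 (HS Sf mem_HS V V_insert)
open Pool.Agent.N422.SL (wt)
open Pool.Agent.N422.LG

/-- the parameters -/
lemma params (lam η C : ℝ) (hlam : 0 < lam) (hη : 0 < η) (hC0 : 0 < C) : ∃ δ : ℝ, 0 < δ ∧ δ ≤ 1 / 4 ∧
    δ * (4 * C + 5 / lam) ≤ η / 2 ∧ δ * (11 * C + 10 / lam) ≤ η := by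
  refine ⟨min (1 / 4) (η / (2 * (11 * C + 10 / lam))), lt_min (by norm_num) (by positivity), min_le_left _ _, ?_, ?_⟩
  · have h1 : min (1 / 4) (η / (2 * (11 * C + 10 / lam))) ≤ η / (2 * (11 * C + 10 / lam)) := min_le_right _ _
    have h2 : 4 * C + 5 / lam ≤ 11 * C + 10 / lam := by
      have : 5 / lam ≤ 10 / lam := div_le_div_of_nonneg_right (by norm_num) hlam.le
      linarith
    calc min (1 / 4) (η / (2 * (11 * C + 10 / lam))) * (4 * C + 5 / lam) ≤
          η / (2 * (11 * C + 10 / lam)) * (11 * C + 10 / lam) := by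
          apply mul_le_mul h1 h2 (by positivity) (by positivity)
      _ = η / 2 := by field_simp
  · have h1 : min (1 / 4) (η / (2 * (11 * C + 10 / lam))) ≤ η / (2 * (11 * C + 10 / lam)) := min_le_right _ _
    calc min (1 / 4) (η / (2 * (11 * C + 10 / lam))) * (11 * C + 10 / lam) ≤
          η / (2 * (11 * C + 10 / lam)) * (11 * C + 10 / lam) := mul_le_mul_of_nonneg_right h1 (by positivity)
      _ = η / 2 := by field_simp
      _ ≤ η := by linarith

/-- the reciprocals of the primes between the limit and the level -/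
lemma sumJ {K t : ℝ} {Q y : ℕ} (hK : 1 ≤ K) (ht : 4 ≤ t) (hty : 2 * t ≤ y) (hL1 : 1 ≤ Real.log t)
    (hLL : Real.log K + 1 ≤ Real.log (Real.log t)) (hlQ0 : 0 < Real.log Q) (hQ2 : Real.log Q ≤ t)
    (h1' : Real.log y / Real.log Q ≤ K * Real.exp (-(RECD Q y))) :
    ∑ p ∈ PQ Q y, 1 / ((p : ℝ) - 1) ≤ Real.log t := by
  have ht0 : 0 < t := by linarith
  set L := Real.log t with hL
  have hL0 : 0 < L := by linarith
  have hy0 : (0 : ℝ) < y := by linarith
  have hly1 : L ≤ Real.log y := Real.log_le_log ht0 (by linarith)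
  have hly0 : 0 < Real.log y := by linarith
  have hDL : RECD Q y ≤ L - Real.log L + Real.log K := by
    have h2 : L / t ≤ Real.log y / Real.log Q := div_le_div₀ hly0.le hly1 hlQ0 hQ2
    have h3 : Real.exp (RECD Q y) ≤ K * t / L := by
      have h4 : L / t ≤ K * Real.exp (-(RECD Q y)) := h2.trans h1'
      rw [Real.exp_neg, ← div_eq_mul_inv, div_le_div_iff₀ ht0 (Real.exp_pos _)] at h4
      rw [le_div_iff₀ hL0]
      linarith
    have h5 : RECD Q y ≤ Real.log (K * t / L) := by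
      rw [← Real.log_exp (RECD Q y)]
      exact Real.log_le_log (Real.exp_pos _) h3
    rw [Real.log_div (by positivity) hL0.ne', Real.log_mul (by linarith) ht0.ne'] at h5
    linarith
  have h1 : ∀ p ∈ PQ Q y, 1 / ((p : ℝ) - 1) ≤ (1 + 2 / y) * (1 / (p : ℝ)) := by
    intro p hp
    unfold PQ at hp
    rw [mem_filter] at hp
    have h2 : (y : ℝ) < p := by exact_mod_cast hp.2.2
    have h3 : 0 < (p : ℝ) - 1 := by linarith
    have h4 : 0 < (p : ℝ) := by linarith
    have h5 : 1 / ((p : ℝ) - 1) ≤ (1 + 2 / p) * (1 / (p : ℝ)) := by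
      rw [mul_one_div, div_le_div_iff₀ h3 h4]
      have h6 : (1 + 2 / (p : ℝ)) * (p - 1) = p + 1 - 2 / p := by
        field_simp
        ring
      rw [h6, one_mul]
      have h7 : 2 / (p : ℝ) ≤ 1 := by
        rw [div_le_one h4]
        linarith
      linarith
    refine h5.trans ?_
    apply mul_le_mul_of_nonneg_right _ (by positivity)
    have : 2 / (p : ℝ) ≤ 2 / y := div_le_div_of_nonneg_left (by norm_num) hy0 h2.le
    linarith
  have h2 : ∑ p ∈ PQ Q y, 1 / (p : ℝ) = RECD Q y := rfl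
  have h3 := sum_le_sum h1
  rw [← mul_sum, h2] at h3
  have h4 : 0 ≤ RECD Q y := RECD_nonneg Q y
  have h5 : RECD Q y ≤ L := by linarith
  have h6 : 2 / (y : ℝ) * RECD Q y ≤ 1 := by
    rw [div_mul_eq_mul_div, div_le_one hy0]
    have h7 : L ≤ t - 1 := Real.log_le_sub_one_of_pos ht0
    linarith
  have h7 : (1 + 2 / (y : ℝ)) * RECD Q y = RECD Q y + 2 / y * RECD Q y := by ring
  rw [h7] at h3
  linarith

/-- the square root law between the limit `t^(1+2a)` and the level -/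
theorem seqS (a : ℝ) (ha : 0 < a) (ha1 : a ≤ 1 / 2) (lam : ℝ) (hlam : 0 < lam) (η : ℝ) (hη : 0 < η)
    (Cs : ℝ) (hCs : 0 < Cs) (E : ℝ) (hE : 1 ≤ E) : ∀ᶠ t : ℝ in atTop, ∀ Q : ℕ,
    t / 1000 ≤ Real.log Q → Real.log Q ≤ t → ∀ l : ℝ, 0 < l → Real.log Q ≤ E * l → ∀ U : ℕ, lam * (t * Real.log t) ≤ U → (U : ℝ) ≤ t ^ (1 + a / 2) →
    ∀ c : ℕ → ℕ → ℝ, (∀ n, 0 ≤ wt Q c n) → Supp Q ⌈t ^ (1 + 2 * a)⌉₊ l c →
    mQ Q (fun n => wt Q c n * ((Sv U ⌈t ^ (1 + 2 * a)⌉₊ n).card : ℝ)) ≤ Cs * (U / Real.log t) * mQ Q (wt Q c) →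
    ⌈t ^ (1 + 2 * a)⌉₊ ≤ Q →
    |√(mQ Q (fun n => wt Q c n * ((Sv U Q n).card : ℝ))) - √(VV Q / VV ⌈t ^ (1 + 2 * a)⌉₊ *
      mQ Q (fun n => wt Q c n * ((Sv U ⌈t ^ (1 + 2 * a)⌉₊ n).card : ℝ)))| ≤
      √(Real.log t / 2 * (l / Real.log Q * mQ Q (wt Q c))) + √(η * (U / t) * (l / Real.log Q * mQ Q (wt Q c))) := by
  classical
  obtain ⟨K, hK, hM⟩ := t_MERB2
  set C : ℝ := 3000 * K ^ 2 * Cs * E with hC
  have hC0 : 0 < C := by positivity
  obtain ⟨δ, hδ, hδ1, hδ2, hδ3⟩ := params lam η C hlam hη hC0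
  obtain ⟨n0, hn0⟩ := mert2 (δ / 20) (by positivity)
  have hl : Tendsto Real.log atTop atTop := Real.tendsto_log_atTop
  filter_upwards [hl.eventually_ge_atTop (max 1 (400 / (δ * η * lam))), eventually_ge_atTop (max 4 (max (K + 4) n0)),
    (tendsto_rpow_atTop ha).eventually_ge_atTop (max 4 (max (100 / δ) ((C + 1 / lam) * (4 / δ)))),
    (hl.comp hl).eventually_ge_atTop (Real.log K + 1), hl.eventually_ge_atTop ((40 / δ) / √(2 * η * lam))]
    with t ht1 ht2 ht3 ht4 ht5
  intro Q hQ1 hQ2 l hl0 hlE U hUB hUa c hw hSup hBC hyQ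
  have hL1 : 1 ≤ Real.log t := (le_max_left _ _).trans ht1
  have hL400 : 400 / (δ * η * lam) ≤ Real.log t := (le_max_right _ _).trans ht1
  have ht4' : 4 ≤ t := (le_max_left _ _).trans ht2
  have htK : K + 4 ≤ t := (le_max_left _ _).trans ((le_max_right _ _).trans ht2)
  have htn : (n0 : ℝ) ≤ t := (le_max_right _ _).trans ((le_max_right _ _).trans ht2)
  have hta4 : 4 ≤ t ^ a := (le_max_left _ _).trans ht3
  have htaδ : 100 / δ ≤ t ^ a := (le_max_left _ _).trans ((le_max_right _ _).trans ht3)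
  have htaC : (C + 1 / lam) * (4 / δ) ≤ t ^ a := (le_max_right _ _).trans ((le_max_right _ _).trans ht3)
  have hLL : Real.log K + 1 ≤ Real.log (Real.log t) := ht4
  have ht0 : (0 : ℝ) < t := by linarith
  set L := Real.log t with hL
  have hL0 : 0 < L := by linarith
  set y := ⌈t ^ (1 + 2 * a)⌉₊ with hy
  have hyt : t ^ (1 + 2 * a) ≤ (y : ℝ) := Nat.le_ceil _
  have hyt2 : (y : ℝ) < t ^ (1 + 2 * a) + 1 := Nat.ceil_lt_add_one (Real.rpow_nonneg ht0.le _)
  have hta : 0 < t ^ a := Real.rpow_pos_of_pos ht0 _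
  have ht2a : 0 < t ^ (a / 2) := Real.rpow_pos_of_pos ht0 _
  have hhalf : t ^ (a / 2) * t ^ (a / 2) = t ^ a := by
    rw [← Real.rpow_add ht0]
    congr 1
    ring
  have h1a : 1 ≤ t ^ (a / 2) := Real.one_le_rpow (by linarith) (by linarith)
  have hsplit : t ^ (1 + 2 * a) = t * (t ^ a * t ^ a) := by
    rw [← Real.rpow_add ht0, ← Real.rpow_one_add' ht0.le (by positivity)]
    congr 1
    ring
  have hUsplit : t ^ (1 + a / 2) = t * t ^ (a / 2) := by
    rw [← Real.rpow_one_add' ht0.le (by positivity)]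
  have hU0 : (0 : ℝ) ≤ U := Nat.cast_nonneg _
  have hUt : (U : ℝ) ≤ t * t ^ (a / 2) := by rw [← hUsplit]; exact hUa
  have hty : t ≤ y := by
    refine le_trans ?_ hyt
    rw [hsplit]
    have : 1 ≤ t ^ a * t ^ a := by nlinarith
    exact le_mul_of_one_le_right ht0.le this
  have hy4 : (4 : ℝ) ≤ y := by linarith
  have hy0 : (0 : ℝ) < y := by linarith
  have hy2 : 2 ≤ y := by
    have : (2 : ℝ) ≤ y := by linarith
    exact_mod_cast this
  have hyn0 : n0 ≤ y := by
    have : (n0 : ℝ) ≤ y := by linarith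
    exact_mod_cast this
  have hly1 : L ≤ Real.log y := Real.log_le_log ht0 hty
  have hly0 : 0 < Real.log y := by linarith
  have hlQ0 : 0 < Real.log Q := by
    have : 0 < t / 1000 := by positivity
    linarith
  have hly3 : Real.log y ≤ 3 * L := by
    have h1 : (y : ℝ) ≤ 2 * t ^ (1 + 2 * a) := by
      have : 1 ≤ t ^ (1 + 2 * a) := Real.one_le_rpow (by linarith) (by linarith)
      linarith
    have h2 : Real.log y ≤ Real.log (2 * t ^ (1 + 2 * a)) := Real.log_le_log hy0 h1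
    rw [Real.log_mul (by norm_num) (by positivity), Real.log_rpow ht0] at h2
    have h3 : Real.log 2 ≤ 1 := by
      have := Real.log_two_lt_d9
      linarith
    have h4 : (1 + 2 * a) * Real.log t ≤ 2 * Real.log t := mul_le_mul_of_nonneg_right (by linarith) hL0.le
    linarith
  -- the ratio of the window and the next primes
  set κ : ℝ := U / y with hκ
  have hκ0 : 0 ≤ κ := by positivity
  have hκta : κ * (t ^ a * t ^ (a / 2)) ≤ 1 := by
    rw [hκ, div_mul_eq_mul_div, div_le_one hy0]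
    calc (U : ℝ) * (t ^ a * t ^ (a / 2)) ≤ t * t ^ (a / 2) * (t ^ a * t ^ (a / 2)) :=
          mul_le_mul_of_nonneg_right hUt (by positivity)
      _ = t * ((t ^ (a / 2) * t ^ (a / 2)) * t ^ a) := by ring
      _ = t ^ (1 + 2 * a) := by rw [hhalf, ← hsplit]
      _ ≤ y := hyt
  have hκta2 : κ * t ^ a ≤ 1 := by
    refine le_trans ?_ hκta
    apply mul_le_mul_of_nonneg_left _ hκ0
    exact le_mul_of_one_le_right hta.le h1a
  have hκδ : κ ≤ δ / 100 := by
    have h1 : κ * (100 / δ) ≤ 1 := (mul_le_mul_of_nonneg_left htaδ hκ0).trans hκta2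
    rw [← mul_div_assoc, div_le_one hδ] at h1
    linarith
  set Λ : ℝ := U / t with hΛ
  have hΛ0 : 0 ≤ Λ := by positivity
  have hΛa : Λ ≤ t ^ (a / 2) := by
    rw [hΛ, div_le_iff₀ ht0]
    linarith
  have hκΛ : κ * ((C + 1 / lam) * Λ) ≤ δ / 4 := by
    have h1 : κ * Λ * t ^ a ≤ 1 := by
      calc κ * Λ * t ^ a ≤ κ * t ^ (a / 2) * t ^ a := by
            apply mul_le_mul_of_nonneg_right _ hta.le
            exact mul_le_mul_of_nonneg_left hΛa hκ0
        _ = κ * (t ^ a * t ^ (a / 2)) := by ring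
        _ ≤ 1 := hκta
    have h2 : κ * Λ * ((C + 1 / lam) * (4 / δ)) ≤ 1 := (mul_le_mul_of_nonneg_left htaC (by positivity)).trans h1
    have h3 : κ * Λ * ((C + 1 / lam) * (4 / δ)) = κ * ((C + 1 / lam) * Λ) * 4 / δ := by ring
    rw [h3, div_le_one hδ] at h2
    linarith
  have hlamJ : lam * L ≤ Λ := by
    rw [hΛ, le_div_iff₀ ht0]
    linarith
  -- the primes
  have hty2 : 2 * t ≤ y := by
    refine le_trans ?_ hyt
    rw [hsplit]
    have : 2 ≤ t ^ a * t ^ a := by nlinarith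
    have := mul_le_mul_of_nonneg_left this ht0.le
    linarith
  have h2Uy : 2 * U ≤ y := by
    have h1 : κ ≤ 1 / 100 := by linarith
    rw [hκ, div_le_iff₀ hy0] at h1
    have : (2 : ℝ) * U ≤ y := by linarith
    exact_mod_cast this
  have hGap : Gap Q y U δ L l E :=
    ⟨hy2, hyQ, h2Uy, hδ, hδ1, sumJ hK ht4' hty2 hL1 hLL hlQ0 hQ2 (hM y Q hy2 hyQ).2.1, hl0, hE, hlE,
      fun n hn => hn0 n (hyn0.trans hn)⟩
  have hVP : V (PQ Q y) = VV Q / VV y := hGap.VP
  have hVy0 : 0 < VV y := MERB_pos y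
  have hVQ0 : 0 < VV Q := MERB_pos Q
  -- the quantities
  set A := mQ Q (fun n => wt Q c n * ((Sv U Q n).card : ℝ)) with hA
  set B' := mQ Q (fun n => wt Q c n * ((Sv U y n).card : ℝ)) with hB'
  set m := mQ Q (wt Q c) with hm
  have hm0 : 0 ≤ m := REC_mQ_nonneg hw
  have hA0 : 0 ≤ A := REC_mQ_nonneg (fun n => mul_nonneg (hw n) (Nat.cast_nonneg _))
  have hB0 : 0 ≤ B' := REC_mQ_nonneg (fun n => mul_nonneg (hw n) (Nat.cast_nonneg _))
  have hAB : A ≤ B' := by
    apply REC_mQ_mono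
    intro n
    apply mul_le_mul_of_nonneg_left _ (hw n)
    rw [Sv_eq, Sv_eq, Nat.cast_le]
    apply card_le_card
    apply HS_mono
    intro p hp
    rw [mem_filter, mem_Icc] at hp ⊢
    exact ⟨⟨hp.1.1, hp.1.2.trans hyQ⟩, hp.2⟩
  rcases hm0.eq_or_lt with hmz | hmp
  · have h1 : B' ≤ 0 := by
      rw [← hmz, mul_zero] at hBC
      exact hBC
    have h2 : B' = 0 := le_antisymm h1 hB0
    have h3 : A = 0 := le_antisymm (hAB.trans h1) hA0
    rw [h2, h3, ← hmz]
    simp
  set m' := l / Real.log Q * m with hm'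
  have hmp' : 0 < m' := by positivity
  have hmE : m ≤ E * m' := by
    rw [hm', ← mul_assoc]
    apply le_mul_of_one_le_left hm0
    rw [← mul_div_assoc, le_div_iff₀ hlQ0, one_mul]
    exact hlE
  set M := A / m' with hMd
  set M0 := VV Q / VV y * B' / m' with hM0d
  have hM00 : 0 ≤ M := by positivity
  have hM000 : 0 ≤ M0 := by positivity
  have hAM : A = M * m' := by
    rw [hMd]
    field_simp
  have hBM : VV Q / VV y * B' = M0 * m' := by
    rw [hM0d]
    field_simp
  have hM0C : M0 ≤ C * Λ := by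
    have h1 : VV Q / VV y ≤ 1000 * K ^ 2 * (Real.log y / t) := by
      have h2 := (hM y y hy2 le_rfl).2.2.1
      have h3 := (hM Q Q (hy2.trans hyQ) le_rfl).2.2.2
      have h4 : VV Q / VV y ≤ (K / Real.log Q) / (1 / (K * Real.log y)) :=
        div_le_div₀ (by positivity) h3 (by positivity) h2
      refine h4.trans ?_
      have h5 : (K / Real.log Q) / (1 / (K * Real.log y)) = K ^ 2 * Real.log y * (1 / Real.log Q) := by
        field_simp
      rw [h5]
      have h6 : 1 / Real.log Q ≤ 1000 / t := by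
        rw [div_le_div_iff₀ hlQ0 ht0]
        linarith
      calc K ^ 2 * Real.log y * (1 / Real.log Q) ≤ K ^ 2 * Real.log y * (1000 / t) :=
            mul_le_mul_of_nonneg_left h6 (by positivity)
        _ = _ := by ring
    rw [hM0d, div_le_iff₀ hmp']
    calc VV Q / VV y * B' ≤ (1000 * K ^ 2 * (Real.log y / t)) * (Cs * (U / L) * m) :=
          mul_le_mul h1 hBC hB0 (by positivity)
      _ ≤ (1000 * K ^ 2 * ((3 * L) / t)) * (Cs * (U / L) * m) := by
          apply mul_le_mul_of_nonneg_right _ (by positivity)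
          apply mul_le_mul_of_nonneg_left _ (by positivity)
          exact div_le_div_of_nonneg_right hly3 ht0.le
      _ = 3000 * K ^ 2 * Cs * Λ * m := by
          rw [hΛ]
          field_simp
          ring
      _ ≤ 3000 * K ^ 2 * Cs * Λ * (E * m') := mul_le_mul_of_nonneg_left hmE (by positivity)
      _ = C * Λ * m' := by
          rw [hC]
          ring
  have hup : √M ≤ √M0 + √(L / 2) + √(η * Λ) := by
    apply rootU hM000 hL0.le hΛ0 hlam hη hδ hδ1 hM0C hlamJ hδ2
    · rw [div_le_iff₀ (by positivity)] at hL400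
      rw [div_le_iff₀ hδ]
      have h1 : lam * L * (δ * η) ≤ Λ * (δ * η) := mul_le_mul_of_nonneg_right hlamJ (by positivity)
      linarith
    · intro cc hcc
      have key := packU hGap c hw hSup cc hcc
      rw [← hA, ← hB', ← hm, ← hm', hBM, hAM] at key
      have e4 : ((cc + L) / cc * (1 + 1 / cc) * M0 + (1 / 2 + 3 * δ) * (cc + L)) * m' =
        (cc + L) / cc * (1 + 1 / cc) * (M0 * m') + (1 / 2 + 3 * δ) * (cc + L) * m' := by ring
      rw [← e4] at key
      exact le_of_mul_le_mul_right key hmp'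
  have hlo : √M0 ≤ √M + √(L / 2) + √(η * Λ) := by
    apply rootL hM00 hM000 hL0 hΛ0 hlam hη hδ hM0C hlamJ hκ0 hκΛ hδ3
    · have h1 : 0 < √(2 * η * lam) := Real.sqrt_pos.2 (by positivity)
      rw [div_le_iff₀ h1] at ht5
      have h2 : (40 / δ) ^ 2 ≤ (L * √(2 * η * lam)) ^ 2 := pow_le_pow_left₀ (by positivity) ht5 _
      rw [mul_pow, Real.sq_sqrt (by positivity)] at h2
      linarith
    · intro cc hcc hκc
      have key := packL hGap c hw hSup cc κ hcc le_rfl hκδ hκc
      rw [← hA, ← hB', ← hm, ← hm', hBM, hAM] at key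
      have e4 : ((cc - L) / cc * M0 - (1 / 2 + 10 * δ) * (cc - L)) * m' =
        (cc - L) / cc * (M0 * m') - (1 / 2 + 10 * δ) * (cc - L) * m' := by ring
      have e5 : (1 + δ) * (M * m') = ((1 + δ) * M) * m' := by ring
      rw [← e4, e5] at key
      exact le_of_mul_le_mul_right key hmp'
  have hsm : ∀ x : ℝ, √(x * m') = √x * √m' := fun x => Real.sqrt_mul' x hmp'.le
  rw [hAM, hBM, hsm, hsm, hsm, hsm, ← sub_mul, ← add_mul, abs_mul, abs_of_nonneg (Real.sqrt_nonneg m')]
  apply mul_le_mul_of_nonneg_right _ (Real.sqrt_nonneg m')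
  rw [abs_le]
  constructor <;> linarith

end Pool.Agent.H301.SZ
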