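import Pool.Agent.H301.SZ.Pack

/-! The last real-variable step. -/

set_option autoImplicit false

namespace Pool.Agent.H301.SZ

open Real

/-- differences of square roots -/
lemma sqd' {x y e : ℝ} (hx : 0 ≤ x) (hy : 0 ≤ y) (h : |x - y| ≤ e) : |√x - √y| ≤ √e := by
  have h1 := abs_le.1 h
  have he : 0 ≤ e := (abs_nonneg _).trans h
  rw [abs_le]
  constructor
  · have h2 : √y ≤ √(x + e) := Real.sqrt_le_sqrt (by linarith)
    have h3 := sqrt_add_le' hx he
    linarith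
  · have h2 : √x ≤ √(y + e) := Real.sqrt_le_sqrt (by linarith)
    have h3 := sqrt_add_le' hy he
    linarith

/-- the last comparison of square roots -/
lemma lastroot {P D G1 G2 x1 x2 x3 U : ℝ} (hP : 0 ≤ P) (hD : 0 ≤ D) (hG1 : 0 ≤ G1) (hG2 : 0 ≤ G2)
    (h1 : |P - G1| ≤ x1 * U) (h2 : |D - G2| ≤ x1 * U) (h3 : |√G1 - √G2| ≤ x2 + x3) :
    |√P - √D| ≤ x2 + (x3 + 2 * √(x1 * U)) := by
  have a1 := abs_le.1 (sqd' hP hG1 h1)
  have a2 := abs_le.1 (sqd' hD hG2 h2)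
  have a3 := abs_le.1 h3
  rw [abs_le]
  constructor <;> linarith

lemma fin1 {a u ε : ℝ} (hε : 0 < ε) (hu : 0 ≤ u) : a + ε / 4 * u + (ε / 4 * u + 2 * (ε / 8 * u)) ≤ a + ε * u := by
  have : 0 ≤ ε * u := by positivity
  linarith

lemma gs1 {g g' x1 x2 C l ε u a : ℝ} (h1 : g - g' ≤ x1 + x2) (h2 : g' ≤ C * u) (hx1 : x1 ≤ a + ε / 4 * u)
    (hx2 : x2 ≤ ε / 4 * u) (h3 : a ≤ l * u) : g ≤ (C + l + ε / 2) * u := by
  have : (C + l + ε / 2) * u = C * u + l * u + (ε / 4 * u + ε / 4 * u) := by ring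
  linarith

/-- `e^γ ≤ 4` -/
lemma expγ : Real.exp Real.eulerMascheroniConstant ≤ 4 := by
  have h1 := Real.eulerMascheroniConstant_lt_two_thirds
  have h2 : Real.exp Real.eulerMascheroniConstant ≤ Real.exp 1 := Real.exp_le_exp.2 (by linarith)
  have h3 := Real.exp_one_lt_d9
  linarith

/-- the main term -/
lemma core1 {L LL θ lam ε δ U VQ lQ : ℝ} (hL0 : 0 < L) (hLL0 : 0 < LL) (hθ : 0 < θ) (hlam : 0 < lam) (hε : 0 < ε)
    (hδ : 0 < δ) (hδ4 : δ ≤ 1 / 4) (hU0 : 0 ≤ U) (hU : lam * (L * LL) ≤ U)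
    (hVQlow : gg * (1 - δ) ≤ VQ * lQ) (hp1 : 4 * δ * θ ≤ lam * (ε / 4) ^ 2) :
    √(LL / 2 * (θ * L / (VQ * lQ))) ≤
      √(Real.exp Real.eulerMascheroniConstant * θ / 2 * (L * LL)) + ε / 4 * √U := by
  have esq : √((ε / 4) ^ 2 * U) = ε / 4 * √U := by
    rw [Real.sqrt_mul (by positivity), Real.sqrt_sq (by positivity)]
  have hg0 := gg_pos
  have hgi : 1 / gg = Real.exp Real.eulerMascheroniConstant := by
    unfold gg
    rw [one_div, ← Real.exp_neg, neg_neg]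
  have h0 : 0 < Real.exp Real.eulerMascheroniConstant := Real.exp_pos _
  have h1 : LL / 2 * (θ * L / (VQ * lQ)) ≤
      Real.exp Real.eulerMascheroniConstant * θ / 2 * (L * LL) + 4 * δ * (θ * (L * LL)) := by
    have h1δ : 0 < 1 - δ := by linarith
    have h2 : θ * L / (VQ * lQ) ≤ θ * L / (gg * (1 - δ)) :=
      div_le_div_of_nonneg_left (by positivity) (by positivity) hVQlow
    have h3 : θ * L / (gg * (1 - δ)) = Real.exp Real.eulerMascheroniConstant * (θ * L) * (1 / (1 - δ)) := by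
      rw [← hgi]
      field_simp
    have h4 : 1 / (1 - δ) ≤ 1 + 2 * δ := by
      rw [div_le_iff₀ h1δ]
      nlinarith
    have h5 : Real.exp Real.eulerMascheroniConstant ≤ 4 := expγ
    calc LL / 2 * (θ * L / (VQ * lQ)) ≤
          LL / 2 * (Real.exp Real.eulerMascheroniConstant * (θ * L) * (1 + 2 * δ)) := by
          apply mul_le_mul_of_nonneg_left _ (by linarith)
          rw [h3] at h2
          refine h2.trans ?_
          exact mul_le_mul_of_nonneg_left h4 (by positivity)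
      _ = Real.exp Real.eulerMascheroniConstant * θ / 2 * (L * LL) +
          Real.exp Real.eulerMascheroniConstant * (δ * (θ * (L * LL))) := by ring
      _ ≤ _ := by
          have h6 : 0 ≤ δ * (θ * (L * LL)) := by positivity
          have h7 := mul_le_mul_of_nonneg_right h5 h6
          linarith
  have h2 : 4 * δ * (θ * (L * LL)) ≤ (ε / 4) ^ 2 * U := by
    have h3 : lam * (4 * δ * (θ * (L * LL))) ≤ 4 * δ * θ * U := by
      have := mul_le_mul_of_nonneg_left hU (show 0 ≤ 4 * δ * θ by positivity)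
      linarith
    have h4 : 4 * δ * θ * U ≤ (lam * (ε / 4) ^ 2) * U := mul_le_mul_of_nonneg_right hp1 hU0
    have h5 : lam * (4 * δ * (θ * (L * LL))) ≤ lam * ((ε / 4) ^ 2 * U) := by linarith
    exact le_of_mul_le_mul_left h5 hlam
  calc √(LL / 2 * (θ * L / (VQ * lQ))) ≤
        √(Real.exp Real.eulerMascheroniConstant * θ / 2 * (L * LL) + (ε / 4) ^ 2 * U) :=
        Real.sqrt_le_sqrt (h1.trans (by linarith))
    _ ≤ √(Real.exp Real.eulerMascheroniConstant * θ / 2 * (L * LL)) + √((ε / 4) ^ 2 * U) :=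
        sqrt_add_le' (by positivity) (by positivity)
    _ = _ := by rw [esq]

/-- the quotients -/
lemma hquo {MP mu NN Y U η₁ T G e B : ℝ} (hMP0 : 0 ≤ MP) (hmu : 0 < mu) (hY : Y = MP * mu) (hYpos : 0 < Y)
    (hNN : 0 < NN) (hNN2 : Y / 2 ≤ NN) (hNY' : |NN - Y| ≤ 400 * η₁ * Y) (hT0 : 0 ≤ T)
    (hTG : |T - MP * G| ≤ e * U * Y) (hGB : G / mu ≤ B * U) :
    |T / NN - G / mu| ≤ (e + 800 * η₁ * (B + e)) * U := by
  have hMPp : MP ≠ 0 := by
    intro h
    rw [h, zero_mul] at hY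
    linarith
  have h1 : T / NN - G / mu = (T - MP * G) / Y + T / NN * ((Y - NN) / Y) := by
    rw [hY]
    field_simp
    ring
  have h2 : |(T - MP * G) / Y| ≤ e * U := by
    rw [abs_div, abs_of_pos hYpos, div_le_iff₀ hYpos]
    exact hTG
  have h3 : |(Y - NN) / Y| ≤ 400 * η₁ := by
    rw [abs_div, abs_of_pos hYpos, div_le_iff₀ hYpos, abs_sub_comm]
    exact hNY'
  have h4 : T / NN ≤ 2 * ((B + e) * U) := by
    rw [div_le_iff₀ hNN]
    have h5 := (abs_le.1 hTG).2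
    have h6 : G ≤ B * U * mu := by
      rw [div_le_iff₀ hmu] at hGB
      exact hGB
    have h7 : MP * G ≤ B * U * Y := by
      calc MP * G ≤ MP * (B * U * mu) := mul_le_mul_of_nonneg_left h6 hMP0
        _ = _ := by
            rw [hY]
            ring
    have h8 : T ≤ (B + e) * U * Y := by linarith
    have h9 : 0 ≤ (B + e) * U := by
      have h10 : 0 ≤ (B + e) * U * Y := hT0.trans h8
      exact nonneg_of_mul_nonneg_left h10 hYpos
    have h11 : (B + e) * U * Y ≤ (B + e) * U * (2 * NN) := mul_le_mul_of_nonneg_left (by linarith) h9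
    linarith
  have h40 : 0 ≤ T / NN := by positivity
  have h5 : |T / NN * ((Y - NN) / Y)| ≤ 2 * ((B + e) * U) * (400 * η₁) := by
    rw [abs_mul, abs_of_nonneg h40]
    exact mul_le_mul h4 h3 (abs_nonneg _) (h40.trans h4)
  rw [h1]
  refine (abs_add_le _ _).trans ?_
  calc |(T - MP * G) / Y| + |T / NN * ((Y - NN) / Y)| ≤ e * U + 2 * ((B + e) * U) * (400 * η₁) :=
        add_le_add h2 h5
    _ = _ := by ring

/-- from the model to the primes -/
theorem core {T1 T2 GS G' NN Y MP LP mu VQ lQ L LL θ lam ε C K0 U C9 δ η₁ η₂ ω : ℝ}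
    (hMP : 0 < MP) (hmu : 0 < mu) (hVQ : 0 < VQ) (hlQ : 0 < lQ) (hL0 : 0 < L) (hLL0 : 0 < LL) (hU0 : 0 < U)
    (hNN : 0 < NN) (hGS0 : 0 ≤ GS) (hG'0 : 0 ≤ G') (hT10 : 0 ≤ T1) (hT20 : 0 ≤ T2)
    (hθ : 0 < θ) (hθ1 : θ ≤ 1 / 100) (hlam : 0 < lam) (hε : 0 < ε) (hC : 0 < C)
    (hη₂ : 0 < η₂) (hC9 : (√C + √(1 / lam) + ε / 2) ^ 2 ≤ C9) (hδ : 0 < δ)
    (hω0 : 0 < ω) (hδ4 : δ ≤ 1 / 4) (hp1 : 4 * δ * θ ≤ lam * (ε / 4) ^ 2) (hp2 : η₂ * K0 ≤ (ε / 4) ^ 2)
    (hp3 : (160 * η₁ + ω * C9) + 800 * η₁ * (C9 + (160 * η₁ + ω * C9)) ≤ (ε / 8) ^ 2)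
    (hp4 : 400 * η₁ + 800 * η₁ * (C + 400 * η₁) ≤ (ε / 8) ^ 2)
    (hY : Y = MP * mu) (hNN2 : Y / 2 ≤ NN) (hNY' : |NN - Y| ≤ 400 * η₁ * Y)
    (hmod' : |√(VQ * GS) - √(VQ * G')| ≤ √(LL / 2 * (θ * L / lQ * mu)) + √(η₂ * (U / L) * mu))
    (hG'le : G' ≤ C * (U * mu)) (hVQlow : gg * (1 - δ) ≤ VQ * lQ) (hVQK : 1 / VQ ≤ K0 * L)
    (hU : lam * (L * LL) ≤ U) (s1 : |T1 - LP * GS| ≤ 160 * η₁ * U * Y) (hLM : |LP - MP| ≤ ω * MP)
    (s5 : |T2 - MP * G'| ≤ 400 * η₁ * U * Y) :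
    |√(T1 / NN) - √(T2 / NN)| ≤ √(Real.exp Real.eulerMascheroniConstant * θ / 2 * (L * LL)) + ε * √U := by
  have hYpos : 0 < Y := by
    rw [hY]
    positivity
  have hG'm : G' / mu ≤ C * U := by
    rw [div_le_iff₀ hmu]
    linarith
  have hroot : |√(GS / mu) - √(G' / mu)| ≤ √(LL / 2 * (θ * L / (VQ * lQ))) + √(η₂ * (U / L) / VQ) := by
    have e1 : VQ * GS = GS / mu * (VQ * mu) := by
      field_simp
    have e2 : VQ * G' = G' / mu * (VQ * mu) := by
      field_simp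
    have e3 : LL / 2 * (θ * L / lQ * mu) = LL / 2 * (θ * L / (VQ * lQ)) * (VQ * mu) := by
      field_simp
    have e4 : η₂ * (U / L) * mu = η₂ * (U / L) / VQ * (VQ * mu) := by
      field_simp
    have hvm : 0 < VQ * mu := by positivity
    have hsm : ∀ x : ℝ, √(x * (VQ * mu)) = √x * √(VQ * mu) := fun x => Real.sqrt_mul' x hvm.le
    rw [e1, e2, e3, e4, hsm, hsm, hsm, hsm, ← sub_mul, ← add_mul, abs_mul,
      abs_of_nonneg (Real.sqrt_nonneg (VQ * mu))] at hmod'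
    exact le_of_mul_le_mul_right hmod' (Real.sqrt_pos.2 hvm)
  have hx1 := core1 hL0 hLL0 hθ hlam hε hδ hδ4 hU0.le hU hVQlow hp1
  have esq : √((ε / 4) ^ 2 * U) = ε / 4 * √U := by
    rw [Real.sqrt_mul (by positivity), Real.sqrt_sq (by positivity)]
  have hx2 : √(η₂ * (U / L) / VQ) ≤ ε / 4 * √U := by
    have h1 : η₂ * (U / L) / VQ ≤ (ε / 4) ^ 2 * U := by
      calc η₂ * (U / L) / VQ = η₂ * (U / L) * (1 / VQ) := by ring
        _ ≤ η₂ * (U / L) * (K0 * L) := mul_le_mul_of_nonneg_left hVQK (by positivity)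
        _ = (η₂ * K0) * U := by field_simp
        _ ≤ (ε / 4) ^ 2 * U := mul_le_mul_of_nonneg_right hp2 hU0.le
    calc √(η₂ * (U / L) / VQ) ≤ √((ε / 4) ^ 2 * U) := Real.sqrt_le_sqrt h1
      _ = _ := esq
  have hLLp : 0 < L * LL := by positivity
  have hGSm : GS / mu ≤ C9 * U := by
    have h1 := (abs_le.1 hroot).2
    have h2 : √(G' / mu) ≤ √(C * U) := Real.sqrt_le_sqrt hG'm
    have h3 : √(Real.exp Real.eulerMascheroniConstant * θ / 2 * (L * LL)) ≤ √(1 / lam * U) := by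
      apply Real.sqrt_le_sqrt
      have h4 : Real.exp Real.eulerMascheroniConstant ≤ 4 := expγ
      have h5 : Real.exp Real.eulerMascheroniConstant * θ / 2 ≤ 1 := by
        have := mul_le_mul_of_nonneg_right h4 hθ.le
        linarith
      calc Real.exp Real.eulerMascheroniConstant * θ / 2 * (L * LL) ≤ 1 * (L * LL) :=
            mul_le_mul_of_nonneg_right h5 hLLp.le
        _ = 1 / lam * (lam * (L * LL)) := by
            field_simp
        _ ≤ 1 / lam * U := mul_le_mul_of_nonneg_left hU (by positivity)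
    have h4 : √(GS / mu) ≤ (√C + √(1 / lam) + ε / 2) * √U := by
      have e1 : √(C * U) = √C * √U := Real.sqrt_mul hC.le _
      have e2 : √(1 / lam * U) = √(1 / lam) * √U := Real.sqrt_mul (by positivity) _
      rw [e1] at h2
      rw [e2] at h3
      exact gs1 h1 h2 hx1 hx2 h3
    have h5 : (√(GS / mu)) ^ 2 ≤ ((√C + √(1 / lam) + ε / 2) * √U) ^ 2 :=
      pow_le_pow_left₀ (Real.sqrt_nonneg _) h4 2
    rw [Real.sq_sqrt (by positivity), mul_pow, Real.sq_sqrt hU0.le] at h5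
    refine h5.trans ?_
    exact mul_le_mul_of_nonneg_right hC9 hU0.le
  have hC90 : 0 ≤ C9 := le_trans (by positivity) hC9
  have k1 : |T1 - MP * GS| ≤ (160 * η₁ + ω * C9) * U * Y := by
    have t3 : |LP * GS - MP * GS| ≤ ω * C9 * U * Y := by
      rw [← sub_mul, abs_mul, abs_of_nonneg hGS0]
      have h1 : GS ≤ C9 * U * mu := by
        rw [div_le_iff₀ hmu] at hGSm
        exact hGSm
      calc |LP - MP| * GS ≤ (ω * MP) * (C9 * U * mu) := mul_le_mul hLM h1 hGS0 (by positivity)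
        _ = _ := by
            rw [hY]
            ring
    have t1 := abs_le.1 s1
    have t3' := abs_le.1 t3
    rw [abs_le]
    constructor <;> linarith
  have q1 : |T1 / NN - GS / mu| ≤ (ε / 8) ^ 2 * U :=
    (hquo hMP.le hmu hY hYpos hNN hNN2 hNY' hT10 k1 hGSm).trans (mul_le_mul_of_nonneg_right hp3 hU0.le)
  have q2 : |T2 / NN - G' / mu| ≤ (ε / 8) ^ 2 * U :=
    (hquo hMP.le hmu hY hYpos hNN hNN2 hNY' hT20 s5 hG'm).trans (mul_le_mul_of_nonneg_right hp4 hU0.le)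
  have hfin := lastroot (show 0 ≤ T1 / NN by positivity) (show 0 ≤ T2 / NN by positivity)
    (show 0 ≤ GS / mu by positivity) (show 0 ≤ G' / mu by positivity) q1 q2 (hroot.trans (add_le_add hx1 hx2))
  refine hfin.trans ?_
  have e8 : √((ε / 8) ^ 2 * U) = ε / 8 * √U := by
    rw [Real.sqrt_mul (by positivity), Real.sqrt_sq (by positivity)]
  rw [e8]
  exact fin1 hε (Real.sqrt_nonneg _)

end Pool.Agent.H301.SZ
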