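import Pool.Agent.H301.SZ.Space
import Pool.Agent.H301.SX.SeqT

/-! From the model to periodic functions, with the right constants. -/

set_option autoImplicit false

open Finset

namespace Pool.Agent.H301.SZ

open Pool.Agent.N422.NW Pool.Agent.N422.LR Pool.Agent.N422.LG Pool.Agent.N422.SL Pool.Agent.H301.SX
open Pool.Agent.Y829 (V)

/-- one residue class modulo `R`: the function on the model -/
theorem red_one (h3 : S_ARDG) (Q R r n : ℕ) (P T : Finset ℕ)
    (ν : ℕ → ℕ) (c : ℕ → ℕ → ℝ) (hR : R ∣ Q.factorial)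
    (hP : ∀ p ∈ P, p.Prime ∧ p ≤ Q ∧ ¬ p ∣ R) (hT : ∀ p ∈ P, 2 * T.card ≤ p ∧ T.card < p)
    (hT2 : ∀ p ∈ P, ∀ h ∈ T, ∀ h' ∈ T, h' < h + p)
    (hlev : ∀ d, 1 ≤ d → d ≤ Q → (∃ a, c d a ≠ 0) → ∑ p ∈ P.filter (fun p => p ∣ d), ν p ≤ n)
    (hw : ∀ x, 0 ≤ wt Q c x) :
    ∃ f : St P.card T.card → ℝ, (∀ γ, 0 ≤ f γ) ∧ Lev (fun i => ν (qo P i)) n f ∧
      MM (fun i => (qo P i : ℝ)) f P.card =
        mQ Q (fun x => wt Q c x * (if x % R = r then 1 else 0) * ((left P T x).card : ℝ)) / V P ∧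
      ∑ γ, muP (fun i => (qo P i : ℝ)) γ * f γ = mQ Q (fun x => wt Q c x * (if x % R = r then 1 else 0)) := by
  classical
  set q : Fin P.card → ℕ := qo P with hq
  have hqP : ∀ i, q i ∈ P := fun i => qo_mem P i
  have hinj : Function.Injective q := qo_inj P
  set hs' : Fin T.card → ℕ := fun a => T.equivFin.symm a with hhs
  have hsT : ∀ a, hs' a ∈ T := fun a => (T.equivFin.symm a).2
  have hsinj : Function.Injective hs' := Subtype.val_injective.comp T.equivFin.symm.injective
  obtain ⟨f, hf1, hf2, hf3, hf4⟩ := h3 P.card T.card hs' q (fun i => ν (q i)) n Q Q.factorial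
    (fun j => if (∃ a, c (j + 1) a ≠ 0) then Nat.lcm (j + 1) R else R) (fun j x => c (j + 1) (x % (j + 1)) * (if x % R = r then 1 else 0))
    hinj (fun i => ⟨(hP _ (hqP i)).1, (hT _ (hqP i)).2⟩)
    (by
      intro i x a a' ha ha'
      apply hsinj
      rcases le_total (hs' a) (hs' a') with hle | hle
      · have h3 := Nat.dvd_sub ha' ha
        have h4 : x + hs' a' - (x + hs' a) = hs' a' - hs' a := by omega
        rw [h4] at h3
        have h5 := hT2 _ (hqP i) _ (hsT a) _ (hsT a')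
        have h6 := Nat.eq_zero_of_dvd_of_lt h3 (by omega)
        omega
      · have h3 := Nat.dvd_sub ha ha'
        have h4 : x + hs' a - (x + hs' a') = hs' a - hs' a' := by omega
        rw [h4] at h3
        have h5 := hT2 _ (hqP i) _ (hsT a') _ (hsT a)
        have h6 := Nat.eq_zero_of_dvd_of_lt h3 (by omega)
        omega)
    (Nat.factorial_pos _) (fun i => Nat.dvd_factorial (hP _ (hqP i)).1.pos (hP _ (hqP i)).2.1)
    (by
      intro j hj
      have hj' := mem_range.mp hj
      by_cases hc0 : ∃ a, c (j + 1) a ≠ 0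
      · simp only [if_pos hc0]
        refine ⟨?_, Nat.lcm_dvd (Nat.dvd_factorial (by omega) (by omega)) hR⟩
        intro x
        have e1 : (x + Nat.lcm (j + 1) R) % (j + 1) = x % (j + 1) := by
          obtain ⟨k, hk⟩ := Nat.dvd_lcm_left (j + 1) R
          rw [hk, Nat.add_mul_mod_self_left]
        have e2 : (x + Nat.lcm (j + 1) R) % R = x % R := by
          obtain ⟨k, hk⟩ := Nat.dvd_lcm_right (j + 1) R
          rw [hk, Nat.add_mul_mod_self_left]
        simp only [e1, e2]
      · simp only [if_neg hc0]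
        refine ⟨?_, hR⟩
        intro x
        push Not at hc0
        simp only [hc0, zero_mul])
    (by
      intro j hj
      have hj' := mem_range.mp hj
      by_cases hc0 : ∃ a, c (j + 1) a ≠ 0
      · simp only [if_pos hc0]
        refine le_trans ?_ (hlev (j + 1) (by omega) (by omega) hc0)
        rw [Finset.sum_filter]
        have e0 := qo_sum P (fun p => if p ∣ Nat.lcm (j + 1) R then (ν p : ℝ) else 0)
        have e1 : ∑ i, (if q i ∣ Nat.lcm (j + 1) R then ν (q i) else 0) =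
            ∑ p ∈ P, (if p ∣ Nat.lcm (j + 1) R then ν p else 0) := by
          exact_mod_cast e0
        rw [e1, ← Finset.sum_filter]
        refine Finset.sum_le_sum_of_subset ?_
        intro p hp
        rw [mem_filter] at hp ⊢
        refine ⟨hp.1, ?_⟩
        rcases ((hP p hp.1).1.dvd_lcm).mp hp.2 with h | h
        · exact h
        · exact absurd h (hP p hp.1).2.2
      · simp only [if_neg hc0]
        refine le_trans (le_of_eq ?_) (Nat.zero_le _)
        apply Finset.sum_eq_zero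
        intro i hi
        exact absurd (mem_filter.1 hi).2 (hP _ (hqP i)).2.2)
  have hFs : ∀ x : ℕ, ∑ j ∈ range Q, c (j + 1) (x % (j + 1)) * (if x % R = r then (1 : ℝ) else 0)
      = wt Q c x * (if x % R = r then 1 else 0) := by
    intro x
    rw [← sum_mul, HIT_wt]
  have hwr : ∀ x : ℕ, 0 ≤ wt Q c x * (if x % R = r then (1 : ℝ) else 0) := by
    intro x
    refine mul_nonneg (hw x) ?_
    split_ifs <;> norm_num
  have hf0 : ∀ γ, 0 ≤ f γ := fun γ => hf2 γ 0 fun x _ => by
    rw [hFs]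
    exact hwr x
  have e5 : MM (fun i => (q i : ℝ)) f P.card =
      (∑ γ, muP (fun i => (q i : ℝ)) γ * f γ * ((alive γ P.card).card : ℝ)) / V P := by
    unfold MM
    rw [hq, qo_PiN, sum_div]
    apply sum_congr rfl
    intro γ _
    ring
  have e2 : ∀ x : ℕ, (univ.filter (fun a : Fin T.card => ∀ i, ¬ q i ∣ x + hs' a)).card = (left P T x).card := by
    intro x
    refine Finset.card_bij (fun a _ => hs' a) ?_ ?_ ?_
    · intro a ha
      rw [mem_filter] at ha
      refine mem_filter.2 ⟨hsT a, ?_⟩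
      intro p hp
      obtain ⟨i, hi⟩ := qo_surj P hp
      have h5 := ha.2 i
      rw [hq, hi] at h5
      exact h5
    · intro a _ b _ h
      exact hsinj h
    · intro b hb
      rw [left, mem_filter] at hb
      refine ⟨T.equivFin ⟨b, hb.1⟩, ?_, by simp [hhs]⟩
      rw [mem_filter]
      refine ⟨mem_univ _, fun i => ?_⟩
      have h5 := hb.2 (q i) (hqP i)
      simpa [hhs] using h5
  have e3 : (∑ x ∈ range Q.factorial, (∑ j ∈ range Q, c (j + 1) (x % (j + 1)) * (if x % R = r then (1 : ℝ) else 0)) *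
      ((univ.filter (fun a : Fin T.card => ∀ i, ¬ q i ∣ x + hs' a)).card : ℝ)) / (Q.factorial : ℝ) =
      mQ Q (fun x => wt Q c x * (if x % R = r then 1 else 0) * ((left P T x).card : ℝ)) := by
    unfold mQ
    congr 1
    refine sum_congr rfl fun x _ => ?_
    rw [hFs, e2]
  have e4 : (∑ x ∈ range Q.factorial, ∑ j ∈ range Q, c (j + 1) (x % (j + 1)) * (if x % R = r then (1 : ℝ) else 0)) /
      (Q.factorial : ℝ) = mQ Q (fun x => wt Q c x * (if x % R = r then 1 else 0)) := by
    unfold mQ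
    congr 1
    exact sum_congr rfl fun x _ => hFs x
  refine ⟨f, hf0, hf1, ?_, ?_⟩
  · show MM (fun i => (q i : ℝ)) f P.card = _
    rw [e5, hf4, e3]
  · rw [hf3, e4]


/-- the classes modulo `R` -/
theorem cls (Q R : ℕ) (P : Finset ℕ) (S : ℕ → Finset ℕ) (c : ℕ → ℕ → ℝ) (hR0 : 0 < R) (hS : ∀ n, S (n + R) = S n) :
    mQ Q (fun x => wt Q c x * ((left P (S x) x).card : ℝ)) = ∑ r ∈ range R, mQ Q (fun x => wt Q c x *
      (if x % R = r then 1 else 0) * ((left P (S r) x).card : ℝ)) ∧
    mQ Q (fun x => wt Q c x * ((S x).card : ℝ)) = ∑ r ∈ range R, ((S r).card : ℝ)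
      * mQ Q (fun x => wt Q c x * (if x % R = r then 1 else 0)) ∧
    mQ Q (wt Q c) = ∑ r ∈ range R, mQ Q (fun x => wt Q c x * (if x % R = r then 1 else 0)) := by
  classical
  have hSr : ∀ x, S x = S (x % R) := by
    intro x
    have h3 : ∀ k x0, S (x0 + k * R) = S x0 := by
      intro k
      induction k with
      | zero => intro x0; simp
      | succ k ih =>
        intro x0
        rw [Nat.succ_mul, ← Nat.add_assoc, hS, ih]
    conv_lhs => rw [← Nat.mod_add_div x R, Nat.mul_comm R (x / R)]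
    exact h3 _ _
  have hone : ∀ x : ℕ, ∑ r ∈ range R, (if x % R = r then (1 : ℝ) else 0) = 1 := by
    intro x
    rw [sum_ite_eq, if_pos (mem_range.mpr (Nat.mod_lt x hR0))]
  refine ⟨?_, ?_, ?_⟩
  · rw [← HIT_mQ_sum]
    congr 1
    funext x
    have e2 : ∀ r ∈ range R, wt Q c x * (if x % R = r then (1 : ℝ) else 0) * ((left P (S r) x).card : ℝ)
        = (wt Q c x * ((left P (S x) x).card : ℝ)) * (if x % R = r then (1 : ℝ) else 0) := by
      intro r _
      by_cases h : x % R = r
      · rw [if_pos h, hSr x, h]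
        ring
      · rw [if_neg h]
        ring
    rw [sum_congr rfl e2, ← mul_sum, hone, mul_one]
  · simp only [← HIT_mQ_mul]
    rw [← HIT_mQ_sum]
    congr 1
    funext x
    have e2 : ∀ r ∈ range R, ((S r).card : ℝ) * (wt Q c x * (if x % R = r then (1 : ℝ) else 0))
        = (wt Q c x * (S x).card) * (if x % R = r then (1 : ℝ) else 0) := by
      intro r _
      by_cases h : x % R = r
      · rw [if_pos h, hSr x, h]
        ring
      · rw [if_neg h]
        ring
    rw [sum_congr rfl e2, ← mul_sum, hone, mul_one]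
  · rw [← HIT_mQ_sum]
    congr 1
    funext x
    rw [← mul_sum, hone, mul_one]

/-- the hyperbolic functions near zero -/
lemma hyp {x s : ℝ} (h0 : 0 ≤ x) (h1 : x ≤ s) (hs : s ≤ 1) :
    x ≤ Real.sinh x ∧ Real.sinh x ≤ (1 + s) * x ∧ Real.cosh x ≤ 1 + s := by
  have hx1 : |x| ≤ 1 := by
    rw [abs_of_nonneg h0]
    linarith
  have hx2 : |-x| ≤ 1 := by rwa [abs_neg]
  have e1 := abs_le.1 (Real.abs_exp_sub_one_sub_id_le hx1)
  have e2 := abs_le.1 (Real.abs_exp_sub_one_sub_id_le hx2)
  have e3 : x * x ≤ s * x := mul_le_mul_of_nonneg_right h1 h0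
  have e4 : x * x ≤ s := by nlinarith
  refine ⟨Real.self_le_sinh_iff.2 h0, ?_, ?_⟩
  · rw [Real.sinh_eq]
    nlinarith [e1.2, e2.1]
  · rw [Real.cosh_eq]
    nlinarith [e1.2, e2.2]

/-- the exponents -/
theorem expo (P : Finset ℕ) (Sup : ℕ → Prop) (δ l E : ℝ) (hP : ∀ p ∈ P, p.Prime ∧ Real.log p ≤ E * l) (hl : 0 < l)
    (hE : 1 ≤ E) (hδ : 0 < δ) (hδ1 : δ ≤ 1)
    (hS : ∀ d, Sup d → ∑ p ∈ P.filter (fun p => p ∣ d), Real.log p ≤ l) :
    ∃ (n : ℕ) (ν : ℕ → ℕ), 0 < n ∧
    (∀ d, Sup d → ∑ p ∈ P.filter (fun p => p ∣ d), ν p ≤ n) ∧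
    (∀ p ∈ P, (1 - δ) * (δ / E * (Real.log p / l)) ≤ Real.sinh (ν p * (δ / E / n)) ∧
      Real.sinh (ν p * (δ / E / n)) ≤ (1 + δ) * (δ / E * (Real.log p / l)) ∧
      Real.cosh (ν p * (δ / E / n)) ≤ 1 + δ) := by
  classical
  have hlog2 : 0 < Real.log 2 := Real.log_pos (by norm_num)
  have hE0 : 0 < E := by linarith
  obtain ⟨n, hn⟩ : ∃ n : ℕ, l / (δ * Real.log 2) + 1 ≤ n := exists_nat_ge _
  have hnpos : (0 : ℝ) < n := by
    have : 0 < l / (δ * Real.log 2) := by positivity
    linarith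
  have hnQ : l ≤ n * (δ * Real.log 2) := by
    have h4 : l / (δ * Real.log 2) ≤ n := by linarith
    rwa [div_le_iff₀ (by positivity)] at h4
  refine ⟨n, fun p => ⌊(n : ℝ) * Real.log p / l⌋₊, by exact_mod_cast hnpos, ?_, ?_⟩
  · intro d hd
    have h5 := hS d hd
    have h6 : ((∑ p ∈ P.filter (fun p => p ∣ d), ⌊(n : ℝ) * Real.log p / l⌋₊ : ℕ) : ℝ) ≤ n := by
      push_cast
      calc ∑ p ∈ P.filter (fun p => p ∣ d), ((⌊(n : ℝ) * Real.log p / l⌋₊ : ℕ) : ℝ)
          ≤ ∑ p ∈ P.filter (fun p => p ∣ d), (n : ℝ) * Real.log p / l := by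
            refine sum_le_sum fun p _ => ?_
            refine Nat.floor_le ?_
            have := Real.log_natCast_nonneg p
            positivity
        _ = n * (∑ p ∈ P.filter (fun p => p ∣ d), Real.log p) / l := by
            rw [← sum_div, ← mul_sum]
        _ ≤ n * l / l := by
            refine div_le_div_of_nonneg_right ?_ hl.le
            exact mul_le_mul_of_nonneg_left h5 hnpos.le
        _ = n := by field_simp
    exact_mod_cast h6
  · intro p hp
    have hp2 : (2 : ℝ) ≤ p := by exact_mod_cast (hP p hp).1.two_le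
    have hpE := (hP p hp).2
    set a : ℝ := (n : ℝ) * Real.log p / l with ha
    have ha1 : 1 ≤ δ * a := by
      rw [ha, ← mul_div_assoc, le_div_iff₀ hl, one_mul]
      have : n * (δ * Real.log 2) ≤ n * (δ * Real.log p) := by
        apply mul_le_mul_of_nonneg_left _ hnpos.le
        exact mul_le_mul_of_nonneg_left (Real.log_le_log (by norm_num) hp2) hδ.le
      linarith
    have ha0 : 0 ≤ a := by
      have := Real.log_natCast_nonneg p
      positivity
    have hb1 : (⌊a⌋₊ : ℝ) ≤ a := Nat.floor_le ha0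
    have hb2 : a < ⌊a⌋₊ + 1 := Nat.lt_floor_add_one _
    have ha2 : a * (δ / E / n) = δ / E * (Real.log p / l) := by
      rw [ha]
      field_simp
    have ha3 : δ / E * (Real.log p / l) ≤ δ := by
      have h1 : Real.log p / l ≤ E := by
        rw [div_le_iff₀ hl]
        exact hpE
      calc δ / E * (Real.log p / l) ≤ δ / E * E := mul_le_mul_of_nonneg_left h1 (by positivity)
        _ = δ := by field_simp
    have hdn : 0 < δ / E / n := by positivity
    have hx0 : 0 ≤ (⌊a⌋₊ : ℝ) * (δ / E / n) := by positivity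
    have hx1 : (⌊a⌋₊ : ℝ) * (δ / E / n) ≤ δ / E * (Real.log p / l) := by
      rw [← ha2]
      exact mul_le_mul_of_nonneg_right hb1 hdn.le
    have hx2 : (1 - δ) * (δ / E * (Real.log p / l)) ≤ (⌊a⌋₊ : ℝ) * (δ / E / n) := by
      rw [← ha2, ← mul_assoc]
      apply mul_le_mul_of_nonneg_right _ hdn.le
      linarith
    obtain ⟨g1, g2, g3⟩ := hyp hx0 (hx1.trans ha3) hδ1
    refine ⟨hx2.trans g1, g2.trans ?_, g3⟩
    exact mul_le_mul_of_nonneg_left hx1 (by linarith)

end Pool.Agent.H301.SZ
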