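import Pool.Agent.H301.SZ.Int

/-! The two bounds for a weight. -/

set_option autoImplicit false

open Finset

namespace Pool.Agent.H301.SZ

open Pool.Agent.N422.NW Pool.Agent.N422.LR Pool.Agent.N422.LG Pool.Agent.N422.SL Pool.Agent.H301.SX
open Pool.Agent.Y829 (V)

lemma V_pos' {P : Finset ℕ} (hP : ∀ p ∈ P, p.Prime) : 0 < V P := by
  unfold V
  apply prod_pos
  intro p hp
  have : (2 : ℝ) ≤ p := by exact_mod_cast (hP p hp).two_le
  have : 1 / (p : ℝ) ≤ 1 / 2 := one_div_le_one_div_of_le (by norm_num) this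
  linarith

/-- the upper bound for a weight -/
theorem intUp (h3 : S_ARDG) (Q U R : ℕ) (P : Finset ℕ) (S : ℕ → Finset ℕ)
    (c : ℕ → ℕ → ℝ) (A δ cc G b c1 r0 l E : ℝ) (hl : 0 < l) (hE : 1 ≤ E) (hR0 : 0 < R) (hR : R ∣ Q.factorial)
    (hP : ∀ p ∈ P, p.Prime ∧ 2 * U < p ∧ p ≤ Q ∧ ¬ p ∣ R) (hS : ∀ n, S (n + R) = S n) (hSU : ∀ n, S n ⊆ Icc 1 U)
    (hPE : ∀ p ∈ P, Real.log p ≤ E * l)
    (hSup : ∀ d, 1 ≤ d → d ≤ Q → (∃ a, c d a ≠ 0) → ∑ p ∈ P.filter (fun p => p ∣ d), Real.log p ≤ l)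
    (hw : ∀ n, 0 ≤ wt Q c n) (hA : 0 < A) (hδ : 0 < δ) (hδ1 : δ ≤ 1 / 2)
    (hc : 0 < cc) (hb : 0 < b) (hc1 : 0 ≤ c1) (hcb : c1 * (1 + δ) ≤ b) (hr0 : r0 < 1)
    (hlog : ∀ r : ℝ, 0 ≤ r → r ≤ r0 → -Real.log (1 - r) ≤ r + c1 * r ^ 2) (hbc : (2 + δ) / (b * cc) ≤ r0)
    (hG : ∑ p ∈ P, 1 / ((p : ℝ) - 1) ≤ G)
    (hs : ∀ p ∈ P, A ≤ V (P.filter (fun q => q ≤ p)) * (Real.log p / l)) :
    mQ Q (fun n => wt Q c n * ((left P (S n) n).card : ℝ)) / V P ≤
      (cc + G) / cc * (1 + 1 / cc) * mQ Q (fun n => wt Q c n * ((S n).card : ℝ)) +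
      b * (cc + G) * ((1 + δ) / A) * mQ Q (wt Q c) := by
  classical
  obtain ⟨n, ν, hn, hlev', hh⟩ := expo P (fun d => 1 ≤ d ∧ d ≤ Q ∧ ∃ a, c d a ≠ 0) (δ / 5) l E
    (fun p hp => ⟨(hP p hp).1, hPE p hp⟩) hl hE (by positivity) (by linarith) (fun d hd => hSup d hd.1 hd.2.1 hd.2.2)
  have hlev : ∀ d, 1 ≤ d → d ≤ Q → (∃ a, c d a ≠ 0) → ∑ p ∈ P.filter (fun p => p ∣ d), ν p ≤ n :=
    fun d h1 h2 h3 => hlev' d ⟨h1, h2, h3⟩
  have hE0 : 0 < E := by linarith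
  have hnr : (0 : ℝ) < n := by exact_mod_cast hn
  obtain ⟨g1, g2, g3⟩ := cls Q R P S c hR0 hS
  have hG0 : 0 ≤ G := by
    refine le_trans (sum_nonneg fun p hp => ?_) hG
    have : (2 : ℝ) ≤ p := by exact_mod_cast (hP p hp).1.two_le
    have : 0 < (p : ℝ) - 1 := by linarith
    positivity
  have hScard : ∀ r, (S r).card ≤ U := fun r => by
    have h4 := card_le_card (hSU r)
    rw [Nat.card_Icc, Nat.add_sub_cancel] at h4
    exact h4
  set w : ℝ := A * ((1 - δ / 5) * (δ / 5 / E)) with hw'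
  have h1d : 0 < 1 - δ / 5 := by linarith
  have hw0 : 0 < w := by positivity
  have hnw : (n : ℝ) * (δ / 5 / E / n) / w ≤ (1 + δ) / A := by
    have e1 : (n : ℝ) * (δ / 5 / E / n) / w = 1 / (1 - δ / 5) / A := by
      rw [hw']
      field_simp
    rw [e1]
    apply div_le_div_of_nonneg_right _ hA.le
    rw [div_le_iff₀ h1d]
    nlinarith
  rw [g1, g2, g3, sum_div, mul_sum, mul_sum, ← sum_add_distrib]
  apply sum_le_sum
  intro r _
  have hT : ∀ p ∈ P, 2 * (S r).card ≤ p ∧ (S r).card < p := fun p hp => by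
    have a1 := (hP p hp).2.1
    have a2 := hScard r
    constructor <;> omega
  obtain ⟨f, hf0, hf1, hf2, hf3⟩ := red_one h3 Q R r n P (S r) ν c hR (fun p hp => ⟨(hP p hp).1, (hP p hp).2.2⟩) hT
    (fun p hp h hh h' hh' => by
        have a1 := (hP p hp).2.1
        have a2 := mem_Icc.1 (hSU r hh')
        omega) hlev hw
  have key := seqUp P.card (S r).card n (qo P) (fun i => ν (qo P i)) f
    (fun i => ⟨(hT _ (qo_mem P i)).1, (hP _ (qo_mem P i)).1.two_le⟩) hf0 hf1 (δ / 5 / E / n) w δ cc G b c1 r0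
    (by positivity) hw0 hδ.le hc hb hc1 hcb hr0 hlog hbc
    (by rw [qo_sum P (fun p => 1 / ((p : ℝ) - 1))]; exact hG)
    (fun i => by
      have hp := qo_mem P i
      obtain ⟨k1, k2, k3⟩ := hh _ hp
      rw [qo_Pi1]
      have k4 := hs _ hp
      have hV0 : 0 < V (P.filter (fun q => q ≤ qo P i)) :=
        V_pos' (fun p hp => (hP p (mem_filter.1 hp).1).1)
      calc w = ((1 - δ / 5) * (δ / 5 / E)) * A := by rw [hw']; ring
        _ ≤ ((1 - δ / 5) * (δ / 5 / E)) * (V (P.filter (fun q => q ≤ qo P i)) * (Real.log (qo P i) / l)) :=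
            mul_le_mul_of_nonneg_left k4 (by positivity)
        _ = V (P.filter (fun q => q ≤ qo P i)) * ((1 - δ / 5) * (δ / 5 / E * (Real.log (qo P i) / l))) := by ring
        _ ≤ _ := mul_le_mul_of_nonneg_left k1 hV0.le)
    (fun i => by
      have := (hh _ (qo_mem P i)).2.2
      linarith)
  rw [hf2, hf3] at key
  set Em := mQ Q (fun x => wt Q c x * (if x % R = r then (1 : ℝ) else 0)) with hEm
  have hEm0 : 0 ≤ Em := REC_mQ_nonneg (fun x => mul_nonneg (hw x) (by split_ifs <;> norm_num))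
  refine key.trans ?_
  have e2 : b * (cc + G) * ((n : ℝ) * (δ / 5 / E / n) / w) * Em ≤ b * (cc + G) * ((1 + δ) / A) * Em := by
    apply mul_le_mul_of_nonneg_right _ hEm0
    exact mul_le_mul_of_nonneg_left hnw (by positivity)
  linarith

/-- the lower bound for a weight -/
theorem intLo (h3 : S_ARDG) (Q U R : ℕ) (P : Finset ℕ) (S : ℕ → Finset ℕ)
    (c : ℕ → ℕ → ℝ) (A δ cc G b κ r0 l E : ℝ) (hl : 0 < l) (hE : 1 ≤ E) (hR0 : 0 < R) (hR : R ∣ Q.factorial)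
    (hP : ∀ p ∈ P, p.Prime ∧ 2 * U < p ∧ p ≤ Q ∧ ¬ p ∣ R) (hS : ∀ n, S (n + R) = S n) (hSU : ∀ n, S n ⊆ Icc 1 U)
    (hPE : ∀ p ∈ P, Real.log p ≤ E * l)
    (hSup : ∀ d, 1 ≤ d → d ≤ Q → (∃ a, c d a ≠ 0) → ∑ p ∈ P.filter (fun p => p ∣ d), Real.log p ≤ l)
    (hw : ∀ n, 0 ≤ wt Q c n) (hA : 0 < A) (hδ : 0 < δ) (hδ1 : δ ≤ 1 / 2)
    (hG0 : 0 ≤ G) (hc : G < cc) (hb : 0 < b) (hr00 : r0 ≤ 1 / 4)
    (hκ : ∀ p ∈ P, (U : ℝ) / p ≤ κ) (hκ0 : 0 ≤ κ) (hκ2 : κ ≤ 1 / 2)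
    (hbb : ((1 + 2 * r0) * (1 + 2 * κ) + 8 * κ) * (1 + δ) - 1 / 2 / (1 + δ) + δ ≤ b * (1 - δ))
    (hκb : 2 * κ ≤ δ / (b * cc))
    (hbc : (2 + δ) / (b * (cc - G)) ≤ r0)
    (hG : ∑ p ∈ P, 1 / ((p : ℝ) - 1) ≤ G) (hg : ∀ p ∈ P, 1 / ((p : ℝ) - 1) ≤ δ * (cc - G))
    (hs : ∀ p ∈ P, A ≤ V (P.filter (fun q => q ≤ p)) * (Real.log p / l))
    (hs2 : ∀ p ∈ P, V (P.filter (fun q => q ≤ p)) * (Real.log p / l) ≤ (1 + δ / 5) * A) :
    (cc - G) / cc * mQ Q (fun n => wt Q c n * ((S n).card : ℝ)) - b * (cc - G) * ((1 + δ) / A) * mQ Q (wt Q c) ≤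
      (1 + r0) * (mQ Q (fun n => wt Q c n * ((left P (S n) n).card : ℝ)) / V P) := by
  classical
  obtain ⟨n, ν, hn, hlev', hh⟩ := expo P (fun d => 1 ≤ d ∧ d ≤ Q ∧ ∃ a, c d a ≠ 0) (δ / 5) l E
    (fun p hp => ⟨(hP p hp).1, hPE p hp⟩) hl hE (by positivity) (by linarith) (fun d hd => hSup d hd.1 hd.2.1 hd.2.2)
  have hlev : ∀ d, 1 ≤ d → d ≤ Q → (∃ a, c d a ≠ 0) → ∑ p ∈ P.filter (fun p => p ∣ d), ν p ≤ n :=
    fun d h1 h2 h3 => hlev' d ⟨h1, h2, h3⟩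
  have hE0 : 0 < E := by linarith
  have hnr : (0 : ℝ) < n := by exact_mod_cast hn
  obtain ⟨g1, g2, g3⟩ := cls Q R P S c hR0 hS
  have hcG : 0 < cc - G := by linarith
  have hScard : ∀ r, (S r).card ≤ U := fun r => by
    have h4 := card_le_card (hSU r)
    rw [Nat.card_Icc, Nat.add_sub_cancel] at h4
    exact h4
  set w : ℝ := A * ((1 - δ / 5) * (δ / 5 / E)) with hw'
  have h1d : 0 < 1 - δ / 5 := by linarith
  have hw0 : 0 < w := by positivity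
  have hnw : (n : ℝ) * (δ / 5 / E / n) / w ≤ (1 + δ) / A := by
    have e1 : (n : ℝ) * (δ / 5 / E / n) / w = 1 / (1 - δ / 5) / A := by
      rw [hw']
      field_simp
    rw [e1]
    apply div_le_div_of_nonneg_right _ hA.le
    rw [div_le_iff₀ h1d]
    nlinarith
  rw [g1, g2, g3, sum_div, mul_sum, mul_sum, mul_sum, ← sum_sub_distrib]
  apply sum_le_sum
  intro r _
  have hT : ∀ p ∈ P, 2 * (S r).card ≤ p ∧ (S r).card < p := fun p hp => by
    have a1 := (hP p hp).2.1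
    have a2 := hScard r
    constructor <;> omega
  obtain ⟨f, hf0, hf1, hf2, hf3⟩ := red_one h3 Q R r n P (S r) ν c hR (fun p hp => ⟨(hP p hp).1, (hP p hp).2.2⟩) hT
    (fun p hp h hh h' hh' => by
        have a1 := (hP p hp).2.1
        have a2 := mem_Icc.1 (hSU r hh')
        omega) hlev hw
  have key := seqLo P.card (S r).card n (qo P) (fun i => ν (qo P i)) f
    (fun i => ⟨(hT _ (qo_mem P i)).1, (hP _ (qo_mem P i)).1.two_le⟩) hf0 hf1 (δ / 5 / E / n) w δ cc G b κ r0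
    (by positivity) hw0 hδ.le hG0 hc hb hr00
    (fun i => by
      refine le_trans ?_ (hκ _ (qo_mem P i))
      apply div_le_div_of_nonneg_right _ (Nat.cast_nonneg _)
      exact_mod_cast hScard r) hκ0 hκ2 hbb hκb hbc
    (by rw [qo_sum P (fun p => 1 / ((p : ℝ) - 1))]; exact hG) (fun i => hg _ (qo_mem P i))
    (fun i => by
      have hp := qo_mem P i
      obtain ⟨k1, k2, k3⟩ := hh _ hp
      rw [qo_Pi1]
      have k4 := hs _ hp
      have hV0 : 0 < V (P.filter (fun q => q ≤ qo P i)) :=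
        V_pos' (fun p hp => (hP p (mem_filter.1 hp).1).1)
      calc w = ((1 - δ / 5) * (δ / 5 / E)) * A := by rw [hw']; ring
        _ ≤ ((1 - δ / 5) * (δ / 5 / E)) * (V (P.filter (fun q => q ≤ qo P i)) * (Real.log (qo P i) / l)) :=
            mul_le_mul_of_nonneg_left k4 (by positivity)
        _ = V (P.filter (fun q => q ≤ qo P i)) * ((1 - δ / 5) * (δ / 5 / E * (Real.log (qo P i) / l))) := by ring
        _ ≤ _ := mul_le_mul_of_nonneg_left k1 hV0.le)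
    (fun i => by
      have hp := qo_mem P i
      obtain ⟨k1, k2, k3⟩ := hh _ hp
      rw [qo_Pi1]
      have k4 := hs2 _ hp
      have hV0 : 0 < V (P.filter (fun q => q ≤ qo P i)) :=
        V_pos' (fun p hp => (hP p (mem_filter.1 hp).1).1)
      calc V (P.filter (fun q => q ≤ qo P i)) * Real.sinh (ν (qo P i) * (δ / 5 / E / n)) ≤
            V (P.filter (fun q => q ≤ qo P i)) * ((1 + δ / 5) * (δ / 5 / E * (Real.log (qo P i) / l))) :=
            mul_le_mul_of_nonneg_left k2 hV0.le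
        _ = ((1 + δ / 5) * (δ / 5 / E)) * (V (P.filter (fun q => q ≤ qo P i)) * (Real.log (qo P i) / l)) := by ring
        _ ≤ ((1 + δ / 5) * (δ / 5 / E)) * ((1 + δ / 5) * A) := mul_le_mul_of_nonneg_left k4 (by positivity)
        _ = ((1 + δ / 5) * (1 + δ / 5)) * (A * (δ / 5 / E)) := by ring
        _ ≤ ((1 + δ) * (1 - δ / 5)) * (A * (δ / 5 / E)) := by
            apply mul_le_mul_of_nonneg_right _ (by positivity)
            nlinarith
        _ = (1 + δ) * w := by rw [hw']; ring)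
    (fun i => by
      have := (hh _ (qo_mem P i)).2.2
      linarith)
  rw [hf2, hf3] at key
  set Em := mQ Q (fun x => wt Q c x * (if x % R = r then (1 : ℝ) else 0)) with hEm
  have hEm0 : 0 ≤ Em := REC_mQ_nonneg (fun x => mul_nonneg (hw x) (by split_ifs <;> norm_num))
  refine le_trans ?_ key
  have e2 : b * (cc - G) * ((n : ℝ) * (δ / 5 / E / n) / w) * Em ≤ b * (cc - G) * ((1 + δ) / A) * Em := by
    apply mul_le_mul_of_nonneg_right _ hEm0
    exact mul_le_mul_of_nonneg_left hnw (by positivity)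
  linarith

end Pool.Agent.H301.SZ
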