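import Pool.Agent.H301.SX.Model2

/-! Short windows of length at least `lam t log t`. -/

set_option autoImplicit false

namespace Pool.Agent.H301.SZ

open Finset Filter Topology Pool.Agent.H301.SX
open Pool.Agent.Y829 (HS Sf mem_HS V V_insert)
open Pool.Agent.N422.SL (wt)
open Pool.Agent.N422.LG

/-- short windows -/
theorem sand3 (lam : ℝ) (hlam : 0 < lam) (C : ℝ) (hC : 1 ≤ C) (η : ℝ) (hη : 0 < η) : ∃ σ : ℝ, 0 < σ ∧ ∀ᶠ t : ℝ in atTop, ∀ U : ℕ,
    lam * (t * Real.log t) ≤ U → ∀ PW : Finset ℕ, (∀ p ∈ PW, p.Prime ∧ (p : ℝ) ≤ t) →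
    ∑ p ∈ (Icc 1 ⌊t / 1000⌋₊).filter (fun p => p.Prime ∧ p ∉ PW), 1 / (p : ℝ) ≤ σ →
    ∑ p ∈ (Icc 1 ⌊t / 1000⌋₊).filter (fun p => p.Prime ∧ p ∉ PW ∧ t ^ (1 / 2 : ℝ) < p), 1 / (p : ℝ) ≤
      σ / Real.log t → ∀ n,
      ((Sv U ⌈C * t⌉₊ n).card : ℝ) ≤ Sf PW n U ∧ Sf PW n U ≤ (Sv U ⌈C * t⌉₊ n).card + η * (U / Real.log t) := by
  classical
  obtain ⟨C2, hC2, hup⟩ := upW (1 / 4) (by norm_num) (by norm_num)
  set σ : ℝ := min (1 / 2) (η / (6 * (C2 + 1))) with hσ
  have hσ0 : 0 < σ := lt_min (by norm_num) (by positivity)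
  have hσ1 : σ ≤ 1 / 2 := min_le_left _ _
  have hσ2 : 2 * (C2 + 1) * σ ≤ η / 3 := by
    have h1 : σ ≤ η / (6 * (C2 + 1)) := min_le_right _ _
    calc 2 * (C2 + 1) * σ ≤ 2 * (C2 + 1) * (η / (6 * (C2 + 1))) := mul_le_mul_of_nonneg_left h1 (by positivity)
      _ = η / 3 := by
        field_simp
        norm_num
  refine ⟨σ, hσ0, ?_⟩
  have hl : Tendsto Real.log atTop atTop := Real.tendsto_log_atTop
  filter_upwards [hup, hl.eventually hup, shortC C hC, eventually_ge_atTop (4 : ℝ),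
    hl.eventually_ge_atTop (max 1 (max (2 * C / lam) ((2 * C / lam) ^ 2))), (hl.comp hl).eventually_ge_atTop (max 1 (24000 * C2 * C / η))]
    with t ht1 ht1' ht2 ht3 ht4 ht5
  intro U hU PW hPW hsum hsum2
  have ht0 : (0 : ℝ) < t := by linarith
  set L := Real.log t with hL
  have hL1 : 1 ≤ L := (le_max_left _ _).trans ht4
  have hLD : 2 * C / lam ≤ L := (le_max_left _ _).trans ((le_max_right _ _).trans ht4)
  have hLD2 : (2 * C / lam) ^ 2 ≤ L := (le_max_right _ _).trans ((le_max_right _ _).trans ht4)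
  have hlamL : 2 * C ≤ lam * L := by
    rw [div_le_iff₀ hlam] at hLD
    linarith
  have hL0 : 0 < L := by linarith
  have ht5' : max 1 (24000 * C2 * C / η) ≤ Real.log L := ht5
  set LL := Real.log L with hLL
  have hLL1 : 1 ≤ LL := (le_max_left _ _).trans ht5'
  have hLLC : 24000 * C2 * C / η ≤ LL := (le_max_right _ _).trans ht5'
  have hLL0 : 0 < LL := by linarith
  set T := ⌊t / 1000⌋₊ with hT
  set y := ⌈C * t⌉₊ with hy
  have hyt : C * t ≤ (y : ℝ) := Nat.le_ceil _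
  have hyt2 : (y : ℝ) < C * t + 1 := Nat.ceil_lt_add_one (by positivity)
  have hCt : t ≤ C * t := ay7 hC ht0
  have hy2C : (y : ℝ) ≤ 2 * C * t := by linarith
  have hPWy : ∀ p ∈ PW, p ≤ y := by
    intro p hp
    have h1 : (p : ℝ) ≤ y := by linarith [(hPW p hp).2]
    exact_mod_cast h1
  have hsq : t ^ (1 / 2 : ℝ) * t ^ (1 / 2 : ℝ) = t := by
    rw [← Real.rpow_add ht0]
    norm_num
  have hsq0 : 0 < t ^ (1 / 2 : ℝ) := Real.rpow_pos_of_pos ht0 _
  have hLt : L ≤ t := (Real.log_le_sub_one_of_pos ht0).trans (by linarith)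
  have hsumL : ∑ p ∈ (Icc 1 ⌊L / 1000⌋₊).filter (fun p => p.Prime ∧ p ∉ PW), 1 / (p : ℝ) ≤ 1 / 2 := by
    refine le_trans (sum_le_sum_of_subset_of_nonneg ?_ (fun p _ _ => by positivity)) (hsum.trans hσ1)
    intro p hp
    rw [mem_filter, mem_Icc] at hp ⊢
    refine ⟨⟨hp.1.1, hp.1.2.trans ?_⟩, hp.2⟩
    exact Nat.floor_le_floor (div_le_div_of_nonneg_right hLt (by norm_num))
  have hUr : (0 : ℝ) ≤ U := Nat.cast_nonneg _
  have hUCt : 2 * C * t ≤ U := by
    have h1 : 2 * C * t ≤ lam * L * t := mul_le_mul_of_nonneg_right hlamL ht0.le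
    linarith
  have hUt : t ≤ U := by linarith
  intro n
  refine ⟨?_, ?_⟩
  · rw [Sv_eq]
    apply Sf_mono
    intro p hp
    rw [mem_filter, mem_Icc]
    exact ⟨⟨(hPW p hp).1.pos, hPWy p hp⟩, (hPW p hp).1⟩
  set My := (Icc 1 y).filter (fun p => p.Prime ∧ p ∉ PW) with hMy
  have h1 : HS PW n U ⊆ Sv U y n ∪ My.biUnion (fun p => (HS PW n U).filter (fun h => p ∣ n + h)) := by
    intro h hh
    by_cases hc : h ∈ Sv U y n
    · exact mem_union_left _ hc
    · apply mem_union_right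
      rw [Sv_eq, mem_HS] at hc
      rw [mem_HS] at hh
      push Not at hc
      obtain ⟨p, hp1, hp2⟩ := hc hh.1
      rw [mem_filter] at hp1
      rw [mem_biUnion]
      refine ⟨p, ?_, ?_⟩
      · rw [hMy, mem_filter]
        exact ⟨hp1.1, hp1.2, fun hc2 => hh.2 p hc2 hp2⟩
      · rw [mem_filter, mem_HS]
        exact ⟨hh, hp2⟩
  have h2 := (card_le_card h1).trans ((card_union_le _ _).trans (Nat.add_le_add_left card_biUnion_le _))
  have h3 : (Sf PW n U) ≤ (Sv U y n).card + ∑ p ∈ My, (((HS PW n U).filter (fun h => p ∣ n + h)).card : ℝ) := by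
    unfold Sf
    exact_mod_cast h2
  set g1 : ℕ → ℝ := fun p => if p ≤ T then 2 * C2 * (U / L) * (1 / (p : ℝ)) else 0 with hg1
  set g2 : ℕ → ℝ := fun p => if p ≤ T ∧ t ^ (1 / 2 : ℝ) < p then 2 * U * (1 / (p : ℝ)) else 0 with hg2
  set g3 : ℕ → ℝ := fun p => if T < p then 2 * C2 * (U / LL) * (1 / (p : ℝ)) else 0 with hg3
  have hg10 : ∀ p, 0 ≤ g1 p := fun p => by
    rw [hg1]
    dsimp only
    split_ifs <;> positivity
  have hg20 : ∀ p, 0 ≤ g2 p := fun p => by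
    rw [hg2]
    dsimp only
    split_ifs <;> positivity
  have hg30 : ∀ p, 0 ≤ g3 p := fun p => by
    rw [hg3]
    dsimp only
    split_ifs <;> positivity
  have h4 : ∀ p ∈ My, (((HS PW n U).filter (fun h => p ∣ n + h)).card : ℝ) ≤ g1 p + g2 p + g3 p := by
    intro p hp
    rw [hMy, mem_filter, mem_Icc] at hp
    have hp0 : 0 < p := hp.1.1
    have hp0r : (0 : ℝ) < p := by exact_mod_cast hp0
    have hpy : (p : ℝ) ≤ 2 * C * t := le_trans (by exact_mod_cast hp.1.2) hy2C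
    have hdiv : ((U / p : ℕ) : ℝ) ≤ U / p := Nat.cast_div_le
    have hdiv2 : (U : ℝ) / p < ((U / p : ℕ) : ℝ) + 1 := by
      rw [div_lt_iff₀ hp0r]
      have := Nat.lt_mul_div_succ U hp0
      have h6 : ((U : ℕ) : ℝ) < ((p * (U / p + 1) : ℕ) : ℝ) := by exact_mod_cast this
      push_cast at h6
      linarith
    have hA := card_dvd PW p U n hp0
    have hpU : (p : ℝ) ≤ U := by
      linarith
    have h1U : (1 : ℝ) ≤ U / p := by
      rw [le_div_iff₀ hp0r]
      linarith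
    have h6 : ((U / p : ℕ) : ℝ) + 1 ≤ 2 * (U / p) := by linarith
    rcases le_or_gt p T with hpT | hpT
    · rcases le_or_gt (p : ℝ) (t ^ (1 / 2 : ℝ)) with hps | hps
      · -- small missing primes
        have b1 : ((U / p + 1 : ℕ) : ℝ) = ((U / p : ℕ) : ℝ) + 1 := by push_cast; ring
        have b2 := ht1 PW (fun p hp => (hPW p hp).1) (hsum.trans hσ1) (U / p + 1) (by
          rw [b1]
          have b3 : t ^ (2 * (1 / 4) : ℝ) = t ^ (1 / 2 : ℝ) := by norm_num
          rw [b3]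
          have b4 : t ^ (1 / 2 : ℝ) ≤ U / p := by
            rw [le_div_iff₀ hp0r]
            calc t ^ (1 / 2 : ℝ) * p ≤ t ^ (1 / 2 : ℝ) * t ^ (1 / 2 : ℝ) := mul_le_mul_of_nonneg_left hps hsq0.le
              _ = t := hsq
              _ ≤ U := hUt
          linarith) (n / p)
        have b5 : g1 p = 2 * C2 * (U / L) * (1 / (p : ℝ)) := by
          rw [hg1]
          exact if_pos hpT
        have b6 : C2 * (((U / p + 1 : ℕ) : ℝ) / L) ≤ g1 p := by
          rw [b1, b5]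
          calc C2 * ((((U / p : ℕ) : ℝ) + 1) / L) ≤ C2 * ((2 * (U / p)) / L) :=
                mul_le_mul_of_nonneg_left (div_le_div_of_nonneg_right h6 hL0.le) hC2.le
            _ = 2 * C2 * (U / L) * (1 / (p : ℝ)) := by ring
        linarith [hg20 p, hg30 p]
      · -- large missing primes
        have b1 : g2 p = 2 * U * (1 / (p : ℝ)) := by
          rw [hg2]
          exact if_pos ⟨hpT, hps⟩
        have b2 := Sf_le PW (n / p) (U / p + 1)
        push_cast at b2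
        have b3 : 2 * U * (1 / (p : ℝ)) = 2 * (U / p) := by ring
        linarith [hg10 p, hg30 p]
    · -- primes above the modulus
      have b1 : ((U / p + 1 : ℕ) : ℝ) = ((U / p : ℕ) : ℝ) + 1 := by push_cast; ring
      have b2 := ht1' PW (fun p hp => (hPW p hp).1) hsumL (U / p + 1) (by
        rw [b1]
        have b3 : L ^ (2 * (1 / 4) : ℝ) = L ^ (1 / 2 : ℝ) := by norm_num
        rw [b3]
        have b4 : lam * L / (2 * C) ≤ U / p := by
          rw [div_le_div_iff₀ (by linarith) hp0r]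
          calc lam * L * p ≤ lam * L * (2 * C * t) := mul_le_mul_of_nonneg_left hpy (by positivity)
            _ = (lam * (t * L)) * (2 * C) := by ring
            _ ≤ U * (2 * C) := mul_le_mul_of_nonneg_right hU (by linarith)
        have b5 : L ^ (1 / 2 : ℝ) * L ^ (1 / 2 : ℝ) = L := by
          rw [← Real.rpow_add hL0]
          norm_num
        have b6 : 2 * C / lam ≤ L ^ (1 / 2 : ℝ) := by
          have b7 : (0 : ℝ) < L ^ (1 / 2 : ℝ) := Real.rpow_pos_of_pos hL0 _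
          by_contra hcon
          push Not at hcon
          have : L < (2 * C / lam) * (2 * C / lam) := by
            calc L = L ^ (1 / 2 : ℝ) * L ^ (1 / 2 : ℝ) := b5.symm
              _ < (2 * C / lam) * (2 * C / lam) := mul_lt_mul'' hcon hcon b7.le b7.le
          have h2 : (2 * C / lam) ^ 2 = (2 * C / lam) * (2 * C / lam) := sq _
          linarith
        have b8 : L ^ (1 / 2 : ℝ) ≤ lam * L / (2 * C) := by
          rw [div_le_iff₀ hlam] at b6
          rw [le_div_iff₀ (by linarith)]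
          calc L ^ (1 / 2 : ℝ) * (2 * C) ≤ L ^ (1 / 2 : ℝ) * (L ^ (1 / 2 : ℝ) * lam) :=
                mul_le_mul_of_nonneg_left b6 (Real.rpow_pos_of_pos hL0 _).le
            _ = lam * (L ^ (1 / 2 : ℝ) * L ^ (1 / 2 : ℝ)) := by ring
            _ = lam * L := by rw [b5]
        linarith) (n / p)
      have b5 : g3 p = 2 * C2 * (U / LL) * (1 / (p : ℝ)) := by
        rw [hg3]
        exact if_pos hpT
      have b6 : C2 * (((U / p + 1 : ℕ) : ℝ) / LL) ≤ g3 p := by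
        rw [b1, b5]
        calc C2 * ((((U / p : ℕ) : ℝ) + 1) / LL) ≤ C2 * ((2 * (U / p)) / LL) :=
              mul_le_mul_of_nonneg_left (div_le_div_of_nonneg_right h6 hLL0.le) hC2.le
          _ = 2 * C2 * (U / LL) * (1 / (p : ℝ)) := by ring
      linarith [hg10 p, hg20 p]
  have h5 := sum_le_sum h4
  rw [sum_add_distrib, sum_add_distrib] at h5
  have s1 : ∑ p ∈ My, g1 p ≤ 2 * C2 * σ * (U / L) := by
    rw [hg1, ← sum_filter, ← mul_sum]
    have b1 : ∑ p ∈ My.filter (fun p => p ≤ T), 1 / (p : ℝ) ≤ σ := by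
      refine le_trans (sum_le_sum_of_subset_of_nonneg ?_ (fun p _ _ => by positivity)) hsum
      intro p hp
      rw [mem_filter, hMy, mem_filter, mem_Icc] at hp
      rw [mem_filter, mem_Icc]
      exact ⟨⟨hp.1.1.1, hp.2⟩, hp.1.2⟩
    calc 2 * C2 * (U / L) * ∑ p ∈ My.filter (fun p => p ≤ T), 1 / (p : ℝ) ≤ 2 * C2 * (U / L) * σ :=
          mul_le_mul_of_nonneg_left b1 (by positivity)
      _ = _ := by ring
  have s2 : ∑ p ∈ My, g2 p ≤ 2 * σ * (U / L) := by
    rw [hg2, ← sum_filter, ← mul_sum]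
    have b1 : ∑ p ∈ My.filter (fun p : ℕ => p ≤ T ∧ t ^ (1 / 2 : ℝ) < (p : ℝ)), 1 / (p : ℝ) ≤ σ / L := by
      refine le_trans (sum_le_sum_of_subset_of_nonneg ?_ (fun p _ _ => by positivity)) hsum2
      intro p hp
      rw [mem_filter, hMy, mem_filter, mem_Icc] at hp
      rw [mem_filter, mem_Icc]
      exact ⟨⟨hp.1.1.1, hp.2.1⟩, hp.1.2.1, hp.1.2.2, hp.2.2⟩
    calc 2 * (U : ℝ) * ∑ p ∈ My.filter (fun p : ℕ => p ≤ T ∧ t ^ (1 / 2 : ℝ) < (p : ℝ)), 1 / (p : ℝ) ≤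
          2 * U * (σ / L) := mul_le_mul_of_nonneg_left b1 (by positivity)
      _ = _ := by ring
  have s3 : ∑ p ∈ My, g3 p ≤ η / 3 * (U / L) := by
    rw [hg3, ← sum_filter, ← mul_sum]
    have b1 : ∑ p ∈ My.filter (fun p => T < p), 1 / (p : ℝ) ≤ 4000 * C / L := by
      refine le_trans (sum_le_sum_of_subset_of_nonneg ?_ (fun p _ _ => by positivity)) ht2
      intro p hp
      rw [mem_filter, hMy, mem_filter] at hp
      rw [mem_filter]
      exact ⟨hp.1.1, hp.1.2.1, hp.2⟩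
    calc 2 * C2 * (U / LL) * ∑ p ∈ My.filter (fun p => T < p), 1 / (p : ℝ) ≤
          2 * C2 * (U / LL) * (4000 * C / L) := mul_le_mul_of_nonneg_left b1 (by positivity)
      _ = (8000 * C2 * C / LL) * (U / L) := by
          field_simp
          ring
      _ ≤ η / 3 * (U / L) := by
          apply mul_le_mul_of_nonneg_right _ (by positivity)
          rw [div_le_iff₀ hLL0]
          rw [div_le_iff₀ hη] at hLLC
          linarith
  have hUL : 0 ≤ (U : ℝ) / L := by positivity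
  have h6 : 2 * C2 * σ * (U / L) + 2 * σ * (U / L) ≤ η / 3 * (U / L) := by
    have := mul_le_mul_of_nonneg_right hσ2 hUL
    linarith
  have h7 : 0 ≤ η * (U / L) := by positivity
  linarith



/-- the mean number of survivors between the modulus and the limit `t^(1+2a)` -/
theorem mid3 (lam : ℝ) (hlam : 0 < lam) : ∃ Cs : ℝ, 0 < Cs ∧ ∀ a : ℝ, 0 < a → a ≤ 1 / 4 → ∀ C : ℝ, 1 ≤ C → ∀ κ : ℝ, 0 < κ → ∃ σ : ℝ, 0 < σ ∧
    ∀ᶠ t : ℝ in atTop, ∀ Q : ℕ, Real.log Q ≤ t → ⌈t ^ (1 + 2 * a)⌉₊ ≤ Q → ∀ U : ℕ,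
    lam * (t * Real.log t) ≤ U → ∀ PW : Finset ℕ, (∀ p ∈ PW, p.Prime ∧ (p : ℝ) ≤ t) →
    ∑ p ∈ (Icc 1 ⌊t / 1000⌋₊).filter (fun p => p.Prime ∧ p ∉ PW), 1 / (p : ℝ) ≤ σ →
    ∑ p ∈ (Icc 1 ⌊t / 1000⌋₊).filter (fun p => p.Prime ∧ p ∉ PW ∧ t ^ (1 / 2 : ℝ) < p), 1 / (p : ℝ) ≤
      σ / Real.log t → ∀ c : ℕ → ℕ → ℝ, (∀ n, 0 ≤ wt Q c n) →
    mQ Q (fun n => wt Q c n * ((Sv U ⌈t ^ (1 + 2 * a)⌉₊ n).card : ℝ)) ≤ mQ Q (fun n => wt Q c n * Sf PW n U) ∧
    mQ Q (fun n => wt Q c n * Sf PW n U) ≤ mQ Q (fun n => wt Q c n * ((Sv U ⌈t ^ (1 + 2 * a)⌉₊ n).card : ℝ)) +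
      (κ + 9 * a * Cs + 640 / C) * (U / Real.log t) * mQ Q (wt Q c) ∧
    mQ Q (fun n => wt Q c n * Sf PW n U) ≤ Cs * (U / Real.log t) * mQ Q (wt Q c) ∧
    ∑ p ∈ (Icc 1 ⌈t ^ (1 + 2 * a)⌉₊).filter (fun p => p.Prime ∧ p ∉ PW), 1 / (p : ℝ) ≤
      ∑ p ∈ (Icc 1 ⌊t / 1000⌋₊).filter (fun p => p.Prime ∧ p ∉ PW), 1 / (p : ℝ) + 8 * a := by
  classical
  obtain ⟨Cs, hCs, hup⟩ := upW (1 / 2) (by norm_num) (by norm_num)
  refine ⟨Cs, hCs, ?_⟩
  intro a ha ha1 C hC κ hκ
  obtain ⟨σ0, hσ0, hs2⟩ := sand3 lam hlam C hC κ hκ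
  set σ : ℝ := min σ0 (1 / 2) with hσ
  have hσp : 0 < σ := lt_min hσ0 (by norm_num)
  have hσ1 : σ ≤ σ0 := min_le_left _ _
  have hσ2 : σ ≤ 1 / 2 := min_le_right _ _
  refine ⟨σ, hσp, ?_⟩
  have hl : Tendsto Real.log atTop atTop := Real.tendsto_log_atTop
  filter_upwards [hup, hs2, short (2 * a) (by positivity) (by linarith), eventually_ge_atTop (16 : ℝ),
    hl.eventually_ge_atTop (max (2 * C) (2 * C / lam)), (tendsto_rpow_atTop (show 0 < 2 * a by positivity)).eventually_ge_atTop (2 * C)]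
    with t ht1 ht2 ht3 ht4 ht5 ht6
  intro Q hQ2 hyQ U hU PW hPW hsum hsum2 c hw
  have ht0 : (0 : ℝ) < t := by linarith
  set L := Real.log t with hL
  have ht5' : 2 * C ≤ L := (le_max_left _ _).trans ht5
  have hLD : 2 * C / lam ≤ L := (le_max_right _ _).trans ht5
  have hlamL : 2 * C ≤ lam * L := by
    rw [div_le_iff₀ hlam] at hLD
    linarith
  have hL2 : 2 ≤ L := by linarith
  have hL0 : 0 < L := by linarith
  set T := ⌊t / 1000⌋₊ with hT
  set y := ⌈t ^ (1 + 2 * a)⌉₊ with hy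
  set y1 := ⌈C * t⌉₊ with hy1
  have hy1t : C * t ≤ (y1 : ℝ) := Nat.le_ceil _
  have hy1t2 : (y1 : ℝ) < C * t + 1 := Nat.ceil_lt_add_one (by positivity)
  have hCt : t ≤ C * t := ay7 hC ht0
  have hyt : t ^ (1 + 2 * a) ≤ (y : ℝ) := Nat.le_ceil _
  have hy1y : y1 ≤ y := by
    apply Nat.ceil_le_ceil
    have e1 : t ^ (1 + 2 * a) = t * t ^ (2 * a) := by rw [Real.rpow_add ht0, Real.rpow_one]
    rw [e1]
    exact ay8 ht6 hC ht0
  have hTt : (T : ℝ) ≤ t / 1000 := Nat.floor_le (by positivity)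
  have hTy1 : T ≤ y1 := by
    have : (T : ℝ) ≤ y1 := by linarith
    exact_mod_cast this
  have hy116 : (16 : ℝ) ≤ y1 := by linarith
  have hy12 : 2 ≤ y1 := by
    have : (2 : ℝ) ≤ y1 := by linarith
    exact_mod_cast this
  have hUr : (0 : ℝ) ≤ U := Nat.cast_nonneg _
  have hUCt : 2 * C * t ≤ U := by
    have h1 : 2 * C * t ≤ lam * L * t := mul_le_mul_of_nonneg_right hlamL ht0.le
    linarith
  have hUt : t ≤ U := by linarith
  have hy1U : (y1 : ℝ) ≤ U := by linarith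
  have hRD : RECD y y1 ≤ 8 * a := by
    have e1 := RECD_add hTy1 hy1y
    have e2 := RECD_nonneg y1 T
    have e3 := ht3.2
    linarith
  have hRD0 := RECD_nonneg y y1
  set m := mQ Q (wt Q c) with hm
  have hm0 : 0 ≤ m := REC_mQ_nonneg hw
  set By := mQ Q (fun n => wt Q c n * ((Sv U y n).card : ℝ)) with hBy
  set B1 := mQ Q (fun n => wt Q c n * ((Sv U y1 n).card : ℝ)) with hB1
  set N := mQ Q (fun n => wt Q c n * Sf PW n U) with hN
  have hUL : 0 ≤ (U : ℝ) / L := by positivity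
  have hB10 : 0 ≤ B1 := REC_mQ_nonneg (fun n => mul_nonneg (hw n) (Nat.cast_nonneg _))
  have hmul : ∀ x : ℝ, mQ Q (fun n => wt Q c n * x) = x * m := by
    intro x
    rw [hm, ← FIN_smul]
    congr 1
    ext n
    ring
  have hpt := ht2 U hU PW hPW (hsum.trans hσ1)
    (hsum2.trans (div_le_div_of_nonneg_right hσ1 hL0.le))
  have hByB1 : By ≤ B1 := by
    apply REC_mQ_mono
    intro n
    apply mul_le_mul_of_nonneg_left _ (hw n)
    rw [Sv_eq, Sv_eq, Nat.cast_le]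
    apply card_le_card
    apply HS_mono
    intro p hp
    rw [mem_filter, mem_Icc] at hp ⊢
    exact ⟨⟨hp.1.1, hp.1.2.trans hy1y⟩, hp.2⟩
  have hB1N : B1 ≤ N := REC_mQ_mono (fun n => mul_le_mul_of_nonneg_left (hpt n).1 (hw n))
  have hNB1 : N ≤ B1 + κ * (U / L) * m := by
    have h1 : N ≤ mQ Q (fun n => wt Q c n * ((Sv U y1 n).card : ℝ) + wt Q c n * (κ * (U / L))) := by
      apply REC_mQ_mono
      intro n
      rw [← mul_add]
      exact mul_le_mul_of_nonneg_left (hpt n).2 (hw n)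
    rw [REC_mQ_add, hmul] at h1
    exact h1
  have hNC : N ≤ Cs * (U / L) * m := by
    have h1 : N ≤ mQ Q (fun n => wt Q c n * (Cs * (U / L))) := by
      apply REC_mQ_mono
      intro n
      refine mul_le_mul_of_nonneg_left ?_ (hw n)
      exact ht1 PW (fun p hp => (hPW p hp).1) (hsum.trans hσ2) U (by
        have : t ^ (2 * (1 / 2) : ℝ) = t := by norm_num
        rw [this]
        exact hUt) n
    rw [hmul] at h1
    exact h1
  refine ⟨hByB1.trans hB1N, ?_, hNC, ?_⟩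
  · have hst := REC_step Pool.Agent.H301.SV.hit_all Q U y1 y1 y (1 / 16) c hy12 le_rfl hy1y hyQ (by norm_num) le_rfl hw
    rw [← hB1, ← hBy, ← hm] at hst
    have hly1 : L ≤ Real.log y1 := Real.log_le_log ht0 (by linarith)
    have hlQ0 : 0 ≤ Real.log Q := Real.log_natCast_nonneg Q
    have e1 : ((U : ℝ) / y1 + 1) * (20 * (Real.log Q / Real.log y1) / (1 / 16)) ≤ 640 / C * (U / L) := by
      have a1 : (1 : ℝ) ≤ U / y1 := by
        rw [le_div_iff₀ (by linarith)]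
        linarith
      have a2 : (U : ℝ) / y1 ≤ U / (C * t) := div_le_div_of_nonneg_left hUr (by positivity) hy1t
      have a3 : (U : ℝ) / y1 + 1 ≤ 2 * (U / (C * t)) := by linarith
      have a4 : Real.log Q / Real.log y1 ≤ t / L := div_le_div₀ ht0.le hQ2 hL0 hly1
      have a5 : 0 ≤ Real.log Q / Real.log y1 := div_nonneg hlQ0 (by linarith)
      calc ((U : ℝ) / y1 + 1) * (20 * (Real.log Q / Real.log y1) / (1 / 16)) =
            ((U : ℝ) / y1 + 1) * (320 * (Real.log Q / Real.log y1)) := by ring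
        _ ≤ (2 * (U / (C * t))) * (320 * (t / L)) := by
            apply mul_le_mul a3 _ (by positivity) (by positivity)
            linarith
        _ = 640 / C * (U / L) := by
            field_simp
            ring
    have e2 := mul_le_mul_of_nonneg_right e1 hm0
    have e3 : (1 - 9 * a) * B1 ≤ (1 - (1 + 2 * (1 / 16)) * RECD y y1) * B1 := by
      apply mul_le_mul_of_nonneg_right _ hB10
      linarith
    have e4 : 9 * a * B1 ≤ 9 * a * (Cs * (U / L) * m) :=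
      mul_le_mul_of_nonneg_left (hB1N.trans hNC) (by positivity)
    have e5 : (κ + 9 * a * Cs + 640 / C) * (U / L) * m = κ * (U / L) * m + 9 * a * (Cs * (U / L) * m) +
        640 / C * (U / L) * m := by ring
    rw [e5]
    linarith
  · have h1 : (Icc 1 y).filter (fun p => p.Prime ∧ p ∉ PW) ⊆ (Icc 1 T).filter (fun p => p.Prime ∧ p ∉ PW) ∪
        (Icc 1 y).filter (fun p : ℕ => p.Prime ∧ T < p) := by
      intro p hp
      rw [mem_filter, mem_Icc] at hp
      rw [mem_union, mem_filter, mem_filter, mem_Icc, mem_Icc]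
      by_cases h : p ≤ T
      · exact Or.inl ⟨⟨hp.1.1, h⟩, hp.2⟩
      · exact Or.inr ⟨hp.1, hp.2.1, not_le.1 h⟩
    have h2 := sum_le_sum_of_subset_of_nonneg h1 (f := fun p : ℕ => 1 / (p : ℝ)) (fun p _ _ => by positivity)
    have h3 := sum_union_inter (s₁ := (Icc 1 T).filter (fun p => p.Prime ∧ p ∉ PW))
      (s₂ := (Icc 1 y).filter (fun p : ℕ => p.Prime ∧ T < p)) (f := fun p : ℕ => 1 / (p : ℝ))
    have h4 : 0 ≤ ∑ p ∈ (Icc 1 T).filter (fun p => p.Prime ∧ p ∉ PW) ∩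
        (Icc 1 y).filter (fun p : ℕ => p.Prime ∧ T < p), 1 / (p : ℝ) := sum_nonneg fun p _ => by positivity
    have h5 := ht3.2
    unfold RECD at h5
    linarith


end Pool.Agent.H301.SZ
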