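import Pool.Agent.H301.SZ.Mid
import Pool.Agent.H301.SZ.BigS

/-! The square root law for the model. -/

set_option autoImplicit false

namespace Pool.Agent.H301.SZ

open Finset Filter Topology Pool.Agent.H301.SX
open Pool.Agent.Y829 (HS Sf mem_HS V V_insert)
open Pool.Agent.N422.SL (wt)
open Pool.Agent.N422.LG

/-- the error between the modulus and the limit -/
theorem mid4 (lam : ℝ) (hlam : 0 < lam) (η : ℝ) (hη : 0 < η) : ∃ a Cs σ : ℝ, 0 < a ∧ a ≤ 1 / 4 ∧ 0 < Cs ∧ 0 < σ ∧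
    ∀ᶠ t : ℝ in atTop, ∀ Q : ℕ,
    t / 1000 ≤ Real.log Q → Real.log Q ≤ t → ⌈t ^ (1 + 2 * a)⌉₊ ≤ Q → ∀ U : ℕ, lam * (t * Real.log t) ≤ U → ∀ PW : Finset ℕ,
    (∀ p ∈ PW, p.Prime ∧ (p : ℝ) ≤ t) →
    ∑ p ∈ (Icc 1 ⌊t / 1000⌋₊).filter (fun p => p.Prime ∧ p ∉ PW), 1 / (p : ℝ) ≤ σ →
    ∑ p ∈ (Icc 1 ⌊t / 1000⌋₊).filter (fun p => p.Prime ∧ p ∉ PW ∧ t ^ (1 / 2 : ℝ) < p), 1 / (p : ℝ) ≤
      σ / Real.log t → ∀ c : ℕ → ℕ → ℝ, (∀ n, 0 ≤ wt Q c n) →
    mQ Q (fun n => wt Q c n * ((Sv U ⌈t ^ (1 + 2 * a)⌉₊ n).card : ℝ)) ≤ Cs * (U / Real.log t) * mQ Q (wt Q c) ∧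
    |VV Q / VV ⌈t ^ (1 + 2 * a)⌉₊ * mQ Q (fun n => wt Q c n * ((Sv U ⌈t ^ (1 + 2 * a)⌉₊ n).card : ℝ)) -
      VV Q / V PW * mQ Q (fun n => wt Q c n * Sf PW n U)| ≤ η * (U * VV Q) * mQ Q (wt Q c) := by
  classical
  obtain ⟨K, hK, hM⟩ := t_MERB2
  obtain ⟨Cs, hCs, hmid⟩ := mid3 lam hlam
  set a : ℝ := min (1 / 4) (η / (408 * K * Cs)) with ha
  have ha0 : 0 < a := lt_min (by norm_num) (by positivity)
  have ha1 : a ≤ 1 / 4 := min_le_left _ _
  have haη : 51 * K * Cs * a ≤ η / 8 := by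
    have h1 : a ≤ η / (408 * K * Cs) := min_le_right _ _
    calc 51 * K * Cs * a ≤ 51 * K * Cs * (η / (408 * K * Cs)) := mul_le_mul_of_nonneg_left h1 (by positivity)
      _ = η / 8 := by
        field_simp
        norm_num
  set C : ℝ := max 1 (15360 * K / η) with hC
  have hC1 : 1 ≤ C := le_max_left _ _
  have hCη : 1920 * K / C ≤ η / 8 := by
    have h1 : 15360 * K / η ≤ C := le_max_right _ _
    rw [div_le_iff₀ hη] at h1
    rw [div_le_iff₀ (by linarith)]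
    linarith
  set κ : ℝ := η / (24 * K) with hκ
  have hκ0 : 0 < κ := by positivity
  have hκη : 3 * K * κ = η / 8 := by
    rw [hκ]
    field_simp
    norm_num
  obtain ⟨σ1, hσ1, hm1⟩ := hmid a ha0 ha1 C hC1 κ hκ0
  set σ : ℝ := min σ1 (η / (24 * K * Cs)) with hσ
  have hσp : 0 < σ := lt_min hσ1 (by positivity)
  have hσa : σ ≤ σ1 := min_le_left _ _
  have hση : 3 * K * Cs * σ ≤ η / 8 := by
    have h1 : σ ≤ η / (24 * K * Cs) := min_le_right _ _
    calc 3 * K * Cs * σ ≤ 3 * K * Cs * (η / (24 * K * Cs)) := mul_le_mul_of_nonneg_left h1 (by positivity)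
      _ = η / 8 := by
        field_simp
        norm_num
  refine ⟨a, Cs, σ, ha0, ha1, hCs, hσp, ?_⟩
  have hl : Tendsto Real.log atTop atTop := Real.tendsto_log_atTop
  filter_upwards [hm1, eventually_ge_atTop (4 : ℝ), hl.eventually_ge_atTop (1 : ℝ)]
    with t ht1 ht4 ht5
  intro Q hQ1 hQ2 hyQ U hU PW hPW hsum hsum2 c hw
  have ht0 : (0 : ℝ) < t := by linarith
  set L := Real.log t with hL
  have hL0 : 0 < L := by linarith
  obtain ⟨hBN, hNB, hNC, hMy⟩ := ht1 Q hQ2 hyQ U hU PW hPW (hsum.trans hσa)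
    (hsum2.trans (div_le_div_of_nonneg_right hσa hL0.le)) c hw
  set y := ⌈t ^ (1 + 2 * a)⌉₊ with hy
  have hyt : t ^ (1 + 2 * a) ≤ (y : ℝ) := Nat.le_ceil _
  have hyt2 : (y : ℝ) < t ^ (1 + 2 * a) + 1 := Nat.ceil_lt_add_one (Real.rpow_nonneg ht0.le _)
  have hpw : t ≤ t ^ (1 + 2 * a) := by
    calc t = t ^ (1 : ℝ) := (Real.rpow_one t).symm
      _ ≤ t ^ (1 + 2 * a) := Real.rpow_le_rpow_of_exponent_le (by linarith) (by linarith)
  have hy0 : (0 : ℝ) < y := by linarith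
  have hy2 : 2 ≤ y := by
    have : (2 : ℝ) ≤ y := by linarith
    exact_mod_cast this
  have hPWsub : PW ⊆ (Icc 1 y).filter Nat.Prime := by
    intro p hp
    rw [mem_filter, mem_Icc]
    have h1 : (p : ℝ) ≤ y := by linarith [(hPW p hp).2]
    exact ⟨⟨(hPW p hp).1.pos, by exact_mod_cast h1⟩, (hPW p hp).1⟩
  set R := ((Icc 1 y).filter Nat.Prime) \ PW with hR
  have hVy : V PW * V R = VV y := by
    rw [VV_eq]
    unfold V
    rw [hR, mul_comm]
    exact prod_sdiff hPWsub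
  have hRp : ∀ p ∈ R, p.Prime := by
    intro q hq
    rw [hR, Finset.mem_sdiff, mem_filter] at hq
    exact hq.1.2
  have hReq : R = (Icc 1 y).filter (fun p => p.Prime ∧ p ∉ PW) := by
    ext p
    rw [hR, Finset.mem_sdiff, mem_filter, mem_filter]
    tauto
  set σ' : ℝ := σ + 8 * a with hσ'
  have hσ'0 : 0 ≤ σ' := by positivity
  have hVR1 := V_le_one R hRp
  have hVR0 := V_pos R hRp
  have hVR2 : 1 - σ' ≤ V R := by
    have h1 := V_ge R hRp
    rw [hReq] at h1 ⊢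
    linarith
  have hVP0 := V_pos PW (fun p hp => (hPW p hp).1)
  have hVQ0 : 0 < VV Q := MERB_pos Q
  have hVy0 : 0 < VV y := MERB_pos y
  set ρ := VV Q / V PW with hρ
  set ρ' := VV Q / VV y with hρ'
  have hρ0 : 0 < ρ := by positivity
  have hρ'0 : 0 < ρ' := by positivity
  have hρρ : ρ = ρ' * V R := by
    rw [hρ, hρ', ← hVy]
    field_simp
  have k1 : 0 ≤ ρ' - ρ := by
    rw [hρρ]
    exact ay11 hρ'0.le hVR1
  have k2 : ρ' - ρ ≤ σ' * ρ' := by
    rw [hρρ]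
    exact ay12 hρ'0.le hVR2
  set By := mQ Q (fun n => wt Q c n * ((Sv U y n).card : ℝ)) with hBy
  set AQ := mQ Q (fun n => wt Q c n * ((Sv U Q n).card : ℝ)) with hAQ
  set N := mQ Q (fun n => wt Q c n * Sf PW n U) with hN
  set m := mQ Q (wt Q c) with hm
  have hm0 : 0 ≤ m := REC_mQ_nonneg hw
  have hU0 : (0 : ℝ) ≤ U := Nat.cast_nonneg _
  have hBy0 : 0 ≤ By := REC_mQ_nonneg (fun n => mul_nonneg (hw n) (Nat.cast_nonneg _))
  have hN0 : 0 ≤ N := hBy0.trans hBN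
  have hly : Real.log y ≤ 3 * L := by
    have h1 : (y : ℝ) ≤ 2 * t ^ (1 + 2 * a) := by linarith
    have h2 : Real.log y ≤ Real.log (2 * t ^ (1 + 2 * a)) := Real.log_le_log hy0 h1
    rw [Real.log_mul (by norm_num) (by positivity), Real.log_rpow ht0] at h2
    have h3 : Real.log 2 ≤ 1 := by
      have := Real.log_two_lt_d9
      linarith
    exact ay4 h2 h3 ht5 (by linarith)
  have hly0 : 0 < Real.log y := Real.log_pos (by linarith)
  set Y := (U : ℝ) * VV Q with hY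
  have hY0 : 0 ≤ Y := by positivity
  have hρUL : ρ' * (U / L) ≤ 3 * K * Y := by
    have h1 := (hM y y hy2 le_rfl).2.2.1
    have h2 : 1 / VV y ≤ 3 * K * L := by
      rw [div_le_iff₀ (by positivity)] at h1
      rw [div_le_iff₀ hVy0]
      have h3 : VV y * (K * Real.log y) ≤ VV y * (K * (3 * L)) := by
        apply mul_le_mul_of_nonneg_left _ hVy0.le
        exact mul_le_mul_of_nonneg_left hly (by linarith)
      linarith
    calc ρ' * (U / L) = VV Q * (U / L) * (1 / VV y) := by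
          rw [hρ']
          ring
      _ ≤ VV Q * (U / L) * (3 * K * L) := mul_le_mul_of_nonneg_left h2 (by positivity)
      _ = 3 * K * Y := by
          rw [hY]
          field_simp
  have hYm : 0 ≤ Y * m := mul_nonneg hY0 hm0
  have hUL : 0 ≤ (U : ℝ) / L := by positivity
  have hρm : ρ' * ((U / L) * m) ≤ 3 * K * (Y * m) := by
    have := mul_le_mul_of_nonneg_right hρUL hm0
    linarith
  -- the errors
  have q2 : ρ' * (N - By) ≤ 3 * K * (κ + 9 * a * Cs + 640 / C) * (Y * m) := by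
    have hκt : 0 ≤ κ + 9 * a * Cs + 640 / C := by positivity
    have b1 : ρ' * (N - By) ≤ ρ' * ((κ + 9 * a * Cs + 640 / C) * (U / L) * m) :=
      mul_le_mul_of_nonneg_left (by linarith) hρ'0.le
    have b2 := mul_le_mul_of_nonneg_left hρm hκt
    linarith
  have q3 : (ρ' - ρ) * N ≤ 3 * K * Cs * σ' * (Y * m) := by
    have b1 : (ρ' - ρ) * N ≤ (σ' * ρ') * (Cs * (U / L) * m) := mul_le_mul k2 hNC hN0 (by positivity)
    have b2 := mul_le_mul_of_nonneg_left hρm (show 0 ≤ σ' * Cs by positivity)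
    linarith
  have q4 : 0 ≤ ρ' * (N - By) := mul_nonneg hρ'0.le (by linarith)
  have q5 : 0 ≤ (ρ' - ρ) * N := mul_nonneg k1 hN0
  have c1 : 3 * K * (κ + 9 * a * Cs + 640 / C) + 3 * K * Cs * σ' ≤ η := by
    have d1 : 3 * K * (κ + 9 * a * Cs + 640 / C) = 3 * K * κ + 27 * K * Cs * a + 1920 * K / C := by ring
    have d2 : 3 * K * Cs * σ' = 3 * K * Cs * σ + 24 * K * Cs * a := by
      rw [hσ']
      ring
    rw [d1, d2]
    linarith
  have c2 := mul_le_mul_of_nonneg_right c1 hYm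
  have hfin : ρ' * (N - By) + (ρ' - ρ) * N ≤ η * Y * m := by
    have d3 : η * Y * m = η * (Y * m) := by ring
    rw [d3]
    linarith
  have e0 : ρ' * (N - By) = ρ' * N - ρ' * By := by ring
  have e1 : (ρ' - ρ) * N = ρ' * N - ρ * N := by ring
  refine ⟨hBN.trans hNC, ?_⟩
  rw [abs_le]
  constructor
  · linarith
  · linarith

/-- differences of square roots -/
lemma sqd {x y e : ℝ} (hx : 0 ≤ x) (hy : 0 ≤ y) (h : |x - y| ≤ e) : |√x - √y| ≤ √e := by
  have h1 := abs_le.1 h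
  have he : 0 ≤ e := (abs_nonneg _).trans h
  rw [abs_le]
  constructor
  · have h2 : √y ≤ √(x + e) := Real.sqrt_le_sqrt (by linarith)
    have h3 := sqrt_add_le' hx he
    linarith
  · have h2 : √x ≤ √(y + e) := Real.sqrt_le_sqrt (by linarith)
    have h3 := sqrt_add_le' hy he
    linarith

lemma Supp.mono {Q y y' : ℕ} {l : ℝ} {c : ℕ → ℕ → ℝ} (h : Supp Q y l c) (hy : y ≤ y') : Supp Q y' l c := by
  intro d h1 h2 h3
  refine le_trans (sum_le_sum_of_subset_of_nonneg ?_ ?_) (h d h1 h2 h3)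
  · intro p hp
    rw [mem_filter] at hp ⊢
    refine ⟨?_, hp.2⟩
    have h4 := hp.1
    unfold PQ at h4 ⊢
    rw [mem_filter] at h4 ⊢
    exact ⟨h4.1, h4.2.1, lt_of_le_of_lt hy h4.2.2⟩
  · intro p _ _
    exact Real.log_natCast_nonneg p

/-- the square root law for the model -/
theorem model3 (lam : ℝ) (hlam : 0 < lam) (η : ℝ) (hη : 0 < η) (E : ℝ) (hE : 1 ≤ E) :
    ∃ σ : ℝ, 0 < σ ∧ ∀ᶠ t : ℝ in atTop, ∀ Q : ℕ,
    t / 1000 ≤ Real.log Q → Real.log Q ≤ t → ∀ l : ℝ, 0 < l → Real.log Q ≤ E * l → l ≤ 2 * Real.log Q → ∀ U : ℕ, lam * (t * Real.log t) ≤ U → ∀ PW : Finset ℕ,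
    (∀ p ∈ PW, p.Prime ∧ (p : ℝ) ≤ t) →
    ∑ p ∈ (Icc 1 ⌊t / 1000⌋₊).filter (fun p => p.Prime ∧ p ∉ PW), 1 / (p : ℝ) ≤ σ →
    ∑ p ∈ (Icc 1 ⌊t / 1000⌋₊).filter (fun p => p.Prime ∧ p ∉ PW ∧ t ^ (1 / 2 : ℝ) < p), 1 / (p : ℝ) ≤
      σ / Real.log t → ∀ c : ℕ → ℕ → ℝ, (∀ n, 0 ≤ wt Q c n) → Supp Q ⌊t⌋₊ l c →
    |√(mQ Q (fun n => wt Q c n * ((Sv U Q n).card : ℝ))) -
      √(VV Q / V PW * mQ Q (fun n => wt Q c n * Sf PW n U))| ≤
      √(Real.log t / 2 * (l / Real.log Q * mQ Q (wt Q c))) + √(η * (U / t) * mQ Q (wt Q c)) := by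
  classical
  obtain ⟨K, hK, hM⟩ := t_MERB2
  set η1 : ℝ := η / (4000 * K) with hη1
  have hη10 : 0 < η1 := by positivity
  obtain ⟨a, Cs, σ1, ha0, ha1, hCs, hσ1, hm1⟩ := mid4 lam hlam η1 hη10
  obtain ⟨σ2, hσ2, hm2⟩ := model (1 + a / 2) (by linarith) (by linarith) η1 hη10
  refine ⟨min σ1 σ2, lt_min hσ1 hσ2, ?_⟩
  have ev2 : ∀ᶠ t : ℝ in atTop, t ^ (1 + 2 * a) + 1 ≤ Real.exp (t / 1000) := by
    have h1 := (isLittleO_rpow_exp_pos_mul_atTop (1 + 2 * a) (show (0 : ℝ) < 1 / 1000 by norm_num)).bound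
      (show (0 : ℝ) < 1 / 2 by norm_num)
    filter_upwards [h1, eventually_ge_atTop (1 : ℝ)] with t h2 h3
    rw [Real.norm_of_nonneg (Real.rpow_nonneg (by linarith) _), Real.norm_of_nonneg (Real.exp_pos _).le] at h2
    have h4 : 1 ≤ t ^ (1 + 2 * a) := Real.one_le_rpow h3 (by linarith)
    have h5 : (1 : ℝ) / 1000 * t = t / 1000 := by ring
    rw [h5] at h2
    linarith
  have hl : Tendsto Real.log atTop atTop := Real.tendsto_log_atTop
  filter_upwards [hm1, hm2, seqS a ha0 (by linarith) lam hlam (η / 8) (by positivity) Cs hCs E hE, ev2,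
    eventually_ge_atTop (4 : ℝ), hl.eventually_ge_atTop (1 : ℝ)] with t ht1 ht2 ht3 ht4 ht5 ht6
  intro Q hQ1 hQ2 l hl0 hlE hl2 U hU PW hPW hsum hsum2 c hw hSup
  have ht0 : (0 : ℝ) < t := by linarith
  set L := Real.log t with hL
  have hL0 : 0 < L := by linarith
  have hσ1' : min σ1 σ2 ≤ σ1 := min_le_left _ _
  have hσ2' : min σ1 σ2 ≤ σ2 := min_le_right _ _
  have hQ0 : (0 : ℝ) < Q := by
    rcases Nat.eq_zero_or_pos Q with h | h
    · rw [h, Nat.cast_zero, Real.log_zero] at hQ1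
      linarith
    · exact_mod_cast h
  have hyQ : ⌈t ^ (1 + 2 * a)⌉₊ ≤ Q := by
    have h1 : Real.exp (t / 1000) ≤ Q := by
      rw [← Real.exp_log hQ0]
      exact Real.exp_le_exp.2 hQ1
    have h3 : ((⌈t ^ (1 + 2 * a)⌉₊ : ℕ) : ℝ) < t ^ (1 + 2 * a) + 1 := Nat.ceil_lt_add_one (Real.rpow_nonneg ht0.le _)
    have h2 : ((⌈t ^ (1 + 2 * a)⌉₊ : ℕ) : ℝ) ≤ Q := by linarith
    exact_mod_cast h2
  have hQ2' : 2 ≤ Q := by
    refine le_trans ?_ hyQ
    have h1 : t ≤ t ^ (1 + 2 * a) := by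
      calc t = t ^ (1 : ℝ) := (Real.rpow_one t).symm
        _ ≤ t ^ (1 + 2 * a) := Real.rpow_le_rpow_of_exponent_le (by linarith) (by linarith)
    have h2 : (2 : ℝ) ≤ (⌈t ^ (1 + 2 * a)⌉₊ : ℕ) := by
      have := Nat.le_ceil (t ^ (1 + 2 * a))
      linarith
    exact_mod_cast h2
  have hlQ0 : 0 < Real.log Q := by
    have : 0 < t / 1000 := by positivity
    linarith
  set m := mQ Q (wt Q c) with hm
  have hm0 : 0 ≤ m := REC_mQ_nonneg hw
  have hU0 : (0 : ℝ) ≤ U := Nat.cast_nonneg _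
  have hVQ0 : 0 < VV Q := MERB_pos Q
  have hY : η1 * (U * VV Q) * m ≤ η / 4 * (U / t) * m := by
    apply mul_le_mul_of_nonneg_right _ hm0
    have h3 := (hM Q Q hQ2' le_rfl).2.2.2
    have h4 : VV Q ≤ 1000 * K / t := by
      refine h3.trans ?_
      rw [div_le_div_iff₀ hlQ0 ht0]
      have : K * t ≤ K * (1000 * Real.log Q) := mul_le_mul_of_nonneg_left (by linarith) (by linarith)
      linarith
    calc η1 * (U * VV Q) ≤ η1 * (U * (1000 * K / t)) := by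
          apply mul_le_mul_of_nonneg_left _ hη10.le
          exact mul_le_mul_of_nonneg_left h4 hU0
      _ = η / 4 * (U / t) := by
          rw [hη1]
          field_simp
          ring
  have hVP0 := V_pos PW (fun p hp => (hPW p hp).1)
  set AQ := mQ Q (fun n => wt Q c n * ((Sv U Q n).card : ℝ)) with hAQ
  set N := mQ Q (fun n => wt Q c n * Sf PW n U) with hN
  have hAQ0 : 0 ≤ AQ := REC_mQ_nonneg (fun n => mul_nonneg (hw n) (Nat.cast_nonneg _))
  have hN0 : 0 ≤ N := REC_mQ_nonneg (fun n => mul_nonneg (hw n) (Nat.cast_nonneg _))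
  have hρN : 0 ≤ VV Q / V PW * N := by positivity
  have hq : √(η / 4 * (U / t) * m) = 1 / 2 * √(η * (U / t) * m) := by
    have h1 : η / 4 * (U / t) * m = (1 / 2) ^ 2 * (η * (U / t) * m) := by ring
    rw [h1, Real.sqrt_mul (by positivity), Real.sqrt_sq (by norm_num)]
  have hs0 := Real.sqrt_nonneg (η * (U / t) * m)
  have hs1 := Real.sqrt_nonneg (L / 2 * (l / Real.log Q * m))
  have hρ2 : l / Real.log Q * m ≤ 2 * m := by
    apply mul_le_mul_of_nonneg_right _ hm0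
    rw [div_le_iff₀ hlQ0]
    exact hl2
  rcases le_total (t ^ (1 + a / 2)) U with hUa | hUa
  · have h1 := ht2 Q hQ1 hQ2 U hUa PW hPW (hsum.trans hσ2') c hw
    have h2 := sqd hAQ0 hρN (h1.trans hY)
    rw [hq] at h2
    linarith
  · obtain ⟨g1, g2⟩ := ht1 Q hQ1 hQ2 hyQ U hU PW hPW (hsum.trans hσ1')
      (hsum2.trans (div_le_div_of_nonneg_right hσ1' hL0.le)) c hw
    have hty : ⌊t⌋₊ ≤ ⌈t ^ (1 + 2 * a)⌉₊ := by
      have h1 : t ≤ t ^ (1 + 2 * a) := by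
        calc t = t ^ (1 : ℝ) := (Real.rpow_one t).symm
          _ ≤ t ^ (1 + 2 * a) := Real.rpow_le_rpow_of_exponent_le (by linarith) (by linarith)
      have h2 : ((⌊t⌋₊ : ℕ) : ℝ) ≤ (⌈t ^ (1 + 2 * a)⌉₊ : ℕ) :=
        (Nat.floor_le ht0.le).trans (h1.trans (Nat.le_ceil _))
      exact_mod_cast h2
    have h3 := ht3 Q hQ1 hQ2 l hl0 hlE U hU hUa c hw (hSup.mono hty) g1 hyQ
    have h3' : √(η / 8 * (U / t) * (l / Real.log Q * m)) ≤ √(η / 4 * (U / t) * m) := by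
      apply Real.sqrt_le_sqrt
      have h8 : 0 ≤ η / 8 * (U / t) := by positivity
      have h9 := mul_le_mul_of_nonneg_left hρ2 h8
      linarith
    have hVy0 : 0 < VV ⌈t ^ (1 + 2 * a)⌉₊ := MERB_pos _
    have hB0 : 0 ≤ VV Q / VV ⌈t ^ (1 + 2 * a)⌉₊ *
        mQ Q (fun n => wt Q c n * ((Sv U ⌈t ^ (1 + 2 * a)⌉₊ n).card : ℝ)) :=
      mul_nonneg (by positivity) (REC_mQ_nonneg (fun n => mul_nonneg (hw n) (Nat.cast_nonneg _)))
    have h4 := sqd hB0 hρN (g2.trans hY)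
    rw [hq] at h3' h4
    have h5 := abs_le.1 h3
    have h6 := abs_le.1 h4
    rw [abs_le]
    constructor <;> linarith

end Pool.Agent.H301.SZ
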