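import Mathlib.Analysis.SpecialFunctions.Log.Deriv
import Mathlib.Analysis.SpecialFunctions.Pow.Real

/-! From linear inequalities with a free parameter to square roots. -/

set_option autoImplicit false

namespace Pool.Agent.H301.SZ

open Real

lemma logq {r0 : ℝ} (h : r0 ≤ 1 / 2) : ∀ r : ℝ, 0 ≤ r → r ≤ r0 → -Real.log (1 - r) ≤ r + (1 / 2 + 2 * r0) * r ^ 2 := by
  intro r h0 h1
  have h2 : |r| < 1 := by
    rw [abs_of_nonneg h0]
    linarith
  have h3 := Real.abs_log_sub_add_sum_range_le h2 2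
  rw [abs_of_nonneg h0] at h3
  have h4 := (abs_le.1 h3).1
  rw [Finset.sum_range_succ, Finset.sum_range_one] at h4
  have h5 : r ^ (2 + 1) / (1 - r) ≤ 2 * r0 * r ^ 2 := by
    rw [div_le_iff₀ (by linarith)]
    have e1 : r ^ (2 + 1) = r * r ^ 2 := by ring
    rw [e1]
    have e2 : r ≤ 2 * r0 * (1 - r) := by nlinarith
    calc r * r ^ 2 ≤ (2 * r0 * (1 - r)) * r ^ 2 := mul_le_mul_of_nonneg_right e2 (by positivity)
      _ = _ := by ring
  norm_num at h4
  linarith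

lemma sqrt_add_le' {a b : ℝ} (ha : 0 ≤ a) (hb : 0 ≤ b) : √(a + b) ≤ √a + √b := by
  rw [Real.sqrt_le_left (by positivity)]
  have h1 := Real.sq_sqrt ha
  have h2 := Real.sq_sqrt hb
  have h3 : 0 ≤ √a * √b := by positivity
  nlinarith

/-- from above -/
lemma rootU {M M0 J Λ C lam η δ : ℝ} (hM0 : 0 ≤ M0) (hJ : 0 ≤ J) (hΛ : 0 ≤ Λ) (hlam : 0 < lam) (hη : 0 < η)
    (hδ : 0 < δ) (hδ1 : δ ≤ 1 / 4) (hMC : M0 ≤ C * Λ) (hJΛ : lam * J ≤ Λ)
    (h1 : δ * (4 * C + 5 / lam) ≤ η / 2) (h2 : 200 / δ ≤ η / 2 * Λ)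
    (h : ∀ c : ℝ, 40 / δ ≤ c → M ≤ (c + J) / c * (1 + 1 / c) * M0 + (1 / 2 + 3 * δ) * (c + J)) :
    √M ≤ √M0 + √(J / 2) + √(η * Λ) := by
  set s := √M0 with hs
  set j := √(J / 2) with hj
  have hs0 : 0 ≤ s := Real.sqrt_nonneg _
  have hj0 : 0 ≤ j := Real.sqrt_nonneg _
  have hs2 : M0 = s ^ 2 := (Real.sq_sqrt hM0).symm
  have hj2 : J = 2 * j ^ 2 := by
    have := Real.sq_sqrt (show 0 ≤ J / 2 by positivity)
    rw [← hj] at this
    linarith
  have hC0 : 0 < 40 / δ := by positivity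
  set C0 := 40 / δ with hC0d
  set c := 2 * s * j + C0 with hc
  have hcC : C0 ≤ c := by
    have : 0 ≤ 2 * s * j := by positivity
    linarith
  have hc0 : 0 < c := hC0.trans_le hcC
  have key := h c hcC
  have hsj : 2 * s * j ≤ c := by linarith
  have hsj0 : 0 ≤ 2 * s * j := by positivity
  have e1 : (c + J) / c * (1 + 1 / c) * M0 = M0 + M0 / c + J * M0 / c + J * M0 / c ^ 2 := by
    field_simp
    ring
  have e2 : M0 / c ≤ δ * (C * Λ) := by
    have a1 : M0 / c ≤ M0 / C0 := div_le_div_of_nonneg_left hM0 hC0 hcC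
    have a2 : M0 / C0 = δ * M0 / 40 := by
      rw [hC0d]
      field_simp
    have a3 : δ * M0 ≤ δ * (C * Λ) := mul_le_mul_of_nonneg_left hMC hδ.le
    have a4 : 0 ≤ δ * M0 := by positivity
    linarith
  have e3 : J * M0 / c ≤ s * j := by
    rw [div_le_iff₀ hc0, hs2, hj2]
    calc 2 * j ^ 2 * s ^ 2 = s * j * (2 * s * j) := by ring
      _ ≤ s * j * c := mul_le_mul_of_nonneg_left hsj (by positivity)
  have e4 : J * M0 / c ^ 2 ≤ 1 / 2 := by
    rw [div_le_iff₀ (by positivity), hs2, hj2]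
    calc 2 * j ^ 2 * s ^ 2 = 1 / 2 * ((2 * s * j) * (2 * s * j)) := by ring
      _ ≤ 1 / 2 * (c * c) := by
          apply mul_le_mul_of_nonneg_left _ (by norm_num)
          exact mul_le_mul hsj hsj hsj0 hc0.le
      _ = 1 / 2 * c ^ 2 := by ring
  have e5 : 2 * s * j ≤ s ^ 2 + j ^ 2 := by nlinarith [sq_nonneg (s - j)]
  have e6 : j ^ 2 ≤ Λ / (2 * lam) := by
    rw [le_div_iff₀ (by positivity)]
    rw [hj2] at hJΛ
    linarith
  have e7 : (1 / 2 + 3 * δ) * (c + J) ≤ s * j + j ^ 2 + C0 / 2 + 3 * δ * (C * Λ + 3 * (Λ / (2 * lam))) + 120 := by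
    have a1 : (1 / 2 + 3 * δ) * (c + J) = s * j + j ^ 2 + C0 / 2 + 3 * δ * (2 * s * j + 2 * j ^ 2) + 3 * δ * C0 := by
      rw [hc, hj2]
      ring
    have a2 : 3 * δ * C0 = 120 := by
      rw [hC0d]
      field_simp
      norm_num
    have a3 : 3 * δ * (2 * s * j + 2 * j ^ 2) ≤ 3 * δ * (C * Λ + 3 * (Λ / (2 * lam))) := by
      apply mul_le_mul_of_nonneg_left _ (by positivity)
      rw [hs2] at hMC
      linarith
    rw [a1, a2]
    linarith
  have e8 : C0 / 2 + 120 + 1 / 2 ≤ 200 / δ := by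
    have a1 : C0 / 2 = 20 / δ := by
      rw [hC0d]
      ring
    rw [a1]
    have a2 : (482 : ℝ) ≤ 180 / δ := by
      rw [le_div_iff₀ hδ]
      linarith
    have a3 : 200 / δ = 20 / δ + 180 / δ := by ring
    linarith
  have e9 : δ * (C * Λ) + 3 * δ * (C * Λ + 3 * (Λ / (2 * lam))) ≤ η / 2 * Λ := by
    have a1 : δ * (C * Λ) + 3 * δ * (C * Λ + 3 * (Λ / (2 * lam))) = (δ * (4 * C + 9 / 2 / lam)) * Λ := by
      field_simp
      ring
    rw [a1]
    apply mul_le_mul_of_nonneg_right _ hΛ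
    refine le_trans ?_ h1
    apply mul_le_mul_of_nonneg_left _ hδ.le
    have : 9 / 2 / lam ≤ 5 / lam := div_le_div_of_nonneg_right (by norm_num) hlam.le
    linarith
  have hM : M ≤ (s + j) ^ 2 + η * Λ := by
    rw [e1, hs2] at key
    rw [hs2] at e2 e3 e4
    have a1 : (s + j) ^ 2 = s ^ 2 + s * j + (s * j + j ^ 2) := by ring
    linarith
  have hηΛ : 0 ≤ η * Λ := by positivity
  calc √M ≤ √((s + j) ^ 2 + η * Λ) := Real.sqrt_le_sqrt hM
    _ ≤ √((s + j) ^ 2) + √(η * Λ) := sqrt_add_le' (by positivity) hηΛ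
    _ = s + j + √(η * Λ) := by rw [Real.sqrt_sq (by positivity)]

/-- from below -/
lemma rootL {M M0 J Λ C lam η δ κ : ℝ} (hM : 0 ≤ M) (hM0 : 0 ≤ M0) (hJ : 0 < J) (hΛ : 0 ≤ Λ) (hlam : 0 < lam)
    (hη : 0 < η) (hδ : 0 < δ) (hMC : M0 ≤ C * Λ) (hJΛ : lam * J ≤ Λ) (hκ : 0 ≤ κ)
    (hκ2 : κ * ((C + 1 / lam) * Λ) ≤ δ / 4)
    (h1 : δ * (11 * C + 10 / lam) ≤ η) (h2 : (40 / δ) ^ 2 ≤ 2 * η * lam * J ^ 2)
    (h : ∀ c : ℝ, J + 40 / δ ≤ c → κ * c ≤ δ / 4 → (c - J) / c * M0 - (1 / 2 + 10 * δ) * (c - J) ≤ (1 + δ) * M) :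
    √M0 ≤ √M + √(J / 2) + √(η * Λ) := by
  set s := √M0 with hs
  set j := √(J / 2) with hj
  have hs0 : 0 ≤ s := Real.sqrt_nonneg _
  have hj0 : 0 ≤ j := Real.sqrt_nonneg _
  have hs2 : M0 = s ^ 2 := (Real.sq_sqrt hM0).symm
  have hj2 : J = 2 * j ^ 2 := by
    have := Real.sq_sqrt (show 0 ≤ J / 2 by positivity)
    rw [← hj] at this
    linarith
  have hηΛ : 0 ≤ η * Λ := by positivity
  set x := √(η * Λ) with hx
  have hx0 : 0 ≤ x := Real.sqrt_nonneg _
  have hx2 : η * Λ = x ^ 2 := (Real.sq_sqrt hηΛ).symm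
  have hM1 : 0 ≤ √M := Real.sqrt_nonneg _
  rcases le_or_gt s (j + x) with hsm | hsm
  · linarith
  have hC0 : 0 < 40 / δ := by positivity
  set C0 := 40 / δ with hC0d
  set c := 2 * s * j with hc
  -- `c ≥ J + C0`
  have a1 : C0 ≤ 2 * x * j := by
    have b1 : C0 ^ 2 ≤ (2 * x * j) ^ 2 := by
      calc C0 ^ 2 ≤ 2 * η * lam * J ^ 2 := h2
        _ = 2 * η * J * (lam * J) := by ring
        _ ≤ 2 * η * J * Λ := mul_le_mul_of_nonneg_left hJΛ (by positivity)
        _ = 2 * J * (η * Λ) := by ring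
        _ = (2 * x * j) ^ 2 := by
            rw [hx2, hj2]
            ring
    exact le_of_sq_le_sq b1 (by positivity)
  have a2 : J + C0 ≤ c := by
    have b1 : 2 * (j + x) * j ≤ 2 * s * j := by
      have := mul_le_mul_of_nonneg_right hsm.le hj0
      linarith
    have b2 : 2 * (j + x) * j = J + 2 * x * j := by
      rw [hj2]
      ring
    linarith
  have hc0 : 0 < c := by linarith
  have e6 : j ^ 2 ≤ Λ / (2 * lam) := by
    rw [le_div_iff₀ (by positivity)]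
    rw [hj2] at hJΛ
    linarith
  have e5 : c ≤ s ^ 2 + j ^ 2 := by
    rw [hc]
    nlinarith [sq_nonneg (s - j)]
  have e7 : c ≤ (C + 1 / lam) * Λ := by
    have b1 : Λ / (2 * lam) ≤ 1 / lam * Λ := by
      have : Λ / (2 * lam) = 1 / 2 * (1 / lam * Λ) := by
        field_simp
      have : 0 ≤ 1 / lam * Λ := by positivity
      linarith
    rw [hs2] at hMC
    linarith
  have key := h c a2 ((mul_le_mul_of_nonneg_left e7 hκ).trans hκ2)
  have e1 : (c - J) / c * M0 = M0 - J * M0 / c := by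
    field_simp
  have e2 : J * M0 / c = s * j := by
    rw [div_eq_iff hc0.ne', hs2, hj2, hc]
    ring
  rw [e1, e2, hs2] at key
  have hjs : j ≤ s := by linarith
  set Y := (s - j) ^ 2 - 10 * δ * c with hY
  have hYM : Y ≤ (1 + δ) * M := by
    have b1 : s ^ 2 - s * j - (1 / 2 + 10 * δ) * (c - J) = (s - j) ^ 2 - 10 * δ * c + 10 * δ * J := by
      rw [hj2, hc]
      ring
    rw [b1] at key
    have : 0 ≤ 10 * δ * J := by positivity
    linarith
  have hYM2 : Y - δ * s ^ 2 ≤ M := by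
    rcases le_or_gt Y 0 with hY0 | hY0
    · have : 0 ≤ δ * s ^ 2 := by positivity
      linarith
    · have b1 : Y ≤ s ^ 2 := by
        have b2 : (s - j) ^ 2 ≤ s ^ 2 := by nlinarith
        have : 0 ≤ 10 * δ * c := by positivity
        linarith
      have b3 : δ * Y ≤ δ * s ^ 2 := mul_le_mul_of_nonneg_left b1 hδ.le
      by_contra hcon
      push Not at hcon
      have b4 : (1 + δ) * M < (1 + δ) * (Y - δ * s ^ 2) := mul_lt_mul_of_pos_left hcon (by linarith)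
      have b5 : 0 ≤ δ * (δ * s ^ 2) := by positivity
      have b6 : (1 + δ) * (Y - δ * s ^ 2) = Y + δ * Y - δ * s ^ 2 - δ * (δ * s ^ 2) := by ring
      linarith
  have e8 : 10 * δ * c + δ * s ^ 2 ≤ η * Λ := by
    have b1 : 10 * δ * c ≤ 10 * δ * ((C + 1 / lam) * Λ) := mul_le_mul_of_nonneg_left e7 (by positivity)
    have b2 : δ * s ^ 2 ≤ δ * (C * Λ) := by
      rw [hs2] at hMC
      exact mul_le_mul_of_nonneg_left hMC hδ.le
    have b3 : 10 * δ * ((C + 1 / lam) * Λ) + δ * (C * Λ) = (δ * (11 * C + 10 / lam)) * Λ := by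
      field_simp
      ring
    have b4 := mul_le_mul_of_nonneg_right h1 hΛ
    linarith
  have hfin : (s - j) ^ 2 ≤ M + η * Λ := by linarith
  have hfin2 : s - j ≤ √(M + η * Λ) := Real.le_sqrt_of_sq_le hfin
  have hfin3 : √(M + η * Λ) ≤ √M + x := by
    rw [Real.sqrt_le_left (by positivity), add_sq, Real.sq_sqrt hM, ← hx2]
    have : 0 ≤ 2 * √M * x := by positivity
    linarith
  linarith

end Pool.Agent.H301.SZ
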