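import Pool.Agent.H301.SZ.IntT
import Pool.Agent.H301.SZ.Roots
import Pool.Agent.H301.SX.Big

/-! Both bounds between a limit `y` and the level. -/

set_option autoImplicit false

namespace Pool.Agent.H301.SZ

open Finset Filter Topology Pool.Agent.H301.SX
open Pool.Agent.Y829 (HS Sf mem_HS V V_insert)
open Pool.Agent.N422.SL (wt)
open Pool.Agent.N422.LG

/-- the constant of Mertens -/
noncomputable def gg : ℝ := Real.exp (-Real.eulerMascheroniConstant)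

lemma gg_pos : 0 < gg := Real.exp_pos _

/-- the third theorem of Mertens -/
theorem mert : Tendsto (fun n : ℕ => VV n * Real.log n) atTop (𝓝 gg) := by
  have h1 := Pool.Agent.H305R2.mertens_three.inv₀ (Real.exp_pos _).ne'
  rw [← Real.exp_neg] at h1
  refine h1.congr' ?_
  filter_upwards with n
  rw [← Pool.Agent.N422.NW.MER_prod]
  unfold VV
  rw [inv_div, div_inv_eq_mul, mul_comm]

lemma mert2 (δ : ℝ) (hδ : 0 < δ) : ∃ n0 : ℕ, ∀ n : ℕ, n0 ≤ n → gg * (1 - δ) ≤ VV n * Real.log n ∧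
    VV n * Real.log n ≤ gg * (1 + δ) := by
  have h1 := mert.eventually_const_lt (show gg * (1 - δ) < gg by nlinarith [gg_pos, mul_pos gg_pos hδ])
  have h2 := mert.eventually_lt_const (show gg < gg * (1 + δ) by nlinarith [gg_pos, mul_pos gg_pos hδ])
  obtain ⟨n0, h⟩ := eventually_atTop.1 (h1.and h2)
  exact ⟨n0, fun n hn => ⟨(h n hn).1.le, (h n hn).2.le⟩⟩

lemma cst1 {δ : ℝ} (h0 : 0 < δ) (h1 : δ ≤ 1 / 4) : (1 / 2 + 2 * (δ / 8)) * (1 + δ) ≤ 1 / 2 + δ := by nlinarith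
lemma cst2 {δ : ℝ} (h0 : 0 < δ) (h1 : δ ≤ 1 / 4) : (1 / 2 + δ) * (1 + 2 * δ) ≤ 1 / 2 + 3 * δ := by nlinarith
lemma cst4 {δ : ℝ} (h0 : 0 < δ) (h1 : δ ≤ 1 / 4) : (1 / 2 + 6 * δ) * (1 + 2 * δ) ≤ 1 / 2 + 10 * δ := by nlinarith
lemma cst5 {δ : ℝ} (h0 : 0 < δ) (h1 : δ ≤ 1 / 4) : (1 + δ) * (1 + δ / 5) ≤ 1 + 2 * δ := by nlinarith
lemma cst6 {δ : ℝ} (h0 : 0 < δ) (h1 : δ ≤ 1 / 4) : 1 + δ / 20 ≤ (1 + δ / 5) * (1 - δ / 20) := by nlinarith
lemma cst7 {δ x : ℝ} (h0 : 0 < δ) (h1 : δ ≤ 1 / 4) (hx : 40 ≤ x * δ) : 40 ≤ x := by nlinarith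
lemma cst3 {δ κ : ℝ} (h0 : 0 < δ) (h1 : δ ≤ 1 / 4) (hκ : κ ≤ δ / 100) :
    ((1 + 2 * (δ / 8)) * (1 + 2 * κ) + 8 * κ) * (1 + δ) - 1 / 2 / (1 + δ) + δ ≤ (1 / 2 + 6 * δ) * (1 - δ) := by
  have h1 : (1 + 2 * (δ / 8)) * (1 + 2 * κ) + 8 * κ ≤ 1 + 36 / 100 * δ := by nlinarith
  have h2 : ((1 + 2 * (δ / 8)) * (1 + 2 * κ) + 8 * κ) * (1 + δ) ≤ (1 + 36 / 100 * δ) * (1 + δ) :=
    mul_le_mul_of_nonneg_right h1 (by positivity)
  have h3 : 1 / 2 - δ / 2 ≤ 1 / 2 / (1 + δ) := by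
    rw [le_div_iff₀ (by positivity)]
    nlinarith
  have h4 : (1 + 36 / 100 * δ) * (1 + δ) ≤ 1 + 145 / 100 * δ := by nlinarith
  have h5 : 1 / 2 + 4 * δ ≤ (1 / 2 + 6 * δ) * (1 - δ) := by nlinarith
  linarith

/-- the set-up between a limit and the level -/
structure Gap (Q y U : ℕ) (δ J l E : ℝ) : Prop where
  hy2 : 2 ≤ y
  hyQ : y ≤ Q
  hUy : 2 * U ≤ y
  hδ : 0 < δ
  hδ1 : δ ≤ 1 / 4
  hJ : ∑ p ∈ PQ Q y, 1 / ((p : ℝ) - 1) ≤ J
  hl : 0 < l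
  hE : 1 ≤ E
  hlE : Real.log Q ≤ E * l
  hM : ∀ n, y ≤ n → gg * (1 - δ / 20) ≤ VV n * Real.log n ∧ VV n * Real.log n ≤ gg * (1 + δ / 20)

/-- the weight has level `exp l` in the primes above `y` -/
def Supp (Q y : ℕ) (l : ℝ) (c : ℕ → ℕ → ℝ) : Prop := ∀ d, 1 ≤ d → d ≤ Q → (∃ a, c d a ≠ 0) →
  ∑ p ∈ (PQ Q y).filter (fun p => p ∣ d), Real.log p ≤ l

noncomputable def Amn (y : ℕ) (δ l : ℝ) : ℝ := gg * (1 - δ / 20) / (VV y * l)

lemma Gap.P {Q y U : ℕ} {δ J l E : ℝ} (_ : Gap Q y U δ J l E) : ∀ p ∈ PQ Q y, (1 ≤ p ∧ p ≤ Q) ∧ p.Prime ∧ y < p := by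
  intro p hp
  unfold PQ at hp
  rw [mem_filter, mem_Icc] at hp
  exact hp

lemma Gap.VP {Q y U : ℕ} {δ J l E : ℝ} (h : Gap Q y U δ J l E) : V (PQ Q y) = VV Q / VV y := by
  rw [eq_div_iff (MERB_pos y).ne']
  exact V_split h.hyQ

lemma Gap.lQ {Q y U : ℕ} {δ J l E : ℝ} (h : Gap Q y U δ J l E) : 0 < Real.log Q :=
  Real.log_pos (by
    have h1 := h.hy2
    have h2 := h.hyQ
    exact_mod_cast (by omega : 1 < Q))

lemma Gap.Am0 {Q y U : ℕ} {δ J l E : ℝ} (h : Gap Q y U δ J l E) : 0 < Amn y δ l := by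
  have h1 := h.hl
  have h2 := MERB_pos y
  have h3 := gg_pos
  have h4 : 0 < 1 - δ / 20 := by
    have := h.hδ1
    linarith
  unfold Amn
  positivity

lemma Gap.Vp {Q y U : ℕ} {δ J l E : ℝ} (h : Gap Q y U δ J l E) : ∀ p ∈ PQ Q y,
    V ((PQ Q y).filter (fun q => q ≤ p)) * (Real.log p / l) =
      (VV p * Real.log p) / (VV y * l) := by
  intro p hp
  obtain ⟨⟨_, hpQ⟩, _, hyp⟩ := h.P p hp
  have h0 := h.hl
  have h1 : (PQ Q y).filter (fun q => q ≤ p) = PQ p y := by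
    ext q
    simp only [PQ, mem_filter, mem_Icc]
    constructor
    · rintro ⟨⟨⟨b1, b2⟩, b3, b4⟩, b5⟩
      exact ⟨⟨b1, b5⟩, b3, b4⟩
    · rintro ⟨⟨b1, b2⟩, b3, b4⟩
      exact ⟨⟨⟨b1, b2.trans hpQ⟩, b3, b4⟩, b2⟩
  have h3 := MERB_pos y
  have h2 : V (PQ p y) = VV p / VV y := by
    rw [eq_div_iff (MERB_pos y).ne']
    exact V_split hyp.le
  rw [h1, h2]
  field_simp

lemma Gap.s1 {Q y U : ℕ} {δ J l E : ℝ} (h : Gap Q y U δ J l E) : ∀ p ∈ PQ Q y,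
    Amn y δ l ≤ V ((PQ Q y).filter (fun q => q ≤ p)) * (Real.log p / l) := by
  intro p hp
  rw [h.Vp p hp]
  unfold Amn
  have h1 := h.hl
  have h2 := MERB_pos y
  exact div_le_div_of_nonneg_right (h.hM p (h.P p hp).2.2.le).1 (by positivity)

lemma Gap.s2 {Q y U : ℕ} {δ J l E : ℝ} (h : Gap Q y U δ J l E) : ∀ p ∈ PQ Q y,
    V ((PQ Q y).filter (fun q => q ≤ p)) * (Real.log p / l) ≤ (1 + δ / 5) * Amn y δ l := by
  intro p hp
  rw [h.Vp p hp]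
  unfold Amn
  have h1 := h.hl
  have h2 := MERB_pos y
  rw [← mul_div_assoc]
  apply div_le_div_of_nonneg_right _ (by positivity)
  refine (h.hM p (h.P p hp).2.2.le).2.trans ?_
  calc gg * (1 + δ / 20) ≤ gg * ((1 + δ / 5) * (1 - δ / 20)) :=
        mul_le_mul_of_nonneg_left (cst6 h.hδ h.hδ1) gg_pos.le
    _ = _ := by ring

lemma Gap.VA {Q y U : ℕ} {δ J l E : ℝ} (h : Gap Q y U δ J l E) :
    V (PQ Q y) * ((1 + δ) / Amn y δ l) ≤ (1 + 2 * δ) * (l / Real.log Q) := by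
  have h1 := (h.hM Q h.hyQ).2
  have h2 := MERB_pos y
  have h3 := MERB_pos Q
  have h4 := h.lQ
  have h5 := h.hl
  have hg0 := gg_pos
  have hδ := h.hδ
  have hδ1 := h.hδ1
  have h1δ : 0 < 1 - δ / 20 := by linarith
  have e1 : V (PQ Q y) * ((1 + δ) / Amn y δ l) = (1 + δ) * (VV Q * Real.log Q) / (gg * (1 - δ / 20)) *
      (l / Real.log Q) := by
    rw [h.VP]
    unfold Amn
    field_simp
  rw [e1]
  apply mul_le_mul_of_nonneg_right _ (by positivity)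
  rw [div_le_iff₀ (by positivity)]
  calc (1 + δ) * (VV Q * Real.log Q) ≤ (1 + δ) * (gg * (1 + δ / 20)) := mul_le_mul_of_nonneg_left h1 (by positivity)
    _ ≤ (1 + δ) * (gg * ((1 + δ / 5) * (1 - δ / 20))) := by
        apply mul_le_mul_of_nonneg_left _ (by positivity)
        exact mul_le_mul_of_nonneg_left (cst6 hδ hδ1) hg0.le
    _ = ((1 + δ) * (1 + δ / 5)) * (gg * (1 - δ / 20)) := by ring
    _ ≤ (1 + 2 * δ) * (gg * (1 - δ / 20)) := by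
        apply mul_le_mul_of_nonneg_right (cst5 hδ hδ1) (by positivity)

lemma Gap.lE {Q y U : ℕ} {δ J l E : ℝ} (h : Gap Q y U δ J l E) : ∀ p ∈ PQ Q y, Real.log p ≤ E * l := by
  intro p hp
  refine le_trans ?_ h.hlE
  apply Real.log_le_log
  · exact_mod_cast (h.P p hp).2.1.pos
  · exact_mod_cast (h.P p hp).1.2

/-- the upper bound between a limit and the level -/
theorem packU {Q y U : ℕ} {δ J l E : ℝ} (h : Gap Q y U δ J l E) (c : ℕ → ℕ → ℝ) (hw : ∀ n, 0 ≤ wt Q c n)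
    (hSup : Supp Q y l c) (cc : ℝ)
    (hcc : 40 / δ ≤ cc) :
    mQ Q (fun n => wt Q c n * ((Sv U Q n).card : ℝ)) ≤ (cc + J) / cc * (1 + 1 / cc) *
      (VV Q / VV y * mQ Q (fun n => wt Q c n * ((Sv U y n).card : ℝ))) +
        (1 / 2 + 3 * δ) * (cc + J) * (l / Real.log Q * mQ Q (wt Q c)) := by
  classical
  have hδ := h.hδ
  have hδ1 := h.hδ1
  have hcc0 : 0 < cc := lt_of_lt_of_le (by positivity) hcc
  have h40 : 40 ≤ cc * δ := by rwa [div_le_iff₀ hδ] at hcc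
  have hbc : (2 + δ) / ((1 / 2 + δ) * cc) ≤ δ / 8 := by
    rw [div_le_iff₀ (by positivity)]
    have h2 : δ / 8 * ((1 / 2 + δ) * cc) = (1 / 2 + δ) * (cc * δ) / 8 := by ring
    rw [h2]
    have h3 : (1 / 2 + δ) * 40 ≤ (1 / 2 + δ) * (cc * δ) := mul_le_mul_of_nonneg_left h40 (by positivity)
    linarith
  have hJ0 : 0 ≤ J := by
    refine le_trans (sum_nonneg fun p hp => ?_) h.hJ
    have : (2 : ℝ) ≤ p := by exact_mod_cast (h.P p hp).2.1.two_le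
    have : 0 < (p : ℝ) - 1 := by linarith
    positivity
  have hP1 : ∀ p ∈ PQ Q y, p.Prime ∧ 2 * U < p ∧ p ≤ Q ∧ ¬ p ∣ RECR y := fun p hp =>
    ⟨(h.P p hp).2.1, lt_of_le_of_lt h.hUy (h.P p hp).2.2, (h.P p hp).1.2,
          RECR_not (h.P p hp).2.1 (h.P p hp).2.2⟩
  have key := intUp t_ARDG Q U (RECR y) (PQ Q y) (fun n => Sv U y n) c (Amn y δ l) δ cc J (1 / 2 + δ)
    (1 / 2 + 2 * (δ / 8)) (δ / 8) l E h.hl h.hE (RECR_pos y) (RECR_dvd h.hyQ) hP1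
    (fun n => REC_per U y n) (fun n => filter_subset _ _) h.lE hSup hw h.Am0 hδ (by linarith) hcc0 (by positivity)
    (by positivity) (cst1 hδ hδ1) (by linarith) (logq (by linarith)) hbc h.hJ h.s1
  have hleft : ∀ n, left (PQ Q y) (Sv U y n) n = Sv U Q n := fun n => RECU_left h.hyQ U n
  simp only [hleft] at key
  have hVP0 : 0 < V (PQ Q y) := V_pos _ (fun p hp => (h.P p hp).2.1)
  rw [div_le_iff₀ hVP0] at key
  rw [← h.VP]
  have hVA := h.VA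
  set A := mQ Q (fun n => wt Q c n * ((Sv U Q n).card : ℝ)) with hA
  set B' := mQ Q (fun n => wt Q c n * ((Sv U y n).card : ℝ)) with hB'
  set m := mQ Q (wt Q c) with hm
  have hm0 : 0 ≤ m := REC_mQ_nonneg hw
  have hlQ := h.lQ
  have hll := h.hl
  set ρ := l / Real.log Q with hρ
  have hρ0 : 0 < ρ := by positivity
  set Am := Amn y δ l with hAm
  set v := V (PQ Q y) with hv
  have e1 : ((cc + J) / cc * (1 + 1 / cc) * B' + (1 / 2 + δ) * (cc + J) * ((1 + δ) / Am) * m) * v =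
      (cc + J) / cc * (1 + 1 / cc) * (v * B') + (1 / 2 + δ) * (cc + J) * (v * ((1 + δ) / Am)) * m := by ring
  have e2 : (1 / 2 + δ) * (cc + J) * (v * ((1 + δ) / Am)) * m ≤ (1 / 2 + 3 * δ) * (cc + J) * (ρ * m) := by
    rw [← mul_assoc ((1 / 2 + 3 * δ) * (cc + J)) ρ m]
    apply mul_le_mul_of_nonneg_right _ hm0
    calc (1 / 2 + δ) * (cc + J) * (v * ((1 + δ) / Am)) ≤ (1 / 2 + δ) * (cc + J) * ((1 + 2 * δ) * ρ) :=
          mul_le_mul_of_nonneg_left hVA (by positivity)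
      _ = ((1 / 2 + δ) * (1 + 2 * δ)) * ((cc + J) * ρ) := by ring
      _ ≤ (1 / 2 + 3 * δ) * ((cc + J) * ρ) := mul_le_mul_of_nonneg_right (cst2 hδ hδ1) (by positivity)
      _ = _ := by ring
  rw [e1] at key
  linarith

/-- the lower bound between a limit and the level -/
theorem packL {Q y U : ℕ} {δ J l E : ℝ} (h : Gap Q y U δ J l E) (c : ℕ → ℕ → ℝ) (hw : ∀ n, 0 ≤ wt Q c n)
    (hSup : Supp Q y l c) (cc κ : ℝ)
    (hcc : J + 40 / δ ≤ cc) (hκ : (U : ℝ) / y ≤ κ) (hκδ : κ ≤ δ / 100) (hκc : κ * cc ≤ δ / 4) :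
    (cc - J) / cc * (VV Q / VV y * mQ Q (fun n => wt Q c n * ((Sv U y n).card : ℝ))) -
      (1 / 2 + 10 * δ) * (cc - J) * (l / Real.log Q * mQ Q (wt Q c)) ≤ (1 + δ) * mQ Q (fun n => wt Q c n * ((Sv U Q n).card : ℝ)) := by
  classical
  have hδ := h.hδ
  have hδ1 := h.hδ1
  have hJ0 : 0 ≤ J := by
    refine le_trans (sum_nonneg fun p hp => ?_) h.hJ
    have : (2 : ℝ) ≤ p := by exact_mod_cast (h.P p hp).2.1.two_le
    have : 0 < (p : ℝ) - 1 := by linarith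
    positivity
  have hccL : 0 < cc - J := by
    have : 0 < 40 / δ := by positivity
    linarith
  have hcc0 : 0 < cc := by linarith
  have h40 : 40 ≤ (cc - J) * δ := by
    rw [← div_le_iff₀ hδ]
    linarith
  have h40' : 40 ≤ cc - J := cst7 hδ hδ1 h40
  have hU0 : (0 : ℝ) ≤ U := Nat.cast_nonneg _
  have hy0 : (0 : ℝ) < y := by
    have := h.hy2
    exact_mod_cast (by omega : 0 < y)
  have hκ0 : 0 ≤ κ := le_trans (by positivity) hκ
  have hκb : 2 * κ ≤ δ / ((1 / 2 + 6 * δ) * cc) := by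
    rw [le_div_iff₀ (by positivity)]
    have h1 : 2 * κ * ((1 / 2 + 6 * δ) * cc) = (1 + 12 * δ) * (κ * cc) := by ring
    rw [h1]
    have h2 : (1 + 12 * δ) * (κ * cc) ≤ 4 * (κ * cc) := by
      apply mul_le_mul_of_nonneg_right _ (by positivity)
      linarith
    linarith
  have hbc : (2 + δ) / ((1 / 2 + 6 * δ) * (cc - J)) ≤ δ / 8 := by
    rw [div_le_iff₀ (by positivity)]
    have h2 : δ / 8 * ((1 / 2 + 6 * δ) * (cc - J)) = (1 / 2 + 6 * δ) * ((cc - J) * δ) / 8 := by ring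
    rw [h2]
    have h3 : (1 / 2 + 6 * δ) * 40 ≤ (1 / 2 + 6 * δ) * ((cc - J) * δ) :=
      mul_le_mul_of_nonneg_left h40 (by positivity)
    linarith
  have hP1 : ∀ p ∈ PQ Q y, p.Prime ∧ 2 * U < p ∧ p ≤ Q ∧ ¬ p ∣ RECR y := fun p hp =>
    ⟨(h.P p hp).2.1, lt_of_le_of_lt h.hUy (h.P p hp).2.2, (h.P p hp).1.2,
          RECR_not (h.P p hp).2.1 (h.P p hp).2.2⟩
  have hκp : ∀ p ∈ PQ Q y, (U : ℝ) / p ≤ κ := fun p hp => by
    refine le_trans ?_ hκ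
    apply div_le_div_of_nonneg_left hU0 hy0
    exact_mod_cast (h.P p hp).2.2.le
  have hg : ∀ p ∈ PQ Q y, 1 / ((p : ℝ) - 1) ≤ δ * (cc - J) := fun p hp => by
    have h1 : (2 : ℝ) ≤ p := by exact_mod_cast (h.P p hp).2.1.two_le
    have h2 : 1 / ((p : ℝ) - 1) ≤ 1 := by
      rw [div_le_one (by linarith)]
      linarith
    linarith
  have key := intLo t_ARDG Q U (RECR y) (PQ Q y) (fun n => Sv U y n) c (Amn y δ l) δ cc J (1 / 2 + 6 * δ) κ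
    (δ / 8) l E h.hl h.hE (RECR_pos y) (RECR_dvd h.hyQ) hP1
    (fun n => REC_per U y n) (fun n => filter_subset _ _) h.lE hSup hw h.Am0 hδ (by linarith) hJ0 (by linarith)
    (by positivity) (by linarith) hκp hκ0 (by linarith) (cst3 hδ hδ1 hκδ) hκb hbc h.hJ hg h.s1 h.s2
  have hleft : ∀ n, left (PQ Q y) (Sv U y n) n = Sv U Q n := fun n => RECU_left h.hyQ U n
  simp only [hleft] at key
  have hVP0 : 0 < V (PQ Q y) := V_pos _ (fun p hp => (h.P p hp).2.1)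
  rw [← h.VP]
  have hVA := h.VA
  set A := mQ Q (fun n => wt Q c n * ((Sv U Q n).card : ℝ)) with hA
  set B' := mQ Q (fun n => wt Q c n * ((Sv U y n).card : ℝ)) with hB'
  set m := mQ Q (wt Q c) with hm
  have hm0 : 0 ≤ m := REC_mQ_nonneg hw
  have hlQ := h.lQ
  have hll := h.hl
  set ρ := l / Real.log Q with hρ
  have hρ0 : 0 < ρ := by positivity
  have hA0 : 0 ≤ A := REC_mQ_nonneg (fun n => mul_nonneg (hw n) (Nat.cast_nonneg _))
  set Am := Amn y δ l with hAm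
  set v := V (PQ Q y) with hv
  have key2 := mul_le_mul_of_nonneg_left key hVP0.le
  have e1 : v * ((cc - J) / cc * B' - (1 / 2 + 6 * δ) * (cc - J) * ((1 + δ) / Am) * m) =
      (cc - J) / cc * (v * B') - (1 / 2 + 6 * δ) * (cc - J) * (v * ((1 + δ) / Am)) * m := by ring
  have e2 : (1 / 2 + 6 * δ) * (cc - J) * (v * ((1 + δ) / Am)) * m ≤ (1 / 2 + 10 * δ) * (cc - J) * (ρ * m) := by
    rw [← mul_assoc ((1 / 2 + 10 * δ) * (cc - J)) ρ m]
    apply mul_le_mul_of_nonneg_right _ hm0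
    calc (1 / 2 + 6 * δ) * (cc - J) * (v * ((1 + δ) / Am)) ≤ (1 / 2 + 6 * δ) * (cc - J) * ((1 + 2 * δ) * ρ) :=
          mul_le_mul_of_nonneg_left hVA (by positivity)
      _ = ((1 / 2 + 6 * δ) * (1 + 2 * δ)) * ((cc - J) * ρ) := by ring
      _ ≤ (1 / 2 + 10 * δ) * ((cc - J) * ρ) := mul_le_mul_of_nonneg_right (cst4 hδ hδ1) (by positivity)
      _ = _ := by ring
  have e5 : v * ((1 + δ / 8) * (A / v)) = (1 + δ / 8) * A := by
    field_simp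
  rw [e1, e5] at key2
  have e6 : (1 + δ / 8) * A ≤ (1 + δ) * A := mul_le_mul_of_nonneg_right (by linarith) hA0
  linarith

end Pool.Agent.H301.SZ
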