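import Pool.Agent.H301.SZ.Model3
import Pool.Agent.H301.SZ.Core
import Pool.Agent.H301.SX.Prime

/-! Primes under sieve weights: the square root law. -/

set_option autoImplicit false

namespace Pool.Agent.H301.SZ

open Finset Filter Topology Pool.Agent.Y829 Pool.Agent.Y829.RP Pool.Agent.Y829.RW Pool.Agent.H301.SX
open Pool.Agent.H378R2 (Phi EPhi LPhi MPhi WW PW GoodP GoodS BVrel)
open Pool.Agent.N422.LG (Sv VV mQ)

/-- the level of the weight in the primes above `log X` -/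
lemma suppCT (X : ℕ) (S : Finset ℕ) (ps : ℕ) (θ : ℝ) (hX : 4 ≤ X) (Q : ℕ) (c : ℕ → ℕ → ℝ)
    (hc : ∀ q ∈ QS X S ps, (X : ℝ) ^ θ < q → ∀ a, c q a = 0) :
    Supp Q ⌊Real.log X⌋₊ (θ * Real.log X) (ct (WW X S ps) (QS X S ps) c) := by
  classical
  have hXr : (4 : ℝ) ≤ X := by exact_mod_cast hX
  have hX0 : (0 : ℝ) < X := by linarith
  have hL0 : 0 ≤ Real.log X := Real.log_nonneg (by linarith)
  intro d _ _ hne
  obtain ⟨a, ha⟩ := hne
  unfold ct at ha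
  split_ifs at ha with h
  · have hq : ((d / WW X S ps : ℕ) : ℝ) ≤ (X : ℝ) ^ θ := by
      by_contra hcon
      exact ha (hc _ h.2 (not_le.1 hcon) a)
    set q := d / WW X S ps with hqd
    have hq1 : 1 ≤ q := (mem_Icc.1 (QS_sub _ _ _ h.2)).1
    have hd : d = WW X S ps * q := (Nat.mul_div_cancel' h.1).symm
    set T := (Pool.Agent.N422.LG.PQ Q ⌊Real.log X⌋₊).filter (fun p => p ∣ d) with hT
    have hTm : ∀ p ∈ T, p.Prime ∧ p ∣ q := by
      intro p hp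
      rw [hT, mem_filter] at hp
      obtain ⟨h1, h2⟩ := hp
      unfold Pool.Agent.N422.LG.PQ at h1
      rw [mem_filter] at h1
      obtain ⟨_, h3, h4⟩ := h1
      refine ⟨h3, ?_⟩
      rw [hd] at h2
      rcases h3.dvd_mul.1 h2 with h5 | h5
      · exfalso
        unfold Pool.Agent.H378R2.WW at h5
        obtain ⟨p', hp', h6⟩ := (Prime.dvd_finsetProd_iff h3.prime _).1 h5
        have h7 := (Nat.prime_dvd_prime_iff_eq h3 (PW_prime hp')).1 h6
        have h8 := (mem_PW.1 hp').1.2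
        have h9 : ⌊Real.log X / 1000⌋₊ ≤ ⌊Real.log X⌋₊ := Nat.floor_le_floor (by linarith)
        omega
      · exact h5
    have h3 : ∏ p ∈ T, p ∣ q := Finset.prod_primes_dvd q (fun p hp => (hTm p hp).1.prime) (fun p hp => (hTm p hp).2)
    have h4 : ∏ p ∈ T, p ≤ q := Nat.le_of_dvd hq1 h3
    have h5 : ∑ p ∈ T, Real.log p = Real.log ((∏ p ∈ T, p : ℕ) : ℝ) := by
      rw [Nat.cast_prod, Real.log_prod (fun p hp => by
        have := (hTm p hp).1.pos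
        positivity)]
    have h6 : 0 < ∏ p ∈ T, p := prod_pos fun p hp => (hTm p hp).1.pos
    rw [h5]
    calc Real.log ((∏ p ∈ T, p : ℕ) : ℝ) ≤ Real.log q := by
          apply Real.log_le_log
          · exact_mod_cast h6
          · exact_mod_cast h4
      _ ≤ Real.log ((X : ℝ) ^ θ) := by
          apply Real.log_le_log _ hq
          exact_mod_cast hq1
      _ = θ * Real.log X := Real.log_rpow hX0 θ
  · exact absurd rfl ha

lemma Phi_nn (u : ℝ) : 0 ≤ Phi u := le_max_left _ _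

lemma th_nn (X m : ℕ) : 0 ≤ th X m := by
  unfold th
  split_ifs
  · exact mul_nonneg (Phi_nn _) (Real.log_natCast_nonneg m)
  · exact le_rfl

/-- the parameters -/
lemma rparams (θ lam ε C K0 : ℝ) (hθ : 0 < θ) (hθ1 : θ ≤ 1 / 100) (hlam : 0 < lam) (hε : 0 < ε) (hC : 0 < C)
    (hK0 : 1 ≤ K0) : ∃ η₂ C9 δ η₁ ω : ℝ, 0 < η₂ ∧ (√C + √(1 / lam) + ε / 2) ^ 2 ≤ C9 ∧ 0 < δ ∧ 0 < η₁ ∧ η₁ ≤ 1 / 6400 ∧
    0 < ω ∧ ω ≤ 1 ∧ δ ≤ 1 / 4 ∧ 4 * δ * θ ≤ lam * (ε / 4) ^ 2 ∧ η₂ * K0 ≤ (ε / 4) ^ 2 ∧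
    (160 * η₁ + ω * C9) + 800 * η₁ * (C9 + (160 * η₁ + ω * C9)) ≤ (ε / 8) ^ 2 ∧
    400 * η₁ + 800 * η₁ * (C + 400 * η₁) ≤ (ε / 8) ^ 2 := by
  set C9 := (√C + √(1 / lam) + ε / 2) ^ 2 with hC9
  have hC90 : 0 ≤ C9 := by positivity
  set e := (ε / 8) ^ 2 with he
  have he0 : 0 < e := by positivity
  obtain ⟨η₁, h1, h2, h3⟩ : ∃ η₁ : ℝ, 0 < η₁ ∧ η₁ ≤ 1 / 6400 ∧ η₁ * (4000 * (C + C9 + 1)) ≤ e := by
    refine ⟨min (1 / 6400) (e / (4000 * (C + C9 + 1))), lt_min (by norm_num) (by positivity), min_le_left _ _, ?_⟩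
    calc min (1 / 6400) (e / (4000 * (C + C9 + 1))) * (4000 * (C + C9 + 1)) ≤
          e / (4000 * (C + C9 + 1)) * (4000 * (C + C9 + 1)) :=
          mul_le_mul_of_nonneg_right (min_le_right _ _) (by positivity)
      _ = e := by field_simp
  obtain ⟨ω, h4, h5, h6⟩ : ∃ ω : ℝ, 0 < ω ∧ ω ≤ 1 ∧ ω * (4 * (C9 + 1)) ≤ e := by
    refine ⟨min 1 (e / (4 * (C9 + 1))), lt_min (by norm_num) (by positivity), min_le_left _ _, ?_⟩
    calc min 1 (e / (4 * (C9 + 1))) * (4 * (C9 + 1)) ≤ e / (4 * (C9 + 1)) * (4 * (C9 + 1)) :=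
          mul_le_mul_of_nonneg_right (min_le_right _ _) (by positivity)
      _ = e := by field_simp
  refine ⟨(ε / 4) ^ 2 / K0, C9, min (1 / 4) (lam * (ε / 4) ^ 2 / (4 * θ)), η₁, ω, by positivity, le_rfl,
    lt_min (by norm_num) (by positivity), h1, h2, h4, h5, min_le_left _ _, ?_, ?_, ?_, ?_⟩
  · calc 4 * min (1 / 4) (lam * (ε / 4) ^ 2 / (4 * θ)) * θ = min (1 / 4) (lam * (ε / 4) ^ 2 / (4 * θ)) * (4 * θ) := by ring
      _ ≤ lam * (ε / 4) ^ 2 / (4 * θ) * (4 * θ) := mul_le_mul_of_nonneg_right (min_le_right _ _) (by positivity)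
      _ = _ := by field_simp
  · rw [div_mul_cancel₀ _ (by linarith)]
  · have b1 : 160 * η₁ ≤ 1 / 40 := by linarith
    have b2 : ω * C9 ≤ C9 := mul_le_of_le_one_left hC90 h5
    have b3 : 800 * η₁ * (C9 + (160 * η₁ + ω * C9)) ≤ 800 * η₁ * (C9 + (1 + C9)) :=
      mul_le_mul_of_nonneg_left (by linarith) (by positivity)
    have b4 : ω * (4 * (C9 + 1)) = 4 * (ω * C9) + 4 * ω := by ring
    have b5 : η₁ * (4000 * (C + C9 + 1)) = 4000 * (η₁ * C) + 4000 * (η₁ * C9) + 4000 * η₁ := by ring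
    have b6 : 800 * η₁ * (C9 + (1 + C9)) = 1600 * (η₁ * C9) + 800 * η₁ := by ring
    have b7 : 0 ≤ η₁ * C := by positivity
    have b8 : 0 ≤ η₁ * C9 := by positivity
    rw [b4] at h6
    rw [b5] at h3
    rw [b6] at b3
    linarith
  · have b1 : 400 * η₁ ≤ 1 := by linarith
    have b3 : 800 * η₁ * (C + 400 * η₁) ≤ 800 * η₁ * (C + 1) :=
      mul_le_mul_of_nonneg_left (by linarith) (by positivity)
    have b5 : η₁ * (4000 * (C + C9 + 1)) = 4000 * (η₁ * C) + 4000 * (η₁ * C9) + 4000 * η₁ := by ring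
    have b6 : 800 * η₁ * (C + 1) = 800 * (η₁ * C) + 800 * η₁ := by ring
    have b7 : 0 ≤ η₁ * C := by positivity
    have b8 : 0 ≤ η₁ * C9 := by positivity
    rw [b5] at h3
    rw [b6] at b3
    linarith

/-- the square root law -/
theorem primeroot (θ lam ε τ : ℝ) (hθ : 0 < θ) (hθ1 : θ ≤ 1 / 100) (hlam : 0 < lam) (hε : 0 < ε) (hτ : 0 < τ) :
    ∀ K Z : ℕ, ∃ X0 : ℕ, ∀ X : ℕ, X0 ≤ X →
    ∃ (ps : ℕ) (S : Finset ℕ), GoodP Z ps ∧ GoodS X S ∧
    ∑ p ∈ (Icc 1 ⌊Real.log X / 1000⌋₊).filter (fun p => p.Prime ∧ p ∉ PW X S ps), 1 / (p : ℝ) ≤ τ ∧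
    ∑ p ∈ (Icc 1 ⌊Real.log X / 1000⌋₊).filter (fun p => p.Prime ∧ p ∉ PW X S ps ∧
      Real.log X ^ (1 / 2 : ℝ) < p), 1 / (p : ℝ) ≤ τ / Real.log (Real.log X) ∧ ∀ U : ℕ, lam * (Real.log X * Real.log (Real.log X)) ≤ U →
    (U : ℝ) ≤ (X : ℝ) ^ (9 / 10 : ℝ) → ∀ (c : ℕ → ℕ → ℝ) (M : ℝ), 0 < M →
    (∀ q ∈ QS X S ps, (X : ℝ) ^ θ < q → ∀ a, c q a = 0) →
    (∀ n, 0 ≤ ∑ q ∈ QS X S ps, c q (n % (WW X S ps * q))) →
    (∀ q ∈ QS X S ps, ∑ a ∈ range (WW X S ps * q), |c q a| ≤ M * (q.divisors.card : ℝ) ^ K * Real.log X ^ K) →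
    M * X / (WW X S ps * Real.log X ^ K) ≤ ∑ n ∈ Ioc X (3 * X), ∑ q ∈ QS X S ps, c q (n % (WW X S ps * q)) →
    0 < ∑ n ∈ Icc 1 (3 * X), (∑ q ∈ QS X S ps, c q (n % (WW X S ps * q))) * Phi (n / (X : ℝ)) ∧
    |√((∑ n ∈ Icc 1 (3 * X), (∑ q ∈ QS X S ps, c q (n % (WW X S ps * q))) * ∑ h ∈ Icc 1 U, th X (n + h)) /
        ∑ n ∈ Icc 1 (3 * X), (∑ q ∈ QS X S ps, c q (n % (WW X S ps * q))) * Phi (n / (X : ℝ))) -
      √(((WW X S ps : ℝ) / (Nat.totient (WW X S ps) : ℝ) * ∑ n ∈ Icc 1 (3 * X),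
          (∑ q ∈ QS X S ps, c q (n % (WW X S ps * q))) * cop (WW X S ps) U n * Phi (n / (X : ℝ))) /
        ∑ n ∈ Icc 1 (3 * X), (∑ q ∈ QS X S ps, c q (n % (WW X S ps * q))) * Phi (n / (X : ℝ)))| ≤
      √(Real.exp Real.eulerMascheroniConstant * θ / 2 * (Real.log X * Real.log (Real.log X))) + ε * √U := by
  classical
  obtain ⟨C, hC, hupG⟩ := upG
  obtain ⟨K0, hK0, hM0⟩ := Pool.Agent.N422.LG.t_MERB2
  obtain ⟨η₂, C9, δ, η₁, ω, hη₂, hC9, hδ, hη₁0, hη₁64, hω0, hω1, hδ4, hp1, hp2, hp3, hp4⟩ := rparams θ lam ε C K0 hθ hθ1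
    hlam hε hC hK0
  obtain ⟨n0, hn0⟩ := mert2 δ hδ
  obtain ⟨σ, hσ, hmodel⟩ := model3 lam hlam η₂ hη₂ (1 / θ) (by
    rw [le_div_iff₀ hθ]
    linarith)
  intro K Z
  set σ1 : ℝ := min (min σ (1 / 2)) τ with hσ1
  have hσ10 : 0 < σ1 := lt_min (lt_min hσ (by norm_num)) hτ
  have hσ1a : σ1 ≤ σ := (min_le_left _ _).trans (min_le_left _ _)
  have hσ1b : σ1 ≤ 1 / 2 := (min_le_left _ _).trans (min_le_right _ _)
  have hσ1c : σ1 ≤ τ := min_le_right _ _
  obtain ⟨Z1, hZ1⟩ := exists_nat_gt (2 / σ1)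
  obtain ⟨X1, hest⟩ := est K (max Z Z1) η₁ hη₁0
  have hlog : Tendsto (fun X : ℕ => Real.log (X : ℝ)) atTop atTop := log_tend
  have hll : Tendsto (fun X : ℕ => Real.log (Real.log (X : ℝ))) atTop atTop := Real.tendsto_log_atTop.comp hlog
  have hev : ∀ᶠ X : ℕ in atTop, X1 ≤ X ∧ 4 ≤ X ∧ (200 : ℝ) ≤ Real.log X ∧
      (∀ h : ℕ, (h : ℝ) ≤ (X : ℝ) ^ (9 / 10 : ℝ) →
        Real.log (3 * X) * h + 2 * Real.sqrt (3 * X) * Real.log (3 * X) ≤ (X : ℝ) ^ (19 / 20 : ℝ)) ∧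
      (|LPhi X - MPhi X| ≤ ω * MPhi X ∧ X / 20 ≤ MPhi X) ∧ max 1 (max (12 / σ1) (1 / lam)) ≤ Real.log (Real.log (X : ℝ)) ∧
      Real.log (Real.log (X : ℝ)) ≤ σ1 / 2 * Real.log (X : ℝ) ^ (1 / 2 : ℝ) ∧
      200 * Real.log (max n0 1 : ℕ) ≤ Real.log X := by
    have hsq : ∀ᶠ t : ℝ in atTop, Real.log t ≤ σ1 / 2 * t ^ (1 / 2 : ℝ) := by
      filter_upwards [(isLittleO_log_rpow_atTop (show (0 : ℝ) < 1 / 2 by norm_num)).bound
        (show (0 : ℝ) < σ1 / 2 by positivity), eventually_ge_atTop (1 : ℝ)] with t h1 h2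
      rw [Real.norm_of_nonneg (Real.log_nonneg h2), Real.norm_of_nonneg (Real.rpow_nonneg (by linarith) _)] at h1
      exact h1
    filter_upwards [eventually_ge_atTop X1, eventually_ge_atTop 4, hlog.eventually_ge_atTop 200, small_U, LM ω hω0,
      hll.eventually_ge_atTop (max 1 (max (12 / σ1) (1 / lam))), hlog.eventually hsq,
      hlog.eventually_ge_atTop (200 * Real.log (max n0 1 : ℕ))] with X a1 a2 a3 a4 a5 a6 a7 a8
    exact ⟨a1, a2, a3, a4, a5, a6, a7, a8⟩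
  obtain ⟨X0, hX0⟩ := (hev.and ((hlog.eventually hupG).and (hlog.eventually hmodel))).exists_forall_of_atTop
  refine ⟨X0, ?_⟩
  intro X hX
  obtain ⟨⟨hXX1, h4X, hLbig, hsm, ⟨hLM, hMP⟩, hLLm, hLL2, hn0X⟩, hG, hMo⟩ := hX0 X hX
  have hLL : max 1 (12 / σ1) ≤ Real.log (Real.log (X : ℝ)) :=
    max_le ((le_max_left _ _).trans hLLm) ((le_max_left _ _).trans ((le_max_right _ _).trans hLLm))
  have hLLlam : 1 / lam ≤ Real.log (Real.log (X : ℝ)) := (le_max_right _ _).trans ((le_max_right _ _).trans hLLm)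
  obtain ⟨ps, S, hps', hS, hc⟩ := hest X hXX1
  have hps : GoodP Z ps := by
    rcases hps' with h | h
    · exact Or.inl h
    · exact Or.inr ⟨h.1, lt_of_le_of_lt (le_max_left _ _) h.2⟩
  set L := Real.log (X : ℝ) with hL
  have hL200 : 200 ≤ L := hLbig
  have hL100 : 100 ≤ L := by linarith
  have hL4 : 4 ≤ L := by linarith
  have hL0 : 0 < L := by linarith
  set P := PW X S ps with hP
  have hPp : ∀ p ∈ P, p.Prime ∧ (p : ℝ) ≤ L := by
    intro p hp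
    refine ⟨PW_prime hp, ?_⟩
    have h1 := (mem_PW.1 hp).1.2
    have h2 : (p : ℝ) ≤ (⌊L / 1000⌋₊ : ℝ) := by exact_mod_cast h1
    have h3 : (⌊L / 1000⌋₊ : ℝ) ≤ L / 1000 := Nat.floor_le (by positivity)
    linarith
  have hsum : ∑ p ∈ (Icc 1 ⌊L / 1000⌋₊).filter (fun p => p.Prime ∧ p ∉ P), 1 / (p : ℝ) ≤ σ1 := by
    have h1 : (Icc 1 ⌊L / 1000⌋₊).filter (fun p => p.Prime ∧ p ∉ P) ⊆ S ∪ ({ps} : Finset ℕ).filter Nat.Prime := by
      intro p hp
      rw [mem_filter, mem_Icc] at hp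
      rw [mem_union, mem_filter, mem_singleton]
      by_cases hpS : p ∈ S
      · exact Or.inl hpS
      · right
        refine ⟨?_, hp.2.1⟩
        by_contra hne
        exact hp.2.2 (mem_PW.2 ⟨hp.1, hp.2.1, hpS, hne⟩)
    have h2 := sum_le_sum_of_subset_of_nonneg h1 (f := fun p : ℕ => 1 / (p : ℝ)) (fun p _ _ => by positivity)
    have h3 := sum_union_inter (s₁ := S) (s₂ := ({ps} : Finset ℕ).filter Nat.Prime) (f := fun p : ℕ => 1 / (p : ℝ))
    have h4 : 0 ≤ ∑ p ∈ S ∩ ({ps} : Finset ℕ).filter Nat.Prime, 1 / (p : ℝ) := sum_nonneg fun p _ => by positivity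
    have h5 : ∑ p ∈ ({ps} : Finset ℕ).filter Nat.Prime, 1 / (p : ℝ) ≤ σ1 / 2 := by
      by_cases hpp : ps.Prime
      · rw [filter_singleton, if_pos hpp, sum_singleton]
        rcases hps' with h | h
        · rw [h] at hpp
          exact absurd hpp (by norm_num)
        · have h6 : (2 : ℝ) / σ1 < ps := hZ1.trans (by
            exact_mod_cast lt_of_le_of_lt (le_max_right Z Z1) h.2)
          rw [div_lt_iff₀ hσ10] at h6
          have h7 : (0 : ℝ) < ps := by exact_mod_cast hpp.pos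
          rw [div_le_iff₀ h7]
          linarith
      · rw [filter_singleton, if_neg hpp, sum_empty]
        positivity
    have h6 : ∑ q ∈ S, (1 : ℝ) / q ≤ σ1 / 2 := by
      refine hS.2.trans ?_
      have h7 : 12 / σ1 ≤ Real.log L := (le_max_right _ _).trans hLL
      have h8 : 1 ≤ Real.log L := (le_max_left _ _).trans hLL
      rw [div_le_iff₀ (by positivity)]
      rw [div_le_iff₀ hσ10] at h7
      exact ax3 h8 h7
    linarith
  have hsum2 : ∑ p ∈ (Icc 1 ⌊L / 1000⌋₊).filter (fun p => p.Prime ∧ p ∉ P ∧ L ^ (1 / 2 : ℝ) < p), 1 / (p : ℝ) ≤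
      σ1 / Real.log L := by
    have hLL1 : 1 ≤ Real.log L := (le_max_left _ _).trans hLL
    have hsq0 : 0 < L ^ (1 / 2 : ℝ) := Real.rpow_pos_of_pos hL0 _
    have h1 : (Icc 1 ⌊L / 1000⌋₊).filter (fun p => p.Prime ∧ p ∉ P ∧ L ^ (1 / 2 : ℝ) < p) ⊆
        S ∪ ({ps} : Finset ℕ).filter (fun p : ℕ => L ^ (1 / 2 : ℝ) < (p : ℝ)) := by
      intro p hp
      rw [mem_filter, mem_Icc] at hp
      rw [mem_union, mem_filter, mem_singleton]
      by_cases hpS : p ∈ S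
      · exact Or.inl hpS
      · right
        refine ⟨?_, hp.2.2.2⟩
        by_contra hne
        exact hp.2.2.1 (mem_PW.2 ⟨hp.1, hp.2.1, hpS, hne⟩)
    have h2 := sum_le_sum_of_subset_of_nonneg h1 (f := fun p : ℕ => 1 / (p : ℝ)) (fun p _ _ => by positivity)
    have h3 := sum_union_inter (s₁ := S) (s₂ := ({ps} : Finset ℕ).filter (fun p : ℕ => L ^ (1 / 2 : ℝ) < (p : ℝ)))
      (f := fun p : ℕ => 1 / (p : ℝ))
    have h4 : 0 ≤ ∑ p ∈ S ∩ ({ps} : Finset ℕ).filter (fun p : ℕ => L ^ (1 / 2 : ℝ) < (p : ℝ)), 1 / (p : ℝ) :=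
      sum_nonneg fun p _ => by positivity
    have h5 : ∑ p ∈ ({ps} : Finset ℕ).filter (fun p : ℕ => L ^ (1 / 2 : ℝ) < (p : ℝ)), 1 / (p : ℝ) ≤
        σ1 / 2 / Real.log L := by
      by_cases hpp : L ^ (1 / 2 : ℝ) < (ps : ℝ)
      · rw [filter_singleton, if_pos hpp, sum_singleton]
        rw [div_le_div_iff₀ (by linarith) (by linarith)]
        have h6 : σ1 / 2 * L ^ (1 / 2 : ℝ) ≤ σ1 / 2 * ps := mul_le_mul_of_nonneg_left hpp.le (by positivity)
        linarith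
      · rw [filter_singleton, if_neg hpp, sum_empty]
        positivity
    have h6 : ∑ q ∈ S, (1 : ℝ) / q ≤ σ1 / 2 / Real.log L := by
      refine hS.2.trans ?_
      have h7 : 12 / σ1 ≤ Real.log L := (le_max_right _ _).trans hLL
      rw [div_le_div_iff₀ (by positivity) (by linarith)]
      rw [div_le_iff₀ hσ10] at h7
      exact ax7 hLL1 h7
    have h7 : σ1 / Real.log L = σ1 / 2 / Real.log L + σ1 / 2 / Real.log L := by ring
    linarith
  have hLL0 : 0 < Real.log L := by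
    have := (le_max_left _ _).trans hLL
    linarith
  refine ⟨ps, S, hps, hS, hsum.trans hσ1c, hsum2.trans (div_le_div_of_nonneg_right hσ1c hLL0.le), ?_⟩
  intro U hU hUX c M hM hcθ hw hs hm
  obtain ⟨hT, hSt⟩ := hc c M hM hs
  have hXr : (4 : ℝ) ≤ X := by exact_mod_cast h4X
  have hX0 : (0 : ℝ) < X := by linarith
  set W := WW X S ps with hW
  have hW0 : 0 < W := Pool.Agent.H378R2.WW_pos X S ps
  have hWr : (0 : ℝ) < W := by exact_mod_cast hW0
  set R := ⌊(X : ℝ) ^ (1 / 100 : ℝ)⌋₊ with hR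
  have hXp1 : 1 ≤ (X : ℝ) ^ (1 / 100 : ℝ) := Real.one_le_rpow (by linarith) (by norm_num)
  have hR1 : 1 ≤ R := Nat.le_floor (by rw [Nat.cast_one]; exact hXp1)
  set Q := W * R with hQ
  have hQ1 : 1 ≤ Q := Nat.mul_pos hW0 hR1
  set CC := ct W (QS X S ps) c with hCC
  have hwt : ∀ n, wt Q CC n = ∑ q ∈ QS X S ps, c q (n % (W * q)) :=
    fun n => wt_ct W R hW0 (QS X S ps) (QS_sub _ _ _) c n
  simp only [← hwt] at hw hm ⊢
  set St : ℝ := ∑ d ∈ Icc 1 Q, Pool.Agent.Y829.RP.ss CC d with hStd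
  set m : ℝ := ∑ n ∈ Ioc X (3 * X), wt Q CC n with hmd
  have hSt0 : 0 ≤ St := sum_nonneg fun d _ => Pool.Agent.Y829.RP.ss_nonneg _ _
  have hSt1 : St * (X : ℝ) ^ (19 / 20 : ℝ) ≤ η₁ * m := hSt.trans (mul_le_mul_of_nonneg_left hm hη₁0.le)
  have hSt2 : St ≤ η₁ * m := by
    refine le_trans ?_ hSt1
    have h1 : 1 ≤ (X : ℝ) ^ (19 / 20 : ℝ) := Real.one_le_rpow (by linarith) (by norm_num)
    exact le_mul_of_one_le_right hSt0 h1
  have hm0 : 0 ≤ m := sum_nonneg fun n _ => hw n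
  have hmass := (abs_le.1 ((sum_int Q X (3 * X) (by omega) CC))).2
  rw [← hmd, ← hStd] at hmass
  have e1 : (((3 * X : ℕ) : ℝ) - X) * mu Q CC = 2 * (X * mu Q CC) := by push_cast; ring
  rw [e1] at hmass
  have hWX : (W : ℝ) ≤ (X : ℝ) ^ (1 / 700 : ℝ) := by
    refine (Pool.Agent.H378R2.WW_le X (by linarith) S ps).trans (le_of_eq ?_)
    rw [Real.rpow_def_of_pos hX0]
    congr 1
    ring
  have hQX : (Q : ℝ) ≤ X := by
    have h2 : (R : ℝ) ≤ (X : ℝ) ^ (1 / 100 : ℝ) := Nat.floor_le (Real.rpow_nonneg hX0.le _)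
    calc (Q : ℝ) = W * R := by rw [hQ]; push_cast; ring
      _ ≤ (X : ℝ) ^ (1 / 700 : ℝ) * (X : ℝ) ^ (1 / 100 : ℝ) :=
          mul_le_mul hWX h2 (by positivity) (Real.rpow_nonneg hX0.le _)
      _ = (X : ℝ) ^ (1 / 700 + 1 / 100 : ℝ) := (Real.rpow_add hX0 _ _).symm
      _ ≤ (X : ℝ) ^ (1 : ℝ) := Real.rpow_le_rpow_of_exponent_le (by linarith) (by norm_num)
      _ = X := Real.rpow_one _
  have hmu0 : 0 ≤ mu Q CC := by
    have h1 : 0 ≤ (1 - η₁) * m := mul_nonneg (by linarith) hm0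
    have h2 : 0 ≤ 2 * (X * mu Q CC) := by linarith
    have h3 : 0 ≤ X * mu Q CC := by linarith
    exact nonneg_of_mul_nonneg_right h3 hX0
  have hUleX : ∀ h ∈ Icc 1 U, h ≤ X ∧ (h : ℝ) ≤ (X : ℝ) ^ (9 / 10 : ℝ) := by
    intro h hh
    have h1 : (h : ℝ) ≤ U := by exact_mod_cast (mem_Icc.1 hh).2
    have h2 : (X : ℝ) ^ (9 / 10 : ℝ) ≤ X := by
      calc (X : ℝ) ^ (9 / 10 : ℝ) ≤ (X : ℝ) ^ (1 : ℝ) :=
            Real.rpow_le_rpow_of_exponent_le (by linarith) (by norm_num)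
        _ = X := Real.rpow_one _
    refine ⟨?_, h1.trans hUX⟩
    have : (h : ℝ) ≤ X := by linarith
    exact_mod_cast this
  set Y : ℝ := MPhi X * mu Q CC with hY
  set NN : ℝ := ∑ n ∈ Icc 1 (3 * X), wt Q CC n * Phi (n / (X : ℝ)) with hNN
  have hMP0 : 0 ≤ MPhi X := le_trans (by positivity) hMP
  have hY0 : 0 ≤ Y := mul_nonneg hMP0 hmu0
  have hmY : m ≤ 80 * Y := by
    have h1 : m / 2 ≤ (1 - η₁) * m := ax2 hm0 hη₁64
    have h2 : X / 20 * mu Q CC ≤ Y := mul_le_mul_of_nonneg_right hMP hmu0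
    have h3 : (1 - η₁) * m ≤ 2 * (X * mu Q CC) := by linarith
    linarith
  have hStY : St ≤ 80 * η₁ * Y := by
    calc St ≤ η₁ * m := hSt2
      _ ≤ η₁ * (80 * Y) := mul_le_mul_of_nonneg_left hmY hη₁0.le
      _ = _ := by ring
  have hNY := mass_Phi X h4X Q (by exact_mod_cast hQX) CC
  rw [← hNN, ← hY, ← hStd] at hNY
  have hNY' : |NN - Y| ≤ 400 * η₁ * Y := by linarith
  have hNN2 : Y / 2 ≤ NN := by
    have h1 := (abs_le.1 hNY').1
    have h2 : 400 * η₁ * Y ≤ Y / 2 := by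
      have := mul_le_mul_of_nonneg_right hη₁64 hY0
      linarith
    linarith
  -- the model
  have hlQ2 : Real.log Q ≤ L := Real.log_le_log (by exact_mod_cast hQ1) hQX
  have hlQ1 : L / 1000 ≤ Real.log Q := by
    have h1 : (X : ℝ) ^ (1 / 100 : ℝ) / 2 ≤ R := by
      have h2 : (X : ℝ) ^ (1 / 100 : ℝ) < R + 1 := Nat.lt_floor_add_one _
      have h3 : (1 : ℝ) ≤ R := by exact_mod_cast hR1
      linarith
    have h2 : (R : ℝ) ≤ Q := by
      rw [hQ]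
      push_cast
      have : (1 : ℝ) ≤ W := by exact_mod_cast hW0
      exact ax4 this (Nat.cast_nonneg R)
    have h3 : Real.log ((X : ℝ) ^ (1 / 100 : ℝ) / 2) ≤ Real.log Q := Real.log_le_log (by positivity) (h1.trans h2)
    rw [Real.log_div (by positivity) (by norm_num), Real.log_rpow hX0] at h3
    have h4 : Real.log 2 ≤ 9 / 1000 * L := by
      have := Real.log_two_lt_d9
      linarith
    linarith
  have hLL1 : 1 ≤ Real.log L := (le_max_left _ _).trans hLL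
  have hLLp : 0 < L * Real.log L := by positivity
  have hUL : L ≤ U := by
    have h1 : 1 ≤ lam * Real.log L := by
      rw [div_le_iff₀ hlam] at hLLlam
      linarith
    have h2 : 1 * L ≤ (lam * Real.log L) * L := mul_le_mul_of_nonneg_right h1 hL0.le
    linarith
  have hlR : L / 200 ≤ Real.log R := by
    have h1 : (X : ℝ) ^ (1 / 100 : ℝ) / 2 ≤ R := by
      have h2 : (X : ℝ) ^ (1 / 100 : ℝ) < R + 1 := Nat.lt_floor_add_one _
      have h3 : (1 : ℝ) ≤ R := by exact_mod_cast hR1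
      linarith
    have h3 : Real.log ((X : ℝ) ^ (1 / 100 : ℝ) / 2) ≤ Real.log R := Real.log_le_log (by positivity) h1
    rw [Real.log_div (by positivity) (by norm_num), Real.log_rpow hX0] at h3
    have h4 : Real.log 2 ≤ 1 / 200 * L := by
      have := Real.log_two_lt_d9
      linarith
    linarith
  have hRQ : (R : ℝ) ≤ Q := by
    rw [hQ]
    push_cast
    have : (1 : ℝ) ≤ W := by exact_mod_cast hW0
    exact ax4 this (Nat.cast_nonneg R)
  have hR0 : (0 : ℝ) < R := by exact_mod_cast hR1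
  have hlRQ : Real.log R ≤ Real.log Q := Real.log_le_log hR0 hRQ
  have hlQ0 : 0 < Real.log Q := by
    have : 0 < L / 200 := by positivity
    linarith
  have hn0Q : n0 ≤ Q := by
    have h1 : (0 : ℝ) < ((max n0 1 : ℕ) : ℝ) := by exact_mod_cast (lt_max_of_lt_right one_pos)
    have h2 : Real.log (max n0 1 : ℕ) ≤ Real.log Q := by linarith
    have h3 : ((max n0 1 : ℕ) : ℝ) ≤ Q := (Real.log_le_log_iff h1 (by linarith)).1 h2
    have h4 : max n0 1 ≤ Q := by exact_mod_cast h3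
    exact (le_max_left _ _).trans h4
  have hQ2 : 2 ≤ Q := by
    by_contra hcon
    have h1 : Q = 1 := by omega
    rw [h1] at hlQ0
    simp at hlQ0
  have hmod := hMo Q hlQ1 hlQ2 (θ * L) (by positivity) (by
    rw [← mul_assoc, one_div_mul_cancel hθ.ne', one_mul]
    exact hlQ2) (by
    have : θ * L ≤ 1 / 100 * L := mul_le_mul_of_nonneg_right hθ1 hL0.le
    linarith) U hU P hPp (hsum.trans hσ1a)
    (hsum2.trans (div_le_div_of_nonneg_right hσ1a (by linarith))) CC hw (suppCT X S ps θ h4X Q c hcθ)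
  have hup := hG P hPp (hsum.trans hσ1b) U hUL
  have hVP0 : 0 < V P := V_pos P (fun p hp => (hPp p hp).1)
  have hVQ0 : 0 < VV Q := Pool.Agent.N422.LG.MERB_pos Q
  have hU0 : (0 : ℝ) ≤ U := Nat.cast_nonneg _
  set GS : ℝ := ∑ h ∈ Icc 1 U, RP.GG Q CC h with hGS
  set N : ℝ := mQ Q (fun n => wt Q CC n * Sf P n U) with hN
  set G' : ℝ := N / V P with hG'
  have hmod' : |√(VV Q * GS) - √(VV Q / V P * N)| ≤ √(Real.log L / 2 * (θ * L / Real.log Q * mu Q CC)) +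
      √(η₂ * (U / L) * mu Q CC) := by
    rw [hGS, ← GG_mQ, ← mu_mQ]
    exact hmod
  have hN0 : 0 ≤ N := Pool.Agent.N422.LG.REC_mQ_nonneg (fun n => mul_nonneg (hw n) (Nat.cast_nonneg _))
  have hGS0 : 0 ≤ GS := by
    have h1 : 0 ≤ VV Q * GS := by
      rw [hGS, ← GG_mQ]
      exact Pool.Agent.N422.LG.REC_mQ_nonneg (fun n => mul_nonneg (hw n) (Nat.cast_nonneg _))
    exact nonneg_of_mul_nonneg_right h1 hVQ0
  have hG'0 : 0 ≤ G' := by positivity
  have hG'le : G' ≤ C * (U * mu Q CC) := by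
    rw [hG', div_le_iff₀ hVP0]
    have h1 : N ≤ mQ Q (fun n => (C * (U * V P)) * wt Q CC n) := by
      apply Pool.Agent.N422.LG.REC_mQ_mono
      intro n
      rw [mul_comm]
      exact mul_le_mul_of_nonneg_right (hup n) (hw n)
    rw [Pool.Agent.N422.LG.FIN_smul, mu_mQ] at h1
    linarith
  -- the weight `w N`
  set C2 := ct W (QS X S ps) (fun q a => c q a * cop W U a) with hC2
  have hwt2 : ∀ n, wt Q C2 n = wt Q CC n * cop W U n := by
    intro n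
    rw [hwt, hC2, hQ, wt_ct W R hW0 (QS X S ps) (QS_sub _ _ _), sum_mul]
    apply sum_congr rfl
    intro q _
    rw [cop_mod]
  have hNmu : N = mu Q C2 := by
    rw [← mu_mQ, hN]
    congr 1
    ext n
    rw [hwt2, hP, ← cop_eq]
  have hss2 : ∑ d ∈ Icc 1 Q, Pool.Agent.Y829.RP.ss C2 d ≤ U * St := by
    rw [hStd, mul_sum]
    apply sum_le_sum
    intro d _
    rw [hC2, hCC, ss_ct, ss_ct]
    split_ifs with h
    · rw [mul_sum]
      apply sum_le_sum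
      intro a _
      rw [abs_mul, abs_of_nonneg (cop_nonneg _ _ _), mul_comm]
      exact mul_le_mul_of_nonneg_right (cop_le _ _ _) (abs_nonneg _)
    · simp
  have hmass2 := mass_Phi X h4X Q (by exact_mod_cast hQX) C2
  rw [← hNmu] at hmass2
  set T2 : ℝ := ∑ n ∈ Icc 1 (3 * X), wt Q CC n * cop W U n * Phi (n / (X : ℝ)) with hT2
  have hT2' : ∑ n ∈ Icc 1 (3 * X), wt Q C2 n * Phi (n / (X : ℝ)) = T2 :=
    sum_congr rfl (fun n _ => by rw [hwt2])
  rw [hT2'] at hmass2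
  have hVinv : 1 / V P ≤ (X : ℝ) ^ (19 / 20 : ℝ) := by
    have h1 : V P = (Nat.totient W : ℝ) / (W : ℝ) := V_tot X S ps
    have h2 : (1 : ℝ) ≤ (Nat.totient W : ℝ) := by exact_mod_cast Nat.totient_pos.2 hW0
    rw [h1, one_div_div]
    calc (W : ℝ) / (Nat.totient W : ℝ) ≤ W := div_le_self hWr.le h2
      _ ≤ (X : ℝ) ^ (1 / 700 : ℝ) := hWX
      _ ≤ (X : ℝ) ^ (19 / 20 : ℝ) := Real.rpow_le_rpow_of_exponent_le (by linarith) (by norm_num)
  have hWtot : (W : ℝ) / (Nat.totient W : ℝ) = 1 / V P := by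
    have h1 : V P = (Nat.totient W : ℝ) / (W : ℝ) := V_tot X S ps
    rw [h1, one_div_div]
  -- the individual steps
  have hsw : ∑ n ∈ Icc 1 (3 * X), wt Q CC n * ∑ h ∈ Icc 1 U, th X (n + h) =
      ∑ h ∈ Icc 1 U, ∑ n ∈ Icc 1 (3 * X), wt Q CC n * th X (n + h) := by
    rw [sum_comm]
    apply sum_congr rfl
    intro n _
    rw [mul_sum]
  have s1 : |∑ h ∈ Icc 1 U, ∑ n ∈ Icc 1 (3 * X), wt Q CC n * th X (n + h) - ∑ h ∈ Icc 1 U, TT X Q CC h| ≤
      U * (80 * η₁ * Y) := by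
    rw [← sum_sub_distrib]
    refine (abs_sum_le_sum_abs _ _).trans ?_
    have h1 : ∀ h ∈ Icc 1 U, |∑ n ∈ Icc 1 (3 * X), wt Q CC n * th X (n + h) - TT X Q CC h| ≤ 80 * η₁ * Y := by
      intro h hh
      refine (TT_th X (by omega) Q CC hw St (wt_le_ss Q CC) h (hUleX h hh).1).trans ?_
      have h2 := hsm h (hUleX h hh).2
      have h3 : 0 ≤ Real.log (3 * X) * h := mul_nonneg (Real.log_nonneg (by linarith)) (Nat.cast_nonneg _)
      calc St * (2 * Real.sqrt (3 * X) * Real.log (3 * X)) ≤ St * (X : ℝ) ^ (19 / 20 : ℝ) :=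
            mul_le_mul_of_nonneg_left (by linarith) hSt0
        _ ≤ η₁ * m := hSt1
        _ ≤ η₁ * (80 * Y) := mul_le_mul_of_nonneg_left hmY hη₁0.le
        _ = _ := by ring
    refine (sum_le_sum h1).trans ?_
    rw [sum_const, Nat.card_Icc, Nat.add_sub_cancel, nsmul_eq_mul]
  have s2 : |∑ h ∈ Icc 1 U, TT X Q CC h - LPhi X * GS| ≤ U * (80 * η₁ * Y) := by
    rw [hGS, mul_sum, ← sum_sub_distrib]
    refine (abs_sum_le_sum_abs _ _).trans ?_
    have h1 : ∀ h ∈ Icc 1 U, |TT X Q CC h - LPhi X * RP.GG Q CC h| ≤ 80 * η₁ * Y := by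
      intro h hh
      refine (hT h (hUleX h hh).1).trans ?_
      calc η₁ * (M * X / (W * L ^ K)) ≤ η₁ * m := mul_le_mul_of_nonneg_left hm hη₁0.le
        _ ≤ η₁ * (80 * Y) := mul_le_mul_of_nonneg_left hmY hη₁0.le
        _ = _ := by ring
    refine (sum_le_sum h1).trans ?_
    rw [sum_const, Nat.card_Icc, Nat.add_sub_cancel, nsmul_eq_mul]
  have hMPpos : 0 < MPhi X := lt_of_lt_of_le (by positivity) hMP
  have hmupos : 0 < mu Q CC := by
    have h1 : 0 < M * X / (W * L ^ K) := by positivity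
    have h2 : 0 < Y := by linarith
    exact pos_of_mul_pos_right h2 hMP0
  have hUpos : (0 : ℝ) < U := by linarith
  have hVQlow : gg * (1 - δ) ≤ VV Q * Real.log Q := (hn0 Q hn0Q).1
  have hVQK : 1 / VV Q ≤ K0 * L := by
    have h1 := (hM0 Q Q hQ2 le_rfl).2.2.1
    have h2 : 1 ≤ VV Q * (K0 * Real.log Q) := by
      rw [div_le_iff₀ (by positivity)] at h1
      exact h1
    rw [div_le_iff₀ hVQ0]
    have h3 : VV Q * (K0 * Real.log Q) ≤ VV Q * (K0 * L) := by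
      apply mul_le_mul_of_nonneg_left _ hVQ0.le
      exact mul_le_mul_of_nonneg_left hlQ2 (by linarith)
    linarith
  have s5 : |MPhi X * G' - 1 / V P * T2| ≤ U * (400 * η₁ * Y) := by
    have h1 : MPhi X * G' - 1 / V P * T2 = -(1 / V P * (T2 - MPhi X * N)) := by
      rw [hG']
      ring
    rw [h1, abs_neg, abs_mul, abs_of_nonneg (show 0 ≤ 1 / V P by positivity)]
    have h2 : |T2 - MPhi X * N| ≤ 5 * (U * St) := hmass2.trans (by linarith)
    calc 1 / V P * |T2 - MPhi X * N| ≤ (X : ℝ) ^ (19 / 20 : ℝ) * (5 * (U * St)) :=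
          mul_le_mul hVinv h2 (abs_nonneg _) (Real.rpow_nonneg hX0.le _)
      _ = 5 * U * (St * (X : ℝ) ^ (19 / 20 : ℝ)) := by ring
      _ ≤ 5 * U * (η₁ * m) := mul_le_mul_of_nonneg_left hSt1 (by positivity)
      _ ≤ 5 * U * (η₁ * (80 * Y)) := by
          apply mul_le_mul_of_nonneg_left _ (by positivity)
          exact mul_le_mul_of_nonneg_left hmY hη₁0.le
      _ = _ := by ring
  have hYpos : 0 < Y := mul_pos hMPpos hmupos
  have hNNpos : 0 < NN := by linarith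
  refine ⟨hNNpos, ?_⟩
  rw [hsw, hWtot]
  have hT10 : 0 ≤ ∑ h ∈ Icc 1 U, ∑ n ∈ Icc 1 (3 * X), wt Q CC n * th X (n + h) :=
    sum_nonneg fun h _ => sum_nonneg fun n _ => mul_nonneg (hw n) (th_nn _ _)
  have hT20 : 0 ≤ T2 :=
    sum_nonneg fun n _ => mul_nonneg (mul_nonneg (hw n) (cop_nonneg _ _ _)) (Phi_nn _)
  have hT2V0 : 0 ≤ 1 / V P * T2 := mul_nonneg (one_div_nonneg.2 hVP0.le) hT20
  have s12 : |∑ h ∈ Icc 1 U, ∑ n ∈ Icc 1 (3 * X), wt Q CC n * th X (n + h) - LPhi X * GS| ≤ 160 * η₁ * U * Y := by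
    refine (abs_sub_le _ (∑ h ∈ Icc 1 U, TT X Q CC h) _).trans ((add_le_add s1 s2).trans (le_of_eq ?_))
    ring
  have s5' : |1 / V P * T2 - MPhi X * G'| ≤ 400 * η₁ * U * Y := by
    rw [abs_sub_comm]
    refine s5.trans (le_of_eq ?_)
    ring
  have hmod'' : |√(VV Q * GS) - √(VV Q * G')| ≤ √(Real.log L / 2 * (θ * L / Real.log Q * mu Q CC)) +
      √(η₂ * (U / L) * mu Q CC) := by
    have e1 : VV Q * G' = VV Q / V P * N := by
      rw [hG']
      ring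
    rw [e1]
    exact hmod'
  exact core hMPpos hmupos hVQ0 hlQ0 hL0 hLL0 hUpos hNNpos hGS0 hG'0 hT10 hT2V0 hθ hθ1 hlam hε hC hη₂ hC9 hδ
    hω0 hδ4 hp1 hp2 hp3 hp4 hY hNN2 hNY' hmod'' hG'le hVQlow hVQK hU s12 hLM s5'

end Pool.Agent.H301.SZ
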