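import Pool.Agent.H301.SZ.Nxs

/-! All scales at once, with the right constants. -/

set_option autoImplicit false

open Finset

namespace Pool.Agent.H301.SZ

open Pool.Agent.N422.NW Pool.Agent.N422.LR Pool.Agent.H301.SX

theorem NW1all : S_NW1 := t_NW1 t_KER t_POLY t_JEN t_AV

/-- too many hits: the inequality for the law of the hits -/
theorem lows (N k n : ℕ) (q : Fin N → ℕ) (ν : Fin N → ℕ) (f : St N k → ℝ)
    (hq : ∀ i, 2 * k ≤ q i ∧ 0 < q i) (hf : ∀ γ, 0 ≤ f γ) (hL : Lev ν n f) (t : ℝ) (ht : 0 < t) (R : Fin N → ℝ)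
    (r0 κ : ℝ) (hr00 : r0 ≤ 1 / 4) (hκ : ∀ i, (k : ℝ) / q i ≤ κ) (hκ2 : κ ≤ 1 / 2)
    (hR : ∀ i, 0 ≤ R i ∧ R i * (Real.cosh (ν i * t) + 1) ≤ r0) :
    ∑ γ, muP (fun i => (q i : ℝ)) γ * f γ * ∑ i, R i * Real.sinh (ν i * t) *
      ((1 + 1 / 2 * R i * Real.cosh (ν i * t)) * (if Hit (alive γ i) (γ i) then 1 else 0) -
        (1 + ((1 + 2 * r0) * (1 + 2 * κ) + 8 * κ) * R i * Real.cosh (ν i * t) + 2 * κ) * (((alive γ i).card : ℝ) / q i)) ≤
      n * t * ∑ γ, muP (fun i => (q i : ℝ)) γ * f γ := by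
  classical
  have hkq : ∀ i, k ≤ q i := fun i => by
    have := (hq i).1
    omega
  have hP0 : (0 : ℝ) < ∏ i, (q i : ℝ) := prod_pos fun i _ => by exact_mod_cast (hq i).2
  have hmu : ∀ γ : St N k, 0 ≤ muP (fun i => (q i : ℝ)) γ := by
    intro γ
    unfold muP
    apply prod_nonneg
    intro i _
    have hqi : (0 : ℝ) < q i := by exact_mod_cast (hq i).2
    have hki : (k : ℝ) ≤ q i := by exact_mod_cast hkq i
    cases γ i with
    | some a =>
      unfold mu1
      positivity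
    | none =>
      unfold mu1
      have : (k : ℝ) / q i ≤ 1 := by
        rw [div_le_one hqi]
        exact hki
      linarith
  set f' : Xs q → ℝ := fun x => f (fun i => sg k q i (x i)) with hf'
  have hf'0 : ∀ x, 0 ≤ f' x := fun x => hf _
  have hmax : ∀ x, max (f' x) 0 = f' x := fun x => max_eq_left (hf'0 x)
  have habs : ∀ x, |f' x| = f' x := fun x => abs_of_nonneg (hf'0 x)
  have hE : ∑ x, f' x = (∏ i, (q i : ℝ)) * ∑ γ, muP (fun i => (q i : ℝ)) γ * f γ := push q hkq f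
  have hLX : LevX ν n f' := by
    obtain ⟨m, S, g, h1, h2, h3⟩ := hL
    refine ⟨m, S, fun j x => g j (fun i => sg k q i (x i)), h1, ?_, fun x => h3 _⟩
    intro j x x' hxx
    apply h2
    intro i hi
    rw [hxx i hi]
  have hOne : One (sg k q) := by
    intro i a
    rw [sg_some i (hkq i) a, card_singleton]
  rcases (sum_nonneg fun x _ => hf'0 x : 0 ≤ ∑ x, f' x).eq_or_lt with h0 | hpos
  · -- the trivial case
    have h1 : ∑ γ, muP (fun i => (q i : ℝ)) γ * f γ = 0 := by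
      rw [hE] at h0
      rcases mul_eq_zero.1 h0.symm with h2 | h2
      · exact absurd h2 hP0.ne'
      · exact h2
    have h2 : ∀ γ, muP (fun i => (q i : ℝ)) γ * f γ = 0 := fun γ =>
      (sum_eq_zero_iff_of_nonneg (fun γ _ => mul_nonneg (hmu γ) (hf γ))).1 h1 γ (mem_univ _)
    rw [h1, mul_zero]
    apply le_of_eq
    apply sum_eq_zero
    intro γ _
    rw [h2, zero_mul]
  · have key := nxs N k n q (sg k q) ν f' hq hOne hLX t ht r0 κ hr00 hκ hκ2 R hR (by simp only [hmax]; exact hpos)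
    simp only [hmax, habs] at key
    rw [div_self hpos.ne', Real.log_one, add_zero, hE] at key
    have hpush := push q hkq (fun γ => f γ * ∑ i, R i * Real.sinh (ν i * t) *
      ((1 + 1 / 2 * R i * Real.cosh (ν i * t)) * (if Hit (alive γ i) (γ i) then 1 else 0) -
        (1 + ((1 + 2 * r0) * (1 + 2 * κ) + 8 * κ) * R i * Real.cosh (ν i * t) + 2 * κ) * (((alive γ i).card : ℝ) / q i)))
    have e1 : ∑ x, f' x * ∑ i : Fin N, R i * Real.sinh (ν i * t) *
        ((1 + 1 / 2 * R i * Real.cosh (ν i * t)) * (if Hit (al (sg k q) x i) (sg k q i (x i)) then 1 else 0) -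
          (1 + ((1 + 2 * r0) * (1 + 2 * κ) + 8 * κ) * R i * Real.cosh (ν i * t) + 2 * κ) *
          (((al (sg k q) x i).card : ℝ) / q i)) =
        (∏ i, (q i : ℝ)) * ∑ γ, muP (fun i => (q i : ℝ)) γ * (f γ * ∑ i, R i * Real.sinh (ν i * t) *
      ((1 + 1 / 2 * R i * Real.cosh (ν i * t)) * (if Hit (alive γ i) (γ i) then 1 else 0) -
        (1 + ((1 + 2 * r0) * (1 + 2 * κ) + 8 * κ) * R i * Real.cosh (ν i * t) + 2 * κ) * (((alive γ i).card : ℝ) / q i))) := hpush
    rw [e1] at key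
    have e2 : ∀ a b : ℝ, n * t * ((∏ i, (q i : ℝ)) * b) = (∏ i, (q i : ℝ)) * (n * t * b) := fun _ b => by ring
    rw [e2 0] at key
    have key2 := le_of_mul_le_mul_left key hP0
    refine le_trans (le_of_eq ?_) key2
    apply sum_congr rfl
    intro γ _
    ring


/-- one step -/
lemma stp {N k : ℕ} {q : Fin N → ℝ} (hq2 : ∀ i, 2 ≤ q i) (γ : St N k) (i : Fin N) :
    (((alive γ i).card : ℝ) / q i) / Pi1 q ((i : ℕ) + 1) = 1 / (q i - 1) * (((alive γ i).card : ℝ) / Pi1 q i) ∧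
    ((alive γ ((i : ℕ) + 1)).card : ℝ) / Pi1 q ((i : ℕ) + 1) - ((alive γ i).card : ℝ) / Pi1 q i =
      (((alive γ i).card : ℝ) / q i - (if Hit (alive γ i) (γ i) then 1 else 0)) / Pi1 q ((i : ℕ) + 1) := by
  have h1 := hq2 i
  have h2 := Pi1_pos hq2 (i : ℕ)
  rw [alive_succ, Pi1_succ]
  set A : ℝ := ((alive γ i).card : ℝ) with hA
  set e : ℝ := (if Hit (alive γ i) (γ i) then (1 : ℝ) else 0) with he
  set P := Pi1 q (i : ℕ) with hP
  set a := q i with ha
  have h3 : a ≠ 0 := by linarith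
  have h4 : a - 1 ≠ 0 := by
    intro h
    linarith
  have h5 : 1 - 1 / a = (a - 1) / a := by field_simp
  have h6 : P ≠ 0 := h2.ne'
  rw [h5]
  constructor
  · field_simp
  · field_simp
    ring

/-- the potential of the first places -/
noncomputable def ss {N : ℕ} (q : Fin N → ℝ) (i : ℕ) : ℝ := ∑ j ∈ univ.filter (fun j : Fin N => (j : ℕ) < i), 1 / (q j - 1)

lemma ss_succ {N : ℕ} (q : Fin N → ℝ) (i : Fin N) : ss q ((i : ℕ) + 1) = 1 / (q i - 1) + ss q i := by
  unfold ss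
  rw [filt_succ (i : ℕ) i.2, sum_insert (filt_not _ _)]

lemma ss_zero {N : ℕ} (q : Fin N → ℝ) : ss q 0 = 0 := by
  unfold ss
  apply sum_eq_zero
  intro j hj
  exact absurd (mem_filter.1 hj).2 (Nat.not_lt_zero _)

lemma ss_nonneg {N : ℕ} {q : Fin N → ℝ} (hq2 : ∀ i, 2 ≤ q i) (i : ℕ) : 0 ≤ ss q i := by
  unfold ss
  apply sum_nonneg
  intro j _
  have := hq2 j
  have : 0 < q j - 1 := by linarith
  positivity

lemma ss_le {N : ℕ} {q : Fin N → ℝ} (hq2 : ∀ i, 2 ≤ q i) {G : ℝ} (hG : ∑ i, 1 / (q i - 1) ≤ G) (i : ℕ) : ss q i ≤ G := by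
  refine le_trans ?_ hG
  unfold ss
  apply sum_le_sum_of_subset_of_nonneg (filter_subset _ _)
  intro j _ _
  have := hq2 j
  have : 0 < q j - 1 := by linarith
  positivity

lemma telf (N : ℕ) (F : ℕ → ℝ) : ∑ i : Fin N, (F ((i : ℕ) + 1) - F i) = F N - F 0 := by
  rw [Fin.sum_univ_eq_sum_range (fun i => F (i + 1) - F i) N, Finset.sum_range_sub]

lemma MM_zero {N k : ℕ} (q : Fin N → ℝ) (f : St N k → ℝ) : MM q f 0 = k * ∑ γ, muP q γ * f γ := by
  unfold MM
  rw [mul_sum]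
  apply sum_congr rfl
  intro γ _
  have h2 : Pi1 q 0 = 1 := by
    unfold Pi1
    rw [filter_false_of_mem (fun j _ => Nat.not_lt_zero _), prod_empty]
  rw [alive_zero, h2]
  ring

/-- few hits: the upper bound with the right constant -/
theorem seqUp (N k n : ℕ) (q : Fin N → ℕ) (ν : Fin N → ℕ) (f : St N k → ℝ)
    (hq : ∀ i, 2 * k ≤ q i ∧ 2 ≤ q i) (hf : ∀ γ, 0 ≤ f γ) (hL : Lev ν n f) (t w δ c G b c1 r0 : ℝ) (ht : 0 < t)
    (hw : 0 < w) (hδ : 0 ≤ δ) (hc : 0 < c) (hb : 0 < b) (hc1 : 0 ≤ c1) (hcb : c1 * (1 + δ) ≤ b) (hr0 : r0 < 1)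
    (hlog : ∀ r : ℝ, 0 ≤ r → r ≤ r0 → -Real.log (1 - r) ≤ r + c1 * r ^ 2) (hbc : (2 + δ) / (b * c) ≤ r0)
    (hG : ∑ i, 1 / ((q i : ℝ) - 1) ≤ G)
    (hs : ∀ i : Fin N, w ≤ Pi1 (fun i => (q i : ℝ)) ((i : ℕ) + 1) * Real.sinh (ν i * t))
    (hco : ∀ i, Real.cosh (ν i * t) ≤ 1 + δ) :
    MM (fun i => (q i : ℝ)) f N ≤ ((c + G) / c * (1 + 1 / c) * k + b * (c + G) * (n * t / w)) *
        ∑ γ, muP (fun i => (q i : ℝ)) γ * f γ := by
  classical
  set Q : Fin N → ℝ := fun i => (q i : ℝ) with hQ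
  have hQ2 : ∀ i, 2 ≤ Q i := fun i => by
    show (2 : ℝ) ≤ (q i : ℝ)
    exact_mod_cast (hq i).2
  have hQk : ∀ i, (k : ℝ) < Q i := fun i => by
    have e : k < q i := by
      have := hq i
      omega
    show (k : ℝ) < (q i : ℝ)
    exact_mod_cast e
  have hP0 : ∀ i : ℕ, 0 < Pi1 Q i := fun i => Pi1_pos hQ2 i
  set W : Fin N → ℝ := fun i => Pi1 Q ((i : ℕ) + 1) * Real.sinh (ν i * t) with hW
  have hWw : ∀ i, w ≤ W i := fun i => hs i
  have hW0 : ∀ i, 0 < W i := fun i => hw.trans_le (hWw i)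
  have hsh : ∀ i, 0 < Real.sinh (ν i * t) := fun i => by
    have h1 := hW0 i
    rw [hW] at h1
    exact (pos_iff_pos_of_mul_pos h1).1 (hP0 _)
  have hG0 : 0 ≤ G := (ss_nonneg hQ2 N).trans (ss_le hQ2 hG N)
  set r : ℕ → ℝ := fun i => 1 / (b * (c + ss Q i)) with hr
  have hcs : ∀ i, 0 < c + ss Q i := fun i => by
    have := ss_nonneg hQ2 i
    linarith
  have hr1 : ∀ i, 0 < r i := fun i => by
    have := hcs i
    rw [hr]
    positivity
  have hr2 : ∀ i, r i ≤ 1 / (b * c) := fun i => by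
    apply one_div_le_one_div_of_le (by positivity)
    apply mul_le_mul_of_nonneg_left _ hb.le
    have := ss_nonneg hQ2 i
    linarith
  set R : Fin N → ℝ := fun i => r ((i : ℕ) + 1) * w / W i with hR
  have hR0 : ∀ i, 0 ≤ R i := fun i => by
    have := hr1 ((i : ℕ) + 1)
    have := hW0 i
    rw [hR]
    positivity
  have hRr : ∀ i, R i ≤ r ((i : ℕ) + 1) := fun i => by
    rw [hR]
    dsimp only
    rw [div_le_iff₀ (hW0 i)]
    exact mul_le_mul_of_nonneg_left (hWw i) (hr1 _).le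
  have hRs : ∀ i : Fin N, R i * Real.sinh (ν i * t) = w * r ((i : ℕ) + 1) / Pi1 Q ((i : ℕ) + 1) := fun i => by
    have h1 := hP0 ((i : ℕ) + 1)
    have h2 := hsh i
    rw [hR, hW]
    dsimp only
    field_simp
  have hco1 : ∀ i, 1 ≤ Real.cosh (ν i * t) := fun i => Real.one_le_cosh _
  have key := NW1all N k n Q ν f hQk hf hL t ht R c1 r0 hR0 hc1 hr0 hlog (fun i => by
    have h1 : R i ≤ 1 / (b * c) := (hRr i).trans (hr2 _)
    calc R i * (Real.cosh (ν i * t) + 1) ≤ 1 / (b * c) * (2 + δ) :=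
          mul_le_mul h1 (by linarith [hco i]) (by linarith [hco1 i]) (by positivity)
      _ = (2 + δ) / (b * c) := by ring
      _ ≤ r0 := hbc)
  set E : ℝ := ∑ γ, muP Q γ * f γ with hE
  have hwt : ∀ γ, 0 ≤ muP Q γ * f γ := fun γ => mul_nonneg (muP_nonneg hQk γ) (hf γ)
  have hE0 : 0 ≤ E := sum_nonneg fun γ _ => hwt γ
  set u : ℕ → ℝ := fun i => r i + b * r i ^ 2 with hu
  have hpt : ∀ γ : St N k, w * (u N * (((alive γ N).card : ℝ) / Pi1 Q N) - u 0 * (((alive γ 0).card : ℝ) / Pi1 Q 0)) ≤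
      ∑ i, R i * Real.sinh (ν i * t) * (((alive γ i).card : ℝ) / Q i -
      (1 + c1 * R i * Real.cosh (ν i * t)) * (if Hit (alive γ i) (γ i) then 1 else 0)) := by
    intro γ
    rw [← telf N (fun i => u i * (((alive γ i).card : ℝ) / Pi1 Q i)), mul_sum]
    apply sum_le_sum
    intro i _
    obtain ⟨g1, g2⟩ := stp hQ2 γ i
    have hP1 := hP0 ((i : ℕ) + 1)
    have hPi := hP0 (i : ℕ)
    set m0 : ℝ := ((alive γ i).card : ℝ) / Pi1 Q i with hm0
    set m1 : ℝ := ((alive γ ((i : ℕ) + 1)).card : ℝ) / Pi1 Q ((i : ℕ) + 1) with hm1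
    set al : ℝ := ((alive γ i).card : ℝ) / Q i with hal
    set e : ℝ := (if Hit (alive γ i) (γ i) then (1 : ℝ) else 0) with he
    set P1 := Pi1 Q ((i : ℕ) + 1) with hP1'
    set ρ := r ((i : ℕ) + 1) with hρ
    set σ := r (i : ℕ) with hσ
    set g := 1 / (Q i - 1) with hg
    have hg0 : 0 < g := by
      have := hQ2 i
      have : 0 < Q i - 1 := by linarith
      rw [hg]
      positivity
    have he0 : 0 ≤ e := by
      rw [he]
      split_ifs <;> norm_num
    have hm00 : 0 ≤ m0 := by positivity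
    have hρ0 : 0 < ρ := hr1 _
    have hσ0 : 0 < σ := hr1 _
    have hσρ : σ - ρ = b * g * σ * ρ := by
      have a1 := hcs (i : ℕ)
      have a2 := hcs ((i : ℕ) + 1)
      have a3 : ss Q ((i : ℕ) + 1) = g + ss Q i := ss_succ Q i
      rw [hσ, hρ, hr]
      dsimp only
      rw [a3] at a2 ⊢
      field_simp
      ring
    have hρσ : ρ ≤ σ := by
      have : 0 ≤ b * g * σ * ρ := by positivity
      linarith
    have hcR : c1 * R i * Real.cosh (ν i * t) ≤ b * ρ := by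
      have a1 : R i * Real.cosh (ν i * t) ≤ ρ * (1 + δ) :=
        mul_le_mul (hRr i) (hco i) (by linarith [hco1 i]) hρ0.le
      calc c1 * R i * Real.cosh (ν i * t) = c1 * (R i * Real.cosh (ν i * t)) := by ring
        _ ≤ c1 * (ρ * (1 + δ)) := mul_le_mul_of_nonneg_left a1 hc1
        _ = (c1 * (1 + δ)) * ρ := by ring
        _ ≤ b * ρ := mul_le_mul_of_nonneg_right hcb hρ0.le
    have hT : w * ρ / P1 * (al - (1 + b * ρ) * e) ≤ R i * Real.sinh (ν i * t) *
        (al - (1 + c1 * R i * Real.cosh (ν i * t)) * e) := by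
      rw [hRs i]
      apply mul_le_mul_of_nonneg_left _ (by positivity)
      have := mul_le_mul_of_nonneg_right hcR he0
      linarith
    refine le_trans ?_ hT
    -- the algebra
    have a1 : e / P1 = g * m0 - (m1 - m0) := by
      rw [g2, ← g1]
      ring
    have a2 : w * ρ / P1 * (al - (1 + b * ρ) * e) = w * ((ρ + b * ρ ^ 2) * (m1 - m0) - b * ρ ^ 2 * (g * m0)) := by
      have a3 : al / P1 = g * m0 := g1
      calc w * ρ / P1 * (al - (1 + b * ρ) * e) = w * ρ * (al / P1 - (1 + b * ρ) * (e / P1)) := by ring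
        _ = w * ρ * (g * m0 - (1 + b * ρ) * (g * m0 - (m1 - m0))) := by rw [a3, a1]
        _ = _ := by ring
    rw [a2]
    apply mul_le_mul_of_nonneg_left _ hw.le
    show (ρ + b * ρ ^ 2) * m1 - (σ + b * σ ^ 2) * m0 ≤ _
    have a4 : 0 ≤ (σ - ρ - b * g * ρ ^ 2) * m0 := by
      apply mul_nonneg _ hm00
      rw [hσρ]
      have : b * g * σ * ρ - b * g * ρ ^ 2 = b * g * ρ * (σ - ρ) := by ring
      rw [this]
      exact mul_nonneg (by positivity) (by linarith)
    have a5 : 0 ≤ b * (σ ^ 2 - ρ ^ 2) * m0 := by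
      apply mul_nonneg _ hm00
      apply mul_nonneg hb.le
      nlinarith
    linarith
  have e1 := (sum_le_sum fun γ (_ : γ ∈ univ) => mul_le_mul_of_nonneg_left (hpt γ) (hwt γ)).trans key
  have e2 : ∑ γ, muP Q γ * f γ * (w * (u N * (((alive γ N).card : ℝ) / Pi1 Q N) -
      u 0 * (((alive γ 0).card : ℝ) / Pi1 Q 0))) = w * (u N * MM Q f N - u 0 * (k * E)) := by
    rw [← MM_zero Q f]
    unfold MM
    rw [mul_sum, mul_sum, ← sum_sub_distrib, mul_sum]
    apply sum_congr rfl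
    intro γ _
    ring
  rw [e2] at e1
  have hMN : 0 ≤ MM Q f N := MM_nonneg hQk hQ2 hf N
  have hu0 : u 0 = 1 / (b * c) * (1 + 1 / c) := by
    rw [hu, hr]
    dsimp only
    rw [ss_zero, add_zero]
    field_simp
  have huN : 1 / (b * (c + G)) ≤ u N := by
    have a1 : 1 / (b * (c + G)) ≤ r N := by
      apply one_div_le_one_div_of_le (mul_pos hb (hcs N))
      apply mul_le_mul_of_nonneg_left _ hb.le
      have := ss_le hQ2 hG N
      linarith
    have a2 : 0 ≤ b * r N ^ 2 := by positivity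
    show _ ≤ r N + b * r N ^ 2
    linarith
  have e3 : u N * MM Q f N - u 0 * (k * E) ≤ n * t / w * E := by
    have a1 : w * (u N * MM Q f N - u 0 * (k * E)) ≤ w * (n * t / w * E) := by
      refine e1.trans (le_of_eq ?_)
      field_simp
    exact le_of_mul_le_mul_left a1 hw
  have hcG : 0 < c + G := by linarith
  have e4 : 1 / (b * (c + G)) * MM Q f N ≤ u 0 * (k * E) + n * t / w * E := by
    have := mul_le_mul_of_nonneg_right huN hMN
    linarith
  rw [hu0, div_mul_eq_mul_div, one_mul, div_le_iff₀ (by positivity)] at e4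
  refine e4.trans (le_of_eq ?_)
  field_simp

/-- many hits: the lower bound with the right constant -/
theorem seqLo (N k n : ℕ) (q : Fin N → ℕ) (ν : Fin N → ℕ) (f : St N k → ℝ)
    (hq : ∀ i, 2 * k ≤ q i ∧ 2 ≤ q i) (hf : ∀ γ, 0 ≤ f γ) (hL : Lev ν n f) (t w δ c G b κ r0 : ℝ) (ht : 0 < t)
    (hw : 0 < w) (hδ : 0 ≤ δ) (hG0 : 0 ≤ G) (hc : G < c) (hb : 0 < b) (hr00 : r0 ≤ 1 / 4)
    (hκ : ∀ i, (k : ℝ) / q i ≤ κ) (hκ0 : 0 ≤ κ) (hκ2 : κ ≤ 1 / 2)
    (hbb : ((1 + 2 * r0) * (1 + 2 * κ) + 8 * κ) * (1 + δ) - 1 / 2 / (1 + δ) + δ ≤ b * (1 - δ))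
    (hκb : 2 * κ ≤ δ / (b * c))
    (hbc : (2 + δ) / (b * (c - G)) ≤ r0)
    (hG : ∑ i, 1 / ((q i : ℝ) - 1) ≤ G) (hg : ∀ i, 1 / ((q i : ℝ) - 1) ≤ δ * (c - G))
    (hs : ∀ i : Fin N, w ≤ Pi1 (fun i => (q i : ℝ)) ((i : ℕ) + 1) * Real.sinh (ν i * t))
    (hs2 : ∀ i : Fin N, Pi1 (fun i => (q i : ℝ)) ((i : ℕ) + 1) * Real.sinh (ν i * t) ≤ (1 + δ) * w)
    (hco : ∀ i, Real.cosh (ν i * t) ≤ 1 + δ) :
    ((c - G) / c * k - b * (c - G) * (n * t / w)) * ∑ γ, muP (fun i => (q i : ℝ)) γ * f γ ≤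
      (1 + r0) * MM (fun i => (q i : ℝ)) f N := by
  classical
  set Q : Fin N → ℝ := fun i => (q i : ℝ) with hQ
  have hQ2 : ∀ i, 2 ≤ Q i := fun i => by
    show (2 : ℝ) ≤ (q i : ℝ)
    exact_mod_cast (hq i).2
  have hQk : ∀ i, (k : ℝ) < Q i := fun i => by
    have e : k < q i := by
      have := hq i
      omega
    show (k : ℝ) < (q i : ℝ)
    exact_mod_cast e
  have hP0 : ∀ i : ℕ, 0 < Pi1 Q i := fun i => Pi1_pos hQ2 i
  set W : Fin N → ℝ := fun i => Pi1 Q ((i : ℕ) + 1) * Real.sinh (ν i * t) with hW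
  have hWw : ∀ i, w ≤ W i := fun i => hs i
  have hWw2 : ∀ i, W i ≤ (1 + δ) * w := fun i => hs2 i
  have hW0 : ∀ i, 0 < W i := fun i => hw.trans_le (hWw i)
  have hsh : ∀ i, 0 < Real.sinh (ν i * t) := fun i => by
    have h1 := hW0 i
    rw [hW] at h1
    exact (pos_iff_pos_of_mul_pos h1).1 (hP0 _)
  have hc0 : 0 < c := lt_of_le_of_lt hG0 hc
  have hcG : 0 < c - G := by linarith
  set r : ℕ → ℝ := fun i => 1 / (b * (c - ss Q i)) with hr
  have hcs : ∀ i, c - G ≤ c - ss Q i := fun i => by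
    have := ss_le hQ2 hG i
    linarith
  have hcs0 : ∀ i, 0 < c - ss Q i := fun i => hcG.trans_le (hcs i)
  have hr1 : ∀ i, 0 < r i := fun i => by
    have := hcs0 i
    rw [hr]
    positivity
  have hr2 : ∀ i, r i ≤ 1 / (b * (c - G)) := fun i => by
    apply one_div_le_one_div_of_le (by positivity)
    exact mul_le_mul_of_nonneg_left (hcs i) hb.le
  have hr3 : ∀ i, 1 / (b * c) ≤ r i := fun i => by
    apply one_div_le_one_div_of_le (mul_pos hb (hcs0 i))
    apply mul_le_mul_of_nonneg_left _ hb.le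
    have := ss_nonneg hQ2 i
    linarith
  have hr0p : 0 < r0 := lt_of_lt_of_le (by positivity) hbc
  set R : Fin N → ℝ := fun i => r ((i : ℕ) + 1) * w / W i with hR
  have hR0 : ∀ i, 0 ≤ R i := fun i => by
    have := hr1 ((i : ℕ) + 1)
    have := hW0 i
    rw [hR]
    positivity
  have hRr : ∀ i, R i ≤ r ((i : ℕ) + 1) := fun i => by
    rw [hR]
    dsimp only
    rw [div_le_iff₀ (hW0 i)]
    exact mul_le_mul_of_nonneg_left (hWw i) (hr1 _).le
  have hRr2 : ∀ i : Fin N, r ((i : ℕ) + 1) / (1 + δ) ≤ R i := fun i => by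
    rw [hR]
    dsimp only
    rw [div_le_div_iff₀ (by linarith) (hW0 i)]
    calc r ((i : ℕ) + 1) * W i ≤ r ((i : ℕ) + 1) * ((1 + δ) * w) := mul_le_mul_of_nonneg_left (hWw2 i) (hr1 _).le
      _ = r ((i : ℕ) + 1) * w * (1 + δ) := by ring
  have hRs : ∀ i : Fin N, R i * Real.sinh (ν i * t) = w * r ((i : ℕ) + 1) / Pi1 Q ((i : ℕ) + 1) := fun i => by
    have h1 := hP0 ((i : ℕ) + 1)
    have h2 := hsh i
    rw [hR, hW]
    dsimp only
    field_simp
  have hco1 : ∀ i, 1 ≤ Real.cosh (ν i * t) := fun i => Real.one_le_cosh _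
  have key := lows N k n q ν f (fun i => ⟨(hq i).1, by
    have := (hq i).2
    omega⟩) hf hL t ht R r0 κ hr00 hκ hκ2 (fun i => ⟨hR0 i, by
      have h1 : R i ≤ 1 / (b * (c - G)) := (hRr i).trans (hr2 _)
      calc R i * (Real.cosh (ν i * t) + 1) ≤ 1 / (b * (c - G)) * (2 + δ) :=
            mul_le_mul h1 (by linarith [hco i]) (by linarith [hco1 i]) (by positivity)
        _ = (2 + δ) / (b * (c - G)) := by ring
        _ ≤ r0 := hbc⟩)
  set C2 : ℝ := (1 + 2 * r0) * (1 + 2 * κ) + 8 * κ with hC2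
  have hC20 : 0 ≤ C2 := by positivity
  set a : ℝ := 1 / 2 / (1 + δ) with ha
  have ha0 : 0 < a := by positivity
  set E : ℝ := ∑ γ, muP Q γ * f γ with hE
  have hwt : ∀ γ, 0 ≤ muP Q γ * f γ := fun γ => mul_nonneg (muP_nonneg hQk γ) (hf γ)
  have hE0 : 0 ≤ E := sum_nonneg fun γ _ => hwt γ
  have hkey : ∑ γ, muP Q γ * f γ * ∑ i, R i * Real.sinh (ν i * t) *
      ((1 + 1 / 2 * R i * Real.cosh (ν i * t)) * (if Hit (alive γ i) (γ i) then 1 else 0) -
        (1 + C2 * R i * Real.cosh (ν i * t) + 2 * κ) * (((alive γ i).card : ℝ) / Q i)) ≤ n * t * E := key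
  set u : ℕ → ℝ := fun i => r i + a * r i ^ 2 with hu
  have hpt : ∀ γ : St N k, w * (u 0 * (((alive γ 0).card : ℝ) / Pi1 Q 0) - u N * (((alive γ N).card : ℝ) / Pi1 Q N)) ≤
      ∑ i, R i * Real.sinh (ν i * t) *
      ((1 + 1 / 2 * R i * Real.cosh (ν i * t)) * (if Hit (alive γ i) (γ i) then 1 else 0) -
        (1 + C2 * R i * Real.cosh (ν i * t) + 2 * κ) * (((alive γ i).card : ℝ) / Q i)) := by
    intro γ
    have e0 : u 0 * (((alive γ 0).card : ℝ) / Pi1 Q 0) - u N * (((alive γ N).card : ℝ) / Pi1 Q N) =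
        ∑ i : Fin N, ((fun i : ℕ => -(u i * (((alive γ i).card : ℝ) / Pi1 Q i))) ((i : ℕ) + 1) -
          (fun i : ℕ => -(u i * (((alive γ i).card : ℝ) / Pi1 Q i))) i) := by
      refine Eq.trans ?_ (telf N (fun i : ℕ => -(u i * (((alive γ i).card : ℝ) / Pi1 Q i)))).symm
      ring
    rw [e0, mul_sum]
    apply sum_le_sum
    intro i _
    obtain ⟨g1, g2⟩ := stp hQ2 γ i
    have hP1 := hP0 ((i : ℕ) + 1)
    have hPi := hP0 (i : ℕ)
    dsimp only
    set m0 : ℝ := ((alive γ i).card : ℝ) / Pi1 Q i with hm0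
    set m1 : ℝ := ((alive γ ((i : ℕ) + 1)).card : ℝ) / Pi1 Q ((i : ℕ) + 1) with hm1
    set al : ℝ := ((alive γ i).card : ℝ) / Q i with hal
    set e : ℝ := (if Hit (alive γ i) (γ i) then (1 : ℝ) else 0) with he
    set P1 := Pi1 Q ((i : ℕ) + 1) with hP1'
    set ρ := r ((i : ℕ) + 1) with hρ
    set σ := r (i : ℕ) with hσ
    set g := 1 / (Q i - 1) with hg'
    have hQi : 0 < Q i - 1 := by
      have := hQ2 i
      linarith
    have hg0 : 0 < g := by
      rw [hg']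
      positivity
    have he0 : 0 ≤ e := by
      rw [he]
      split_ifs <;> norm_num
    have hal0 : 0 ≤ al := by
      have := hQ2 i
      have : 0 < Q i := by linarith
      positivity
    have hm00 : 0 ≤ m0 := by positivity
    have hρ0 : 0 < ρ := hr1 _
    have hσ0 : 0 < σ := hr1 _
    have hρσ : ρ - σ = b * g * σ * ρ := by
      have a1 := hcs0 (i : ℕ)
      have a2 := hcs0 ((i : ℕ) + 1)
      have a3 : ss Q ((i : ℕ) + 1) = g + ss Q i := ss_succ Q i
      rw [hσ, hρ, hr]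
      dsimp only
      rw [a3] at a2 ⊢
      field_simp
      ring
    have hσρ : (1 - δ) * ρ ≤ σ := by
      -- σ / ρ = 1 - g / (c - s_i)
      have a1 := hcs0 (i : ℕ)
      have a2 : b * g * σ ≤ δ := by
        have a3 : σ ≤ 1 / (b * (c - G)) := hr2 _
        have a4 : g ≤ δ * (c - G) := hg i
        calc b * g * σ ≤ b * (δ * (c - G)) * (1 / (b * (c - G))) := by
              apply mul_le_mul _ a3 hσ0.le (by positivity)
              exact mul_le_mul_of_nonneg_left a4 hb.le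
          _ = δ := by field_simp
      have a5 := mul_le_mul_of_nonneg_right a2 hρ0.le
      linarith
    have hcR : C2 * R i * Real.cosh (ν i * t) ≤ C2 * (1 + δ) * ρ := by
      have a1 : R i * Real.cosh (ν i * t) ≤ ρ * (1 + δ) :=
        mul_le_mul (hRr i) (hco i) (by linarith [hco1 i]) hρ0.le
      calc C2 * R i * Real.cosh (ν i * t) = C2 * (R i * Real.cosh (ν i * t)) := by ring
        _ ≤ C2 * (ρ * (1 + δ)) := mul_le_mul_of_nonneg_left a1 hC20
        _ = _ := by ring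
    have hcR2 : a * ρ ≤ 1 / 2 * R i * Real.cosh (ν i * t) := by
      have a1 : ρ / (1 + δ) * 1 ≤ R i * Real.cosh (ν i * t) :=
        mul_le_mul (hRr2 i) (hco1 i) zero_le_one (hR0 i)
      rw [mul_one] at a1
      calc a * ρ = 1 / 2 * (ρ / (1 + δ)) := by
            rw [ha]
            ring
        _ ≤ 1 / 2 * (R i * Real.cosh (ν i * t)) := by linarith
        _ = _ := by ring
    have hT : w * ρ / P1 * ((1 + a * ρ) * e - (1 + C2 * (1 + δ) * ρ + 2 * κ) * al) ≤ R i * Real.sinh (ν i * t) *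
        ((1 + 1 / 2 * R i * Real.cosh (ν i * t)) * e - (1 + C2 * R i * Real.cosh (ν i * t) + 2 * κ) * al) := by
      rw [hRs i]
      apply mul_le_mul_of_nonneg_left _ (by positivity)
      have b1 := mul_le_mul_of_nonneg_right hcR hal0
      have b2 := mul_le_mul_of_nonneg_right hcR2 he0
      linarith
    refine le_trans ?_ hT
    have a1 : e / P1 = g * m0 - (m1 - m0) := by
      rw [g2, ← g1]
      ring
    have a2 : w * ρ / P1 * ((1 + a * ρ) * e - (1 + C2 * (1 + δ) * ρ + 2 * κ) * al) =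
        w * (-((ρ + a * ρ ^ 2) * (m1 - m0)) - ((C2 * (1 + δ) - a) * ρ ^ 2 + 2 * κ * ρ) * (g * m0)) := by
      have a3 : al / P1 = g * m0 := g1
      calc w * ρ / P1 * ((1 + a * ρ) * e - (1 + C2 * (1 + δ) * ρ + 2 * κ) * al) =
            w * ρ * ((1 + a * ρ) * (e / P1) - (1 + C2 * (1 + δ) * ρ + 2 * κ) * (al / P1)) := by ring
        _ = w * ρ * ((1 + a * ρ) * (g * m0 - (m1 - m0)) - (1 + C2 * (1 + δ) * ρ + 2 * κ) * (g * m0)) := by rw [a3, a1]
        _ = _ := by ring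
    rw [a2]
    apply mul_le_mul_of_nonneg_left _ hw.le
    show -((ρ + a * ρ ^ 2) * m1) - -((σ + a * σ ^ 2) * m0) ≤ _
    have a4 : 0 ≤ (ρ - σ - ((C2 * (1 + δ) - a) * ρ ^ 2 + 2 * κ * ρ) * g) * m0 := by
      apply mul_nonneg _ hm00
      rw [hρσ]
      have b1 : 2 * κ ≤ δ * ρ := by
        have b2 : δ / (b * c) = δ * (1 / (b * c)) := by ring
        have b3 := mul_le_mul_of_nonneg_left (hr3 ((i : ℕ) + 1)) hδ
        rw [b2] at hκb
        linarith
      have b4 : (C2 * (1 + δ) - a + δ) * ρ ≤ b * σ := by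
        calc (C2 * (1 + δ) - a + δ) * ρ ≤ (b * (1 - δ)) * ρ := mul_le_mul_of_nonneg_right hbb hρ0.le
          _ = b * ((1 - δ) * ρ) := by ring
          _ ≤ b * σ := mul_le_mul_of_nonneg_left hσρ hb.le
      have b5 : (C2 * (1 + δ) - a) * ρ + 2 * κ ≤ b * σ := by
        have : (C2 * (1 + δ) - a + δ) * ρ = (C2 * (1 + δ) - a) * ρ + δ * ρ := by ring
        linarith
      have b6 : b * g * σ * ρ - ((C2 * (1 + δ) - a) * ρ ^ 2 + 2 * κ * ρ) * g =
          (g * ρ) * (b * σ - ((C2 * (1 + δ) - a) * ρ + 2 * κ)) := by ring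
      rw [b6]
      exact mul_nonneg (by positivity) (by linarith)
    have a5 : 0 ≤ a * (ρ ^ 2 - σ ^ 2) * m0 := by
      apply mul_nonneg _ hm00
      apply mul_nonneg ha0.le
      have : σ ≤ ρ := by
        have : 0 ≤ b * g * σ * ρ := by positivity
        linarith
      nlinarith
    linarith
  have e1 := (sum_le_sum fun γ (_ : γ ∈ univ) => mul_le_mul_of_nonneg_left (hpt γ) (hwt γ)).trans hkey
  have e2 : ∑ γ, muP Q γ * f γ * (w * (u 0 * (((alive γ 0).card : ℝ) / Pi1 Q 0) -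
      u N * (((alive γ N).card : ℝ) / Pi1 Q N))) = w * (u 0 * (k * E) - u N * MM Q f N) := by
    rw [← MM_zero Q f]
    unfold MM
    rw [mul_sum, mul_sum, ← sum_sub_distrib, mul_sum]
    apply sum_congr rfl
    intro γ _
    ring
  rw [e2] at e1
  have hMN : 0 ≤ MM Q f N := MM_nonneg hQk hQ2 hf N
  have hu0 : 1 / (b * c) ≤ u 0 := by
    have a1 := hr3 0
    have a2 : 0 ≤ a * r 0 ^ 2 := by positivity
    show _ ≤ r 0 + a * r 0 ^ 2
    linarith
  have huN : u N ≤ 1 / (b * (c - G)) * (1 + r0) := by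
    have a1 := hr2 N
    have a2 : a * r N ≤ r0 := by
      have b1 : a ≤ 1 := by
        rw [ha, div_le_one (by linarith)]
        linarith
      have b2 : r N ≤ r0 := by
        refine a1.trans (le_trans ?_ hbc)
        apply div_le_div_of_nonneg_right (by linarith)
        positivity
      calc a * r N ≤ 1 * r0 := mul_le_mul b1 b2 (hr1 N).le zero_le_one
        _ = r0 := one_mul _
    calc r N + a * r N ^ 2 = r N * (1 + a * r N) := by ring
      _ ≤ 1 / (b * (c - G)) * (1 + r0) := by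
          apply mul_le_mul a1 (by linarith)
          · have := hr1 N
            positivity
          · positivity
  have e3 : u 0 * (k * E) - u N * MM Q f N ≤ n * t / w * E := by
    have a1 : w * (u 0 * (k * E) - u N * MM Q f N) ≤ w * (n * t / w * E) := by
      refine e1.trans (le_of_eq ?_)
      field_simp
    exact le_of_mul_le_mul_left a1 hw
  have hkE : 0 ≤ (k : ℝ) * E := by positivity
  have e4 : 1 / (b * c) * (k * E) - n * t / w * E ≤ 1 / (b * (c - G)) * (1 + r0) * MM Q f N := by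
    have h1 := mul_le_mul_of_nonneg_right huN hMN
    have h2 := mul_le_mul_of_nonneg_right hu0 hkE
    linarith
  have e5 := mul_le_mul_of_nonneg_left e4 (show 0 ≤ b * (c - G) by positivity)
  have e6 : b * (c - G) * (1 / (b * (c - G)) * (1 + r0) * MM Q f N) = (1 + r0) * MM Q f N := by
    field_simp
  have e7 : b * (c - G) * (1 / (b * c) * (k * E) - n * t / w * E) =
      ((c - G) / c * k - b * (c - G) * (n * t / w)) * E := by
    field_simp
  rw [e6, e7] at e5
  exact e5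

end Pool.Agent.H301.SZ
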