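import Pool.Agent.H301.SZ.Pack

/-! The density of the modulus. -/

set_option autoImplicit false

namespace Pool.Agent.H301.SZ

open Finset Filter Topology Pool.Agent.H301.SX
open Pool.Agent.Y829 (HS Sf mem_HS V V_insert)
open Pool.Agent.N422.LG

lemma gg_le : gg ≤ 1 := by
  unfold gg
  rw [Real.exp_le_one_iff]
  have := Real.one_half_lt_eulerMascheroniConstant
  linarith

/-- the density of the modulus -/
theorem VPW (δ : ℝ) (hδ : 0 < δ) : ∃ τ : ℝ, 0 < τ ∧ ∀ᶠ t : ℝ in atTop, ∀ P : Finset ℕ,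
    (∀ p ∈ P, p.Prime ∧ p ≤ ⌊t / 1000⌋₊) →
    ∑ p ∈ (Icc 1 ⌊t / 1000⌋₊).filter (fun p => p.Prime ∧ p ∉ P), 1 / (p : ℝ) ≤ τ →
    V P * Real.log t ≤ gg * (1 + δ) := by
  classical
  set x : ℝ := min 1 δ / 8 with hx
  have hx0 : 0 < x := by
    have : 0 < min 1 δ := lt_min one_pos hδ
    positivity
  have hx1 : x ≤ 1 / 8 := by
    have : min 1 δ ≤ 1 := min_le_left _ _
    linarith
  have hxδ : 8 * x ≤ δ := by
    have : min 1 δ ≤ δ := min_le_right _ _
    linarith
  obtain ⟨n0, hn0⟩ := mert2 x hx0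
  refine ⟨x, hx0, ?_⟩
  filter_upwards [Real.tendsto_log_atTop.eventually_ge_atTop (2 * Real.log 2000 / x),
    eventually_ge_atTop (max 4000 (2000 * (n0 : ℝ)))] with t ht1 ht2
  intro P hP hsum
  have ht3 : 4000 ≤ t := (le_max_left _ _).trans ht2
  have ht4 : 2000 * (n0 : ℝ) ≤ t := (le_max_right _ _).trans ht2
  set T := ⌊t / 1000⌋₊ with hT
  have hT1 : t / 2000 ≤ T := by
    have h1 : t / 1000 < T + 1 := Nat.lt_floor_add_one _
    linarith
  have hT0 : n0 ≤ T := by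
    have : (n0 : ℝ) ≤ T := by linarith
    exact_mod_cast this
  have hlog : Real.log t ≤ (1 + x) * Real.log T := by
    have h1 : Real.log (t / 2000) ≤ Real.log T := Real.log_le_log (by positivity) hT1
    rw [Real.log_div (by positivity) (by norm_num)] at h1
    have h0 : 0 < Real.log 2000 := Real.log_pos (by norm_num)
    rw [div_le_iff₀ hx0] at ht1
    have h2 : (1 + x) * (Real.log t - Real.log 2000) ≤ (1 + x) * Real.log T :=
      mul_le_mul_of_nonneg_left h1 (by positivity)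
    have h3 : x * Real.log 2000 ≤ Real.log 2000 := mul_le_of_le_one_left h0.le (by linarith)
    linarith
  have hm := (hn0 T hT0).2
  have hPsub : P ⊆ (Icc 1 T).filter Nat.Prime := by
    intro p hp
    rw [mem_filter, mem_Icc]
    exact ⟨⟨(hP p hp).1.pos, (hP p hp).2⟩, (hP p hp).1⟩
  set R := ((Icc 1 T).filter Nat.Prime) \ P with hR
  have hVf : V P * V R = VV T := by
    rw [VV_eq]
    unfold V
    rw [hR, mul_comm]
    exact prod_sdiff hPsub
  have hRp : ∀ p ∈ R, p.Prime := by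
    intro q hq
    rw [hR, Finset.mem_sdiff, mem_filter] at hq
    exact hq.1.2
  have hRs : ∑ p ∈ R, 1 / (p : ℝ) ≤ x := by
    refine le_trans (le_of_eq ?_) hsum
    apply sum_congr _ (fun _ _ => rfl)
    ext p
    rw [hR, Finset.mem_sdiff, mem_filter, mem_filter]
    tauto
  have hVR : 1 - x ≤ V R := by
    have h1 := V_ge R hRp
    linarith
  have hVP0 : 0 < V P := V_pos P (fun p hp => (hP p hp).1)
  have hVT : VV T * Real.log T ≤ gg * (1 + x) := hm
  have hg := gg_pos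
  have h1 : V P * (1 - x) ≤ VV T := by
    rw [← hVf]
    exact mul_le_mul_of_nonneg_left hVR hVP0.le
  have hlT0 : 0 ≤ Real.log T := Real.log_natCast_nonneg T
  have h2 : (V P * Real.log t) * (1 - x) ≤ gg * (1 + x) * (1 + x) := by
    calc (V P * Real.log t) * (1 - x) = (V P * (1 - x)) * Real.log t := by ring
      _ ≤ (V P * (1 - x)) * ((1 + x) * Real.log T) := by
          apply mul_le_mul_of_nonneg_left hlog
          exact mul_nonneg hVP0.le (by linarith)
      _ ≤ VV T * ((1 + x) * Real.log T) := mul_le_mul_of_nonneg_right h1 (by positivity)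
      _ = (VV T * Real.log T) * (1 + x) := by ring
      _ ≤ (gg * (1 + x)) * (1 + x) := mul_le_mul_of_nonneg_right hVT (by positivity)
  have h3 : gg * (1 + x) * (1 + x) ≤ (gg * (1 + δ)) * (1 - x) := by
    have h4 : (1 + x) * (1 + x) ≤ (1 + 8 * x) * (1 - x) := by nlinarith
    have h5 : (1 + 8 * x) * (1 - x) ≤ (1 + δ) * (1 - x) := mul_le_mul_of_nonneg_right (by linarith) (by linarith)
    calc gg * (1 + x) * (1 + x) = gg * ((1 + x) * (1 + x)) := by ring
      _ ≤ gg * ((1 + δ) * (1 - x)) := mul_le_mul_of_nonneg_left (h4.trans h5) hg.le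
      _ = _ := by ring
  exact le_of_mul_le_mul_right (h2.trans h3) (by linarith)

/-- the constants of the corollary -/
lemma corc {θ y δ' g c ε : ℝ} (hθ : 0 < θ) (hθ1 : θ ≤ 1 / 100) (hy : 0 ≤ y) (hy1 : y ≤ 1) (hyε : y ≤ ε / 12)
    (hδ' : 0 ≤ δ') (hδε : δ' ≤ ε / 12) (hg : 0 < g) (hg1 : g ≤ 1) (hc1 : c ≤ 1) (hcg : g * c ^ 2 = θ / 2) :
    (c + y) ^ 2 * (g * (1 + δ')) ≤ θ / 2 + ε := by
  have h1 : (c + y) ^ 2 ≤ c ^ 2 + 3 * y := by nlinarith
  have h2 : (c + y) ^ 2 * (g * (1 + δ')) ≤ (c ^ 2 + 3 * y) * (g * (1 + δ')) :=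
    mul_le_mul_of_nonneg_right h1 (by positivity)
  have h3 : (c ^ 2 + 3 * y) * (g * (1 + δ')) = (θ / 2 + 3 * (g * y)) * (1 + δ') := by
    rw [← hcg]
    ring
  have h4 : g * y ≤ y := mul_le_of_le_one_left hy hg1
  have h5 : 0 ≤ g * y := by positivity
  have h6 : (θ / 2 + 3 * (g * y)) * (1 + δ') ≤ (θ / 2 + 3 * y) * (1 + δ') :=
    mul_le_mul_of_nonneg_right (by linarith) (by linarith)
  have h7 : (θ / 2 + 3 * y) * (1 + δ') = θ / 2 + 3 * y + (θ / 2 + 3 * y) * δ' := by ring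
  have h8 : (θ / 2 + 3 * y) * δ' ≤ 4 * δ' := mul_le_mul_of_nonneg_right (by linarith) hδ'
  linarith

end Pool.Agent.H301.SZ
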